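import Pool.Agent.Y177.Ga.Rad

/-! Actions of finite groups of scalars which are interpolated by weighted polynomials. -/

set_option autoImplicit false
set_option linter.unusedSectionVars false

open Polynomial Pool.Agent.H920R2 Pool.Agent.H519R3.RS Pool.Agent.Y177.Ga

universe u v

namespace Q17.Res

section wt

variable {k C : Type u} [Field k] [CommRing C] [Algebra k C]

/-- An action of the group `A` of scalars, interpolated by weighted polynomials. -/
structure IsPA (A : AddSubgroup k) (σ : A → C →ₐ[k] C) (F : ℕ → Ideal C) (l : ℕ) : Prop where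
  zero : ∀ x, σ 0 x = x
  add : ∀ a b x, σ a (σ b x) = σ (a + b) x
  pol : ∀ d, ∀ b ∈ F d, ∃ P : C[X], (∀ j, P.coeff j ∈ F (d + j * l)) ∧
    ∀ a : A, P.eval (algebraMap k C a) = σ a b

variable {A : AddSubgroup k} {σ : A → C →ₐ[k] C} {F : ℕ → Ideal C} {l : ℕ}

/-- The invariants of a subgroup. -/
noncomputable def iv (σ : A → C →ₐ[k] C) (T : AddSubgroup A) : Subalgebra k C where
  carrier := {c | ∀ a ∈ T, σ a c = c}
  mul_mem' := fun hx hy a ha => by rw [map_mul, hx a ha, hy a ha]
  add_mem' := fun hx hy a ha => by rw [map_add, hx a ha, hy a ha]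
  algebraMap_mem' := fun c a _ => AlgHom.commutes _ c

lemma mem_iv {T : AddSubgroup A} {c : C} : c ∈ iv σ T ↔ ∀ a ∈ T, σ a c = c := Iff.rfl

variable (hσ : IsPA A σ F l) (hF : IsFilt F)

include hσ in
lemma coeff0 {b : C} {P : C[X]} (hP : ∀ a : A, P.eval (algebraMap k C a) = σ a b) :
    P.coeff 0 = b := by
  have h := hP 0
  rw [ZeroMemClass.coe_zero, map_zero, hσ.zero, ← coeff_zero_eq_eval_zero] at h
  exact h

include hσ hF in
lemma s_mem (a : A) (d : ℕ) (b : C) (hb : b ∈ F d) : σ a b ∈ F d := by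
  obtain ⟨P, hP, hPa⟩ := hσ.pol d b hb
  rw [← hPa, eval_eq_sum_range]
  refine Ideal.sum_mem _ fun j _ => Ideal.mul_mem_right _ _ ?_
  exact hF.anti _ _ (by omega) (hP j)

include hσ hF in
lemma s_sub_mem (T : AddSubgroup A) [Fintype T] (a : A) (d : ℕ) (b : C) (hb : b ∈ F d)
    (hT : b ∈ iv σ T) : σ a b - b ∈ F (d + Fintype.card T * l) := by
  classical
  obtain ⟨P, hP, hPa⟩ := hσ.pol d b hb
  have h0 := coeff0 hσ hPa
  let s : Finset k := Finset.univ.image (fun t : T => ((t : A) : k))
  have hs : s.card = Fintype.card T := by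
    rw [Finset.card_image_of_injective, Finset.card_univ]
    intro x y hxy
    exact Subtype.ext (Subtype.ext hxy)
  have h1 : σ a b - b = (P - Polynomial.C b).eval (algebraMap k C a) := by
    rw [eval_sub, eval_C, hPa]
  rw [h1, ← hs]
  refine eval_mem F hF.anti d l s _ ?_ ?_ a
  · intro j
    rw [coeff_sub, coeff_C]
    split_ifs with h
    · rw [h, h0, sub_self]; exact Ideal.zero_mem _
    · rw [sub_zero]; exact hP j
  · intro c hc
    obtain ⟨t, -, rfl⟩ := Finset.mem_image.1 hc
    rw [eval_sub, eval_C, hPa, hT t t.2, sub_self]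

include hσ hF in
lemma s_sub_mem' (a : A) (d : ℕ) (b : C) (hb : b ∈ F d) : σ a b - b ∈ F (d + l) := by
  have h1 := s_sub_mem hσ hF (⊥ : AddSubgroup A) a d b hb (by
    intro c hc
    rw [AddSubgroup.mem_bot] at hc
    rw [hc, hσ.zero])
  have h2 : Fintype.card (⊥ : AddSubgroup A) = 1 := Fintype.card_eq_one_iff.2 ⟨0, fun x =>
    Subtype.ext (AddSubgroup.mem_bot.1 x.2)⟩
  rwa [h2, one_mul] at h1

lemma val_sub {b : C} {d : ℕ} {P : C[X]} (hF : IsFilt F) (hP : ∀ j, P.coeff j ∈ F (d + j * l))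
    (h0 : P.coeff 0 = b) (a : k) :
    P.eval (algebraMap k C a) - b - a • P.coeff 1 ∈ F (d + 2 * l) := by
  have h1 := divX_mul_X_add P
  have h2 := divX_mul_X_add (divX P)
  have h3 : P.eval (algebraMap k C a) =
      ((divX (divX P)).eval (algebraMap k C a) * algebraMap k C a +
      P.coeff 1) * algebraMap k C a + b := by
    conv_lhs => rw [← h1, ← h2]
    rw [eval_add, eval_mul, eval_add, eval_mul, eval_X, eval_C, eval_C, h0, coeff_divX]
  have h4 : P.eval (algebraMap k C a) - b - a • P.coeff 1 =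
      (divX (divX P)).eval (algebraMap k C a) * algebraMap k C a ^ 2 := by
    rw [h3, Algebra.smul_def]
    ring
  rw [h4]
  refine Ideal.mul_mem_right _ _ ?_
  rw [eval_eq_sum_range]
  refine Ideal.sum_mem _ fun j _ => Ideal.mul_mem_right _ _ ?_
  rw [coeff_divX, coeff_divX]
  refine hF.anti _ _ ?_ (hP (j + 1 + 1))
  have : 2 * l ≤ (j + 1 + 1) * l := Nat.mul_le_mul_right _ (by omega)
  omega

include hσ hF in
/-- The elements of the group act by proportional leading forms. -/
lemma s_prop (a a₀ : A) (ha₀ : a₀ ≠ 0) (d : ℕ) (b : C) (hb : b ∈ F d) :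
    σ a b - b - ((a : k) * (a₀ : k)⁻¹) • (σ a₀ b - b) ∈ F (d + 2 * l) := by
  obtain ⟨P, hP, hPa⟩ := hσ.pol d b hb
  have h0 := coeff0 hσ hPa
  have h1 := val_sub hF hP h0 (a : k)
  have h2 := val_sub hF hP h0 (a₀ : k)
  rw [hPa] at h1 h2
  have h3 : (a₀ : k) ≠ 0 := fun h => ha₀ (Subtype.ext h)
  have h4 : σ a b - b - ((a : k) * (a₀ : k)⁻¹) • (σ a₀ b - b) =
      (σ a b - b - (a : k) • P.coeff 1) -
      algebraMap k C ((a : k) * (a₀ : k)⁻¹) * (σ a₀ b - b - (a₀ : k) • P.coeff 1) := by
    rw [mul_sub, ← Algebra.smul_def _ ((a₀ : k) • P.coeff 1), smul_smul,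
      inv_mul_cancel_right₀ h3, ← Algebra.smul_def]
    ring
  rw [h4]
  exact (F _).sub_mem h1 (Ideal.mul_mem_left _ _ h2)

include hσ in
lemma s_iter (n : ℕ) (a : A) (x : C) : (σ a)^[n] x = σ (n • a) x := by
  induction n generalizing x with
  | zero => rw [Function.iterate_zero, id, zero_smul, hσ.zero]
  | succ n ih => rw [Function.iterate_succ_apply, ih, hσ.add, succ_nsmul]

/-- The automorphism given by an element of the group. -/
noncomputable def sE (hσ : IsPA A σ F l) (a : A) : C ≃ₐ[k] C :=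
  AlgEquiv.ofAlgHom (σ a) (σ (-a))
    (AlgHom.ext fun x => by
      rw [AlgHom.comp_apply, hσ.add, add_neg_cancel, hσ.zero]; rfl)
    (AlgHom.ext fun x => by
      rw [AlgHom.comp_apply, hσ.add, neg_add_cancel, hσ.zero]; rfl)

lemma sE_apply (a : A) (x : C) : sE hσ a x = σ a x := rfl

include hσ in
lemma s_iv (T : AddSubgroup A) (a : A) (x : C) (hx : x ∈ iv σ T) : σ a x ∈ iv σ T := by
  intro b hb
  rw [hσ.add, add_comm, ← hσ.add, hx b hb]

/-- The action on the invariants. -/
noncomputable def sT (hσ : IsPA A σ F l) (T : AddSubgroup A) (a : A) : iv σ T ≃ₐ[k] iv σ T :=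
  AlgEquiv.ofAlgHom
    (((σ a).comp (iv σ T).val).codRestrict (iv σ T) fun x => s_iv hσ T a x x.2)
    (((σ (-a)).comp (iv σ T).val).codRestrict (iv σ T) fun x => s_iv hσ T (-a) x x.2)
    (AlgHom.ext fun x => by
      apply Subtype.ext
      change σ a (σ (-a) x) = x
      rw [hσ.add, add_neg_cancel, hσ.zero])
    (AlgHom.ext fun x => by
      apply Subtype.ext
      change σ (-a) (σ a x) = x
      rw [hσ.add, neg_add_cancel, hσ.zero])

lemma coe_sT (T : AddSubgroup A) (a : A) (x : iv σ T) :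
    ((sT hσ T a x : iv σ T) : C) = σ a x := rfl

end wt

section tau

variable {k C L : Type u} [Field k] [CommRing C] [IsDomain C] [Algebra k C] [Field L]
  [Algebra k L] [Algebra C L] [IsScalarTower k C L] [IsFractionRing C L]
  {A : AddSubgroup k} {σ : A → C →ₐ[k] C} {F : ℕ → Ideal C} {l : ℕ} (hσ : IsPA A σ F l)

/-- The extension of the action to the field of fractions. -/
noncomputable def ta (L : Type u) [Field L] [Algebra k L] [Algebra C L] [IsScalarTower k C L]
    [IsFractionRing C L] (hσ : IsPA A σ F l) (a : A) : L ≃ₐ[k] L :=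
  IsFractionRing.fieldEquivOfAlgEquiv k L L (sE hσ a)

lemma ta_map (a : A) (b : C) : ta L hσ a (algebraMap C L b) = algebraMap C L (σ a b) :=
  IsFractionRing.fieldEquivOfAlgEquiv_algebraMap k L L (sE hσ a) b

lemma ta_add (a b : A) (x : L) : ta L hσ a (ta L hσ b x) = ta L hσ (a + b) x := by
  obtain ⟨y, z, -, rfl⟩ := IsFractionRing.div_surjective (A := C) x
  simp only [map_div₀, ta_map, hσ.add]

lemma ta_zero (x : L) : ta L hσ 0 x = x := by
  obtain ⟨y, z, -, rfl⟩ := IsFractionRing.div_surjective (A := C) x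
  simp only [map_div₀, ta_map, hσ.zero]

lemma ta_iter (n : ℕ) (a : A) (x : L) : (ta L hσ a)^[n] x = ta L hσ (n • a) x := by
  induction n generalizing x with
  | zero => rw [Function.iterate_zero, id, zero_smul, ta_zero]
  | succ n ih => rw [Function.iterate_succ_apply, ih, ta_add, succ_nsmul]

end tau

section main

variable {k C L : Type u} [Field k] [CommRing C] [IsDomain C] [Algebra k C] [Field L]
  [Algebra k L] {A : AddSubgroup k} {σ : A → C →ₐ[k] C} {F : ℕ → Ideal C} {l : ℕ}
  (hσ : IsPA A σ F l) (hF : IsFilt F) (hl : 0 < l) (a₀ : A) (ha₀ : a₀ ≠ 0)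
  (hlead : ∀ d, 1 ≤ d → ∀ a ∈ F d, ∃ N : ℕ, a ^ N ∈ leadI (fun c => σ a₀ c - c) F l (N * d))
  (g : C →ₐ[k] L)

include hσ hF hlead hl ha₀ in
/-- The radical condition for prime ideals of the Rees algebra. -/
theorem rad_main (T : AddSubgroup A) [Fintype T] (a : A) (ha : ∀ b ∈ T, a + b ≠ 0)
    (hfix : ∀ b ∈ T, ∀ P : Ideal C, P.IsPrime → (∀ c, σ (a + b) c - c ∈ P) → F 1 ≤ P)
    (Q : Ideal (rG g hF)) (hQ : Q.IsPrime)
    (hQT : ∀ (e : ℕ) (c : C), c ∈ F e → c ∈ iv σ T →
      JQ g hF Q ((e : ℤ) + (Fintype.card T * l : ℕ)) (σ a c - c))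
    (d : ℕ) (x : L) (h : hm d x ∈ rG g hF) (hd : 0 < d) : (⟨hm d x, h⟩ : rG g hF) ∈ Q := by
  classical
  let s : A → C →+* C := fun a => (σ a : C →+* C)
  have hadd : ∀ a b x, s a (s b x) = s (a + b) x := fun a b x => hσ.add a b x
  have h0 : ∀ x, s 0 x = x := fun x => hσ.zero x
  by_cases hs : (⟨hm (-1) 1, s_rG g hF⟩ : rG g hF) ∈ Q
  · refine lead_special g hF (fun c => σ a₀ c - c) l ?_ hlead Q hQ ?_ hs d x h hd
    · intro e c hc
      exact s_sub_mem' hσ hF a₀ e c hc
    · intro e t ht hmem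
      -- the product
      have h1 : JQ g hF Q ((Fintype.card T * (e + l) : ℕ) : ℤ)
          (∏ b : T, (σ (a + b) t - t)) := by
        have h2 := nr_identity s T hadd h0 t a
        change ∏ b : T, (σ (a + b) t - t) = _ at h2
        rw [h2]
        refine JQ.sum g hF _ _ fun j hj => ?_
        have hj' : j ≤ Fintype.card T := by
          have := Finset.mem_range.1 hj
          omega
        have h3 : (nr s T t).coeff j ∈ F (e * (Fintype.card T - j)) := by
          have h4 := prod_coeff_mem F hF.zero hF.anti hF.mul (Finset.univ : Finset T)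
            (fun b => σ (b : A) t) e (fun b _ => s_mem hσ hF b e t ht) j
          rw [Finset.card_univ] at h4
          exact h4
        have h4 := hQT _ _ h3 fun b hb => nr_coeff_fixed s T hadd t b hb j
        have h5 : (-t) ^ j ∈ F ((e * j : ℕ) : ℤ).toNat := by
          rw [Int.toNat_natCast]
          have h6 : ∀ n : ℕ, (-t) ^ n ∈ F (e * n) := by
            intro n
            induction n with
            | zero => rw [mul_zero, hF.zero]; trivial
            | succ n ih =>
              rw [pow_succ, Nat.mul_succ]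
              exact hF.mul _ _ (Ideal.mul_mem_mul ih ((F e).neg_mem ht))
          exact h6 j
        have h6 := JQ.mul g hF h4 h5
        have h7 : (((e * (Fintype.card T - j) : ℕ) : ℤ) + ((Fintype.card T * l : ℕ) : ℤ)) +
            ((e * j : ℕ) : ℤ) = ((Fintype.card T * (e + l) : ℕ) : ℤ) := by
          obtain ⟨m, hm⟩ := Nat.exists_eq_add_of_le hj'
          rw [hm, Nat.add_sub_cancel_left]
          push_cast
          ring
        rw [h7] at h6
        exact h6
      rw [← Finset.card_univ] at h1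
      obtain ⟨b, -, h2⟩ := JQ.prod g hF hQ (Finset.univ : Finset T)
        (fun b => σ (a + b) t - t) (fun b _ => s_sub_mem' hσ hF _ e t ht) h1
      have h3 : JQ g hF Q ((e + l : ℕ) : ℤ)
          (-(σ (a + b) t - t - (((a + b : A) : k) * (a₀ : k)⁻¹) • (σ a₀ t - t))) := by
        refine JQ.special g hF hs ?_
        have h4 := s_prop hσ hF (a + b) a₀ ha₀ e t ht
        refine hF.anti _ _ ?_ ((F _).neg_mem h4)
        have : (((e + l : ℕ) : ℤ) + 1).toNat = e + l + 1 := by omega
        rw [this]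
        omega
      have h4 := JQ.add g hF h2 h3
      have h5 : σ (a + b) t - t +
          -(σ (a + b) t - t - (((a + b : A) : k) * (a₀ : k)⁻¹) • (σ a₀ t - t)) =
          (((a + b : A) : k) * (a₀ : k)⁻¹) • (σ a₀ t - t) := by ring
      rw [h5] at h4
      have h6 := JQ.smul g hF h4 (((a + b : A) : k) * (a₀ : k)⁻¹)⁻¹
      have hab : ((a + b : A) : k) ≠ 0 := fun h => ha b b.2 (Subtype.ext h)
      have ha0 : (a₀ : k) ≠ 0 := fun h => ha₀ (Subtype.ext h)
      rw [smul_smul, inv_mul_cancel₀ (mul_ne_zero hab (inv_ne_zero ha0)), one_smul] at h6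
      obtain ⟨h7, h8⟩ := h6
      have h9 : ((e + l : ℕ) : ℤ) = (e : ℤ) + l := by push_cast; ring
      simp only [h9] at h8
      exact h8
  · -- the general fibre
    let ib : C →+* rG g hF :=
      { toFun := fun b => ⟨hm 0 (g b), b_rG g hF b⟩
        map_one' := Subtype.ext (by change hm 0 (g 1) = 1; rw [map_one, hm_one])
        map_mul' := fun a b => Subtype.ext (by
          change hm 0 (g (a * b)) = hm 0 (g a) * hm 0 (g b)
          rw [map_mul, hm_mul, add_zero])
        map_zero' := Subtype.ext (by change hm 0 (g 0) = 0; rw [map_zero, hm_zero])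
        map_add' := fun a b => Subtype.ext (by
          change hm 0 (g (a + b)) = hm 0 (g a) + hm 0 (g b)
          rw [map_add, hm_add]) }
    have hib : ∀ c, JQ g hF Q 0 c → c ∈ Q.comap ib := by
      rintro c ⟨h1, h2⟩
      exact h2
    have hP : (Q.comap ib).IsPrime := hQ.comap _
    obtain ⟨b, hb, h1⟩ := inertia s T hadd h0 (Q.comap ib) hP a (by
      intro c hc
      apply hib
      have h2 := hQT 0 c (by rw [hF.zero]; trivial) hc
      refine JQ.down g hF (Fintype.card T * l) ?_
      rw [Nat.cast_zero] at h2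
      exact h2)
    have h2 := hfix b hb (Q.comap ib) hP h1
    obtain ⟨y, hy, hyx⟩ := of_hm_mem_rG g hF h
    rw [Int.toNat_natCast] at hy
    subst hyx
    have h3 : y ∈ Q.comap ib := h2 (hF.anti 1 d hd hy)
    have h4 : JQ g hF Q 0 y := ⟨_, h3⟩
    obtain ⟨h5, h6⟩ := JQ.up g hF hQ hs d h4 (by rw [zero_add]; exact h)
    simp only [zero_add] at h6
    exact h6

end main

end Q17.Res
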