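import Pool.Agent.Q17.Res.Grp

/-! Quotients by finite groups whose leading forms are linearly independent. -/

set_option autoImplicit false
set_option linter.unusedSectionVars false

open Pool.Agent.H920R2 Pool.Agent.H519R3.RS Pool.Agent.Y177.Ga

universe u v

namespace Q17.Res

section eqv

variable {k C L L' : Type u} [Field k] [CommRing C] [Algebra k C] [Field L] [Algebra k L]
  [Field L'] [Algebra k L'] (g : C →ₐ[k] L) (g' : C →ₐ[k] L') {F : ℕ → Ideal C} (hF : IsFilt F)
  (hinj : Function.Injective g) (hinj' : Function.Injective g')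

/-- The Rees algebras for two embeddings are isomorphic. -/
noncomputable def eq2 : rG g hF ≃ₐ[k] rG g' hF := (eqv g hF hinj).symm.trans (eqv g' hF hinj')

lemma eq2_hm {e : ℤ} {c : C} (h : hm e (g c) ∈ rG g hF) (hc : c ∈ F e.toNat) :
    ((eq2 g g' hF hinj hinj' ⟨hm e (g c), h⟩ : rG g' hF) : LP L') = hm e (g' c) := by
  have hz : AddMonoidAlgebra.single e c ∈ reesZ k hF := by
    intro d
    rw [AddMonoidAlgebra.coeff_single, Finsupp.single_apply]
    split_ifs with h
    · subst h; exact hc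
    · exact Ideal.zero_mem _
  have h1 : (⟨hm e (g c), h⟩ : rG g hF) = eqv g hF hinj ⟨_, hz⟩ := by
    apply Subtype.ext
    rw [coe_eqv, AddMonoidAlgebra.mapAlgHom_single]
    rfl
  rw [h1]
  change ((eqv g' hF hinj' ((eqv g hF hinj).symm (eqv g hF hinj ⟨_, hz⟩)) : rG g' hF) : LP L') = _
  rw [AlgEquiv.symm_apply_apply, coe_eqv, AddMonoidAlgebra.mapAlgHom_single]
  rfl

end eqv

section main

variable {k C : Type u} [Field k] [CommRing C] [IsDomain C] [Algebra k C] {G : Type v} [Group G]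
  [Finite G] (ρ : G →* (C ≃ₐ[k] C)) {F : ℕ → Ideal C} (hF : IsFilt F) {p : ℕ} (hp : p.Prime)
  (hpk : (p : k) = 0) {n : ℕ} {H : ℕ → Subgroup G} {a : ℕ → G} (hser : Ser p n H a) (m : ℕ → ℕ)
  (hm0 : ∀ i < n, 0 < m i)
  (hdiv : ∀ i < n, ∀ d, ∀ c ∈ F d, ρ (a i) c - c ∈ F (d + m i))
  (hfix : ∀ g : G, g ≠ 1 → ∀ P : Ideal C, P.IsPrime → (∀ c, ρ g c - c ∈ P) → F 1 ≤ P)
  (hlead : ∀ d, 1 ≤ d → ∀ b ∈ F d, ∃ N : ℕ,
    b ^ N ∈ leadM (fun (i : Fin n) c => ρ (a i) c - c) F (fun i => m i) (N * d))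

include hser in
lemma gi_succ {i : ℕ} (hi : i < n) (x : C) :
    x ∈ gi ρ (H (i + 1)) ↔ x ∈ gi ρ (H i) ∧ ρ (a i) x = x := by
  constructor
  · intro hx
    exact ⟨fun g hg => hx g (hser.le (Nat.le_succ i) hi hg),
      hx _ (hser.mem (Nat.lt_succ_self i) hi)⟩
  · rintro ⟨h1, h2⟩
    let S : Subgroup G :=
      { carrier := {g | ρ g x = x}
        mul_mem' := fun {g h} hg hh => by
          change ρ (g * h) x = x
          rw [← rho_mul, hh, hg]
        one_mem' := rho_one ρ x
        inv_mem' := fun {g} hg => by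
          change ρ g⁻¹ x = x
          conv_lhs => rw [← (show ρ g x = x from hg)]
          rw [rho_mul, inv_mul_cancel, rho_one] }
    have h3 : H (i + 1) ≤ S := by
      rw [hser.gen i hi, sup_le_iff, Subgroup.zpowers_le]
      exact ⟨fun g hg => h1 g hg, h2⟩
    exact fun g hg => h3 hg

include hF hp hpk hser hm0 hdiv hfix hlead in
/-- One step. -/
theorem g_step {i : ℕ} (hi : i < n) (hG : Good k (isFilt_restr hF (gi ρ (H i)))) :
    Good k (isFilt_restr hF (gi ρ (H (i + 1)))) := by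
  classical
  let L := FractionRing C
  let g : C →ₐ[k] L := IsScalarTower.toAlgHom k C L
  have hinj : Function.Injective g := IsFractionRing.injective C L
  let T : Subgroup G := H i
  have hnorm : a i ∈ Subgroup.normalizer (T : Set G) := hser.norm i hi
  let g0 : gi ρ T →ₐ[k] L := g.comp (gi ρ T).val
  have hinj0 : Function.Injective g0 := hinj.comp Subtype.val_injective
  let L1 := FractionRing (gi ρ T)
  let g1 : gi ρ T →ₐ[k] L1 := IsScalarTower.toAlgHom k (gi ρ T) L1
  have hinj1 : Function.Injective g1 := IsFractionRing.injective (gi ρ T) L1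
  have _ : Fintype T := Fintype.ofFinite T
  have hg : ∀ (b : G) (c : C), tg L ρ b (g c) = g (ρ b c) := fun b c => tg_map ρ b c
  have hle : gi ρ (H (i + 1)) ≤ gi ρ T := fun x hx => ((gi_succ ρ hser hi x).1 hx).1
  have hFT := isFilt_restr hF (gi ρ T)
  have hpow : a i ^ p ∈ T := hser.pow i hi
  -- the order of the automorphism
  have hiter : ∀ (j : ℕ) (x : gi ρ T), (((gT ρ hnorm)^[j] x : gi ρ T) : C) = ρ (a i ^ j) x := by
    intro j
    induction j with
    | zero => intro x; rw [pow_zero, rho_one]; rfl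
    | succ j ih => intro x; rw [Function.iterate_succ_apply, ih, coe_gT, rho_mul, pow_succ]
  have hord : ∀ x : gi ρ T, (gT ρ hnorm)^[p] x = x := by
    intro x
    apply Subtype.ext
    rw [hiter]
    exact x.2 _ hpow
  let τ : L1 ≃ₐ[k] L1 := IsFractionRing.fieldEquivOfAlgEquiv k L1 L1 (gT ρ hnorm)
  have hτ : ∀ b, τ (g1 b) = g1 (gT ρ hnorm b) := fun b =>
    IsFractionRing.fieldEquivOfAlgEquiv_algebraMap k L1 L1 (gT ρ hnorm) b
  have hτj : ∀ (j : ℕ) b, τ^[j] (g1 b) = g1 ((gT ρ hnorm)^[j] b) := by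
    intro j
    induction j with
    | zero => intro b; rfl
    | succ j ih => intro b; rw [Function.iterate_succ_apply, hτ, ih, Function.iterate_succ_apply]
  have hτdiv : ∀ (j : ℕ) x y, τ^[j] (x / y) = τ^[j] x / τ^[j] y := by
    intro j
    induction j with
    | zero => intro x y; rfl
    | succ j ih => intro x y; rw [Function.iterate_succ_apply, map_div₀, ih,
        Function.iterate_succ_apply, Function.iterate_succ_apply]
  have hτp : ∀ x, τ^[p] x = x := by
    intro x
    obtain ⟨y, z, -, rfl⟩ := IsFractionRing.div_surjective (A := gi ρ T) x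
    rw [hτdiv]
    have h1 : ∀ y : gi ρ T, τ^[p] (algebraMap (gi ρ T) L1 y) = algebraMap (gi ρ T) L1 y := by
      intro y
      have h2 := hτj p y
      rw [hord] at h2
      exact h2
    rw [h1, h1]
  -- the Rees algebras
  let R := rG g hF
  let R' := rG g0 hFT
  have hRR : R' ≤ R := by
    intro f hf d
    obtain ⟨b, hb, hb'⟩ := hf d
    exact ⟨b, hb, hb'⟩
  have hint : ∀ f ∈ R, IsIntegral R' f := by
    intro f hf
    refine gint_group (fun b => (tl (tg L ρ b) : LP L →+* LP L)) T ?_ ?_ R R' ?_ ?_ f hf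
    · intro b c x
      exact tl_mul ρ b c x
    · intro x
      exact tl_one ρ x
    · intro b _ x hx d
      obtain ⟨c, hc, hc'⟩ := hx d
      refine ⟨ρ b c, stab ρ hF hser m hdiv b _ c hc, ?_⟩
      change _ = (tl (tg L ρ b) x).coeff d
      rw [tl_coeff, ← hc']
      exact (hg b c).symm
    · intro x hx hxT d
      obtain ⟨c, hc, hc'⟩ := hx d
      have hcT : c ∈ gi ρ T := by
        intro b hb
        apply hinj
        have h1 : (tl (tg L ρ b) x).coeff d = x.coeff d :=
          congrArg (fun y : LP L => y.coeff d) (hxT b hb)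
        rw [tl_coeff, ← hc'] at h1
        exact (hg b c).symm.trans h1
      exact ⟨⟨c, hcT⟩, hc, hc'⟩
  refine good_fixE hp hpk (gT ρ hnorm) hord hFT hG (l := m i) (hm0 i hi) ?_ g1 hinj1 τ hτ hτp ?_
    (Subalgebra.inclusion hle) (Subalgebra.inclusion_injective hle) ?_
    (isFilt_restr hF (gi ρ (H (i + 1)))) (fun d c' => Iff.rfl)
  · intro d b hb
    exact hdiv i hi d b hb
  · -- the radical condition
    intro Q1 hQ1 hQ1T d x h hd
    let ε := eq2 g1 g0 hFT hinj1 hinj0
    let Q' : Ideal R' := Q1.comap (ε.symm : R' →+* rG g1 hFT)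
    have hQ' : Q'.IsPrime := hQ1.comap _
    have hQQ1 : ∀ y, y ∈ Q1 ↔ ε y ∈ Q' := by
      intro y
      change _ ↔ ε.symm (ε y) ∈ Q1
      rw [AlgEquiv.symm_apply_apply]
    let _ : Algebra R' R := (Subalgebra.inclusion hRR).toRingHom.toAlgebra
    have hintA : Algebra.IsIntegral R' R := by
      constructor
      rintro ⟨f, hf⟩
      obtain ⟨P, hP, hP0⟩ := hint f hf
      refine ⟨P, hP, ?_⟩
      have h2 : Function.Injective R.val := Subtype.val_injective
      apply h2
      rw [map_zero, ← AlgHom.coe_toRingHom, Polynomial.hom_eval₂]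
      exact hP0
    obtain ⟨Q, -, hQ, hQQ⟩ := Ideal.exists_ideal_over_prime_of_isIntegral Q' (⊥ : Ideal R) (by
      intro y hy
      rw [Ideal.mem_comap, Ideal.mem_bot] at hy
      have h1 : y = 0 := by
        apply Subtype.ext
        have h2 : ((algebraMap R' R y : R) : LP L) = ((0 : R) : LP L) := congrArg Subtype.val hy
        exact h2
      rw [h1]
      exact Q'.zero_mem)
    have hto : ∀ (y : LP L) (hy : y ∈ R') (hy' : y ∈ R), (⟨y, hy⟩ : R') ∈ Q' ↔
        (⟨y, hy'⟩ : R) ∈ Q := by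
      intro y hy hy'
      rw [← hQQ, Ideal.mem_comap]
      rfl
    -- homogeneous elements
    have htr : ∀ (e : ℤ) (c : gi ρ T) (hc : c ∈ restr F (gi ρ T) e.toNat)
        (h1 : hm e (g1 c) ∈ rG g1 hFT) (h2 : hm e (g c) ∈ R),
        (⟨_, h1⟩ : rG g1 hFT) ∈ Q1 ↔ (⟨_, h2⟩ : R) ∈ Q := by
      intro e c hc h1 h2
      have h3 : hm e (g0 c) ∈ R' := hm_mem_rG g0 hFT hc
      have h4 : ε ⟨hm e (g1 c), h1⟩ = ⟨hm e (g0 c), h3⟩ :=
        Subtype.ext (eq2_hm g1 g0 hFT hinj1 hinj0 h1 hc)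
      rw [hQQ1, h4]
      exact hto _ h3 h2
    obtain ⟨y, hy, hyx⟩ := of_hm_mem_rG g1 hFT h
    subst hyx
    have hyR : hm (d : ℤ) (g y) ∈ R := hm_mem_rG g hF hy
    rw [htr d y hy h hyR]
    refine g_rad ρ hF hp hpk hser m hm0 hdiv hfix hlead g hinj (tg L ρ) (tg_mul ρ) (tg_one ρ) hg
      hi Q hQ ?_ d (g y) hyR hd
    intro e c hc hcT
    have h5 : ((e : ℤ) + (m i : ℕ)).toNat = e + m i := by omega
    have h6 : gT ρ hnorm ⟨c, hcT⟩ - ⟨c, hcT⟩ ∈ restr F (gi ρ T) ((e : ℤ) + (m i : ℕ)).toNat := by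
      rw [h5]
      exact hdiv i hi e c hc
    have h1 : hm ((e : ℤ) + (m i : ℕ)) (g1 (gT ρ hnorm ⟨c, hcT⟩ - ⟨c, hcT⟩)) ∈ rG g1 hFT :=
      hm_mem_rG g1 hFT h6
    have h2 := hQ1T e ⟨c, hcT⟩ (by rw [Int.toNat_natCast]; exact hc) h1
    have h3 : hm ((e : ℤ) + (m i : ℕ)) (g (ρ (a i) c - c)) ∈ R := by
      refine hm_mem_rG g hF ?_
      rw [h5]
      exact hdiv i hi e c hc
    exact ⟨h3, (htr _ _ h6 h1 h3).1 h2⟩
  · rintro ⟨b, hb⟩
    constructor
    · intro h
      exact ⟨⟨b, (gi_succ ρ hser hi b).2 ⟨hb, congrArg Subtype.val h⟩⟩, rfl⟩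
    · rintro ⟨⟨b', hb'⟩, h⟩
      have h6 : b' = b := congrArg Subtype.val h
      subst h6
      exact Subtype.ext ((gi_succ ρ hser hi b').1 hb').2

lemma good_gi_congr {S S' : Subgroup G} (h : S = S') (hG : Good k (isFilt_restr hF (gi ρ S))) :
    Good k (isFilt_restr hF (gi ρ S')) := by
  subst h
  exact hG

include hF hp hpk hser hm0 hdiv hfix hlead in
/-- The invariants of the group. -/
theorem g_good (hG : Good k hF) (hne : F 1 ≠ ⊥) :
    Good k (isFilt_restr hF (gi ρ (⊤ : Subgroup G))) ∧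
      restr F (gi ρ (⊤ : Subgroup G)) 1 ≠ ⊥ := by
  classical
  refine ⟨?_, ?_⟩
  · have key : ∀ i, i ≤ n → Good k (isFilt_restr hF (gi ρ (H i))) := by
      intro i
      induction i with
      | zero =>
        intro _
        refine (good_top hF hG hne ?_).1
        rw [eq_top_iff]
        intro x _ g hg
        rw [hser.bot, Subgroup.mem_bot] at hg
        rw [hg, rho_one]
      | succ i ih =>
        intro hi
        exact g_step ρ hF hp hpk hser m hm0 hdiv hfix hlead hi (ih (by omega))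
    exact good_gi_congr ρ hF hser.top (key n le_rfl)
  · -- a nonzero invariant element
    have _ : Fintype G := Fintype.ofFinite G
    obtain ⟨x, hx, hx0⟩ := Submodule.exists_mem_ne_zero_of_ne_bot hne
    have h2 : ∏ b : G, ρ b x ∈ gi ρ (⊤ : Subgroup G) := by
      intro g _
      rw [map_prod]
      simp_rw [rho_mul]
      exact Equiv.prod_comp (Equiv.mulLeft g) (fun b => ρ b x)
    have h3 : ∏ b : G, ρ b x ∈ F 1 := by
      rw [← Finset.mul_prod_erase Finset.univ (fun b : G => ρ b x) (Finset.mem_univ (1 : G))]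
      refine Ideal.mul_mem_right _ _ ?_
      rw [rho_one]
      exact hx
    have h4 : ∏ b : G, ρ b x ≠ 0 := by
      rw [Finset.prod_ne_zero_iff]
      intro b _ h5
      exact hx0 ((map_eq_zero_iff _ (ρ b).injective).1 h5)
    intro hbot
    have h6 : (⟨∏ b : G, ρ b x, h2⟩ : gi ρ (⊤ : Subgroup G)) ∈
        restr F (gi ρ (⊤ : Subgroup G)) 1 := h3
    rw [hbot, Ideal.mem_bot] at h6
    exact h4 (congrArg Subtype.val h6)

end main

end Q17.Res
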