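import Pool.Agent.Q17.Res.Uni1
import Pool.Agent.Q17.Res.Good
import Pool.Agent.H519R3.RE.X3

/-! The action of a group of unitriangular matrices on an affine space. -/

set_option autoImplicit false
set_option linter.unusedSectionVars false

open MvPolynomial Pool.Agent.H920R2 Pool.Agent.H519R3.RS Pool.Agent.H519R3.RE

universe u v

namespace Q17.Res

section good

variable {k : Type u} [Field k] {n : ℕ} {ι : Type} [Finite ι] (w : Fin n → ℕ)

/-- The first coordinates. -/
noncomputable def xi (k : Type u) [Field k] (n : ℕ) (ι : Type) :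
    Fin n → MvPolynomial (Fin n ⊕ ι) k := fun i => X (Sum.inl i)

/-- The weighted filtration of the polynomial ring is good. -/
theorem good_xi : Good k (isFilt_EI (xi k n ι) w) := by
  let B := MvPolynomial (Fin n ⊕ ι) k
  let L := FractionRing B
  let g : B →ₐ[k] L := IsScalarTower.toAlgHom k B L
  have hinj : Function.Injective g := IsFractionRing.injective B L
  let w' : Fin n ⊕ ι → ℕ := Sum.elim w (fun _ => 0)
  let hF := isFilt_EI (xi k n ι) w
  let R := rwA g w' (X : Fin n ⊕ ι → B)
  have hs : hm (-1) 1 ∈ R := rwA_s g w' _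
  have hb : ∀ b, hm 0 (g b) ∈ R := rwA_b g w' _
  have hx : ∀ i : Fin n, hm (w i) (g (xi k n ι i)) ∈ R := fun i => rwA_x g w' _ (Sum.inl i)
  have key : ∀ e : ℕ, ∀ b ∈ EI (xi k n ι) w e, hm (e : ℤ) (g b) ∈ R := by
    intro e b hb'
    unfold EI at hb'
    induction hb' using Submodule.span_induction with
    | mem y hy =>
      obtain ⟨α, hα, rfl⟩ := hy
      have h1 : ∀ s : Finset (Fin n), hm ((∑ i ∈ s, α i * w i : ℕ) : ℤ)
          (g (∏ i ∈ s, xi k n ι i ^ α i)) ∈ R := by
        classical
        intro s
        induction s using Finset.induction_on with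
        | empty =>
          rw [Finset.sum_empty, Finset.prod_empty]
          exact hb 1
        | insert a s ha ih =>
          rw [Finset.sum_insert ha, Finset.prod_insert ha, map_mul, map_pow]
          have h2 := R.mul_mem (R.pow_mem (hx a) (α a)) ih
          rw [hm_pow, hm_mul] at h2
          push_cast at h2 ⊢
          exact h2
      have h2 := R.mul_mem (R.pow_mem hs (∑ i, α i * w i - e)) (h1 Finset.univ)
      rw [hm_pow, hm_mul, one_pow, one_mul] at h2
      have h3 : (((∑ i, α i * w i - e : ℕ) : ℤ) * -1 + ((∑ i, α i * w i : ℕ) : ℤ)) = (e : ℤ) := by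
        omega
      rw [h3] at h2
      exact h2
    | zero =>
      rw [map_zero, hm_zero]
      exact R.zero_mem
    | add y z _ _ hy hz =>
      rw [map_add, hm_add]
      exact R.add_mem hy hz
    | smul c y _ hy =>
      have h1 := R.mul_mem (hb c) hy
      rw [hm_mul, zero_add, ← map_mul] at h1
      exact h1
  have heq : rG g hF = R := by
    apply le_antisymm
    · intro f hf
      rw [eq_sum_hm f]
      refine Subalgebra.sum_mem _ fun d _ => ?_
      obtain ⟨b, hb1, hb'⟩ := hf d
      rw [← hb']
      rcases le_or_gt 0 d with h | h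
      · have h1 := key d.toNat b hb1
        rwa [Int.toNat_of_nonneg h] at h1
      · have h1 := R.mul_mem (R.pow_mem hs d.natAbs) (hb b)
        rw [hm_pow, hm_mul, one_pow, one_mul] at h1
        have h2 : ((d.natAbs : ℤ) * -1 + 0) = d := by omega
        rwa [h2] at h1
    · change rwA g w' (X : Fin n ⊕ ι → B) ≤ _
      unfold rwA
      rw [Algebra.adjoin_le_iff]
      rintro f ((hf | ⟨b, rfl⟩) | ⟨i, rfl⟩)
      · rw [hf]; exact s_rG g hF
      · exact b_rG g hF b
      · rcases i with i | t
        · refine hm_mem_rG g hF ?_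
          rw [Int.toNat_natCast]
          have h1 := mono_mem (xi k n ι) w (d := w i) (Pi.single i 1) (by
            rw [Finset.sum_eq_single i]
            · simp
            · intro j _ hj
              rw [Pi.single_eq_of_ne hj, zero_mul]
            · intro h
              exact absurd (Finset.mem_univ i) h)
          have h2 : ∏ j, xi k n ι j ^ (Pi.single i 1 : Fin n → ℕ) j = X (Sum.inl i) := by
            rw [Finset.prod_eq_single i]
            · rw [Pi.single_eq_same, pow_one]; rfl
            · intro j _ hj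
              rw [Pi.single_eq_of_ne hj, pow_zero]
            · intro h
              exact absurd (Finset.mem_univ i) h
          rwa [h2] at h1
        · exact b_rG g hF (X (Sum.inr t))
  have hsm : Algebra.Smooth k (rG g hF) := by
    rw [heq]
    refine smooth_rwA g w' hinj ?_
    have h1 : (aeval (X : Fin n ⊕ ι → B) : B →ₐ[k] B) = AlgHom.id k B := aeval_X_left
    rw [h1]
    exact RingHom.Etale.of_bijective Function.bijective_id
  refine (good_iff g hF hinj).2 ⟨inferInstance, ?_⟩
  intro e η he he0 hη
  exact smooth_loc hsm _ (isUnit_hm hη)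

lemma one_ne_bot_xi (hw : ∃ i, 0 < w i) : EI (xi k n ι) w 1 ≠ ⊥ := by
  intro h
  obtain ⟨s, hs⟩ := hw
  have h1 := mono_mem (xi k n ι) w (d := 1) (fun _ => 1) (by
    have h2 := Finset.single_le_sum (f := fun i => 1 * w i) (fun i _ => Nat.zero_le _)
      (Finset.mem_univ s)
    omega)
  rw [h, Ideal.mem_bot, Finset.prod_eq_zero_iff] at h1
  obtain ⟨i, -, hi⟩ := h1
  rw [pow_one] at hi
  exact X_ne_zero _ hi

lemma x_mem_xi (i : Fin n) : (X (Sum.inl i) : MvPolynomial (Fin n ⊕ ι) k) ∈
    EI (xi k n ι) w (w i) := by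
  have h1 := mono_mem (xi k n ι) w (d := w i) (Pi.single i 1) (by
    rw [Finset.sum_eq_single i]
    · simp
    · intro j _ hj
      rw [Pi.single_eq_of_ne hj, zero_mul]
    · intro h
      exact absurd (Finset.mem_univ i) h)
  have h2 : ∏ j, xi k n ι j ^ (Pi.single i 1 : Fin n → ℕ) j = X (Sum.inl i) := by
    rw [Finset.prod_eq_single i]
    · rw [Pi.single_eq_same, pow_one]; rfl
    · intro j _ hj
      rw [Pi.single_eq_of_ne hj, pow_zero]
    · intro h
      exact absurd (Finset.mem_univ i) h
  rwa [h2] at h1

/-- Automorphisms which fix the first coordinates and move the others little. -/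
lemma diff_mem (σ : MvPolynomial (Fin n ⊕ ι) k →ₐ[k] MvPolynomial (Fin n ⊕ ι) k) (e : ℕ)
    (h1 : ∀ i, σ (X (Sum.inl i)) = X (Sum.inl i))
    (h2 : ∀ v, σ (X (Sum.inr v)) - X (Sum.inr v) ∈ EI (xi k n ι) w e)
    (d : ℕ) (b : MvPolynomial (Fin n ⊕ ι) k) (hb : b ∈ EI (xi k n ι) w d) :
    σ b - b ∈ EI (xi k n ι) w (d + e) := by
  have h3 : ∀ b, σ b - b ∈ EI (xi k n ι) w e := by
    intro b
    induction b using MvPolynomial.induction_on with
    | C a =>
      rw [← MvPolynomial.algebraMap_eq, AlgHom.commutes, sub_self]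
      exact Ideal.zero_mem _
    | add p q hp hq =>
      rw [map_add]
      have : σ p + σ q - (p + q) = (σ p - p) + (σ q - q) := by ring
      rw [this]
      exact Ideal.add_mem _ hp hq
    | mul_X p i hp =>
      have h4 : σ (X i) - X i ∈ EI (xi k n ι) w e := by
        rcases i with i | v
        · rw [h1, sub_self]; exact Ideal.zero_mem _
        · exact h2 v
      rw [map_mul]
      have : σ p * σ (X i) - p * X i = σ p * (σ (X i) - X i) + X i * (σ p - p) := by ring
      rw [this]
      exact Ideal.add_mem _ (Ideal.mul_mem_left _ _ h4) (Ideal.mul_mem_left _ _ hp)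
  have hb2 := hb
  unfold EI at hb2
  induction hb2 using Submodule.span_induction with
  | mem y hy =>
    obtain ⟨α, hα, rfl⟩ := hy
    have h4 : σ (∏ i, xi k n ι i ^ α i) = ∏ i, xi k n ι i ^ α i := by
      rw [map_prod]
      exact Finset.prod_congr rfl fun i _ => by rw [map_pow]; congr 1; exact h1 i
    rw [h4, sub_self]
    exact Ideal.zero_mem _
  | zero => rw [map_zero, sub_zero]; exact Ideal.zero_mem _
  | add y z hy hz ihy ihz =>
    rw [map_add]
    have : σ y + σ z - (y + z) = (σ y - y) + (σ z - z) := by ring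
    rw [this]
    exact Ideal.add_mem _ (ihy hy) (ihz hz)
  | smul c y hy ihy =>
    rw [smul_eq_mul, map_mul]
    have : σ c * σ y - c * y = σ c * (σ y - y) + y * (σ c - c) := by ring
    rw [this]
    exact Ideal.add_mem _ (Ideal.mul_mem_left _ _ (ihy hy)) (mul_mem_EI _ w hy (h3 c))

end good

end Q17.Res
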