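import Pool.Agent.Q17.Res.Step
import Pool.Agent.Q17.Res.Uni2

/-! Finite groups of scalars acting on affine spaces by weighted polynomials. -/

set_option autoImplicit false
set_option linter.unusedSectionVars false

open MvPolynomial Pool.Agent.H920R2 Pool.Agent.H519R3.RS Pool.Agent.H519R3.RE

universe u v

namespace Q17.Res

section good

variable {k : Type u} [Field k] {n : ℕ} (w : Fin n → ℕ)

/-- The weighted filtration of the polynomial ring is good. -/
theorem good_X : Good k (isFilt_EI (X : Fin n → MvPolynomial (Fin n) k) w) := by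
  let B := MvPolynomial (Fin n) k
  let L := FractionRing B
  let g : B →ₐ[k] L := IsScalarTower.toAlgHom k B L
  have hinj : Function.Injective g := IsFractionRing.injective B L
  let hF := isFilt_EI (X : Fin n → B) w
  let R := rwA g w (X : Fin n → B)
  have hs : hm (-1) 1 ∈ R := rwA_s g w _
  have hb : ∀ b, hm 0 (g b) ∈ R := rwA_b g w _
  have hx : ∀ i : Fin n, hm (w i) (g (X i)) ∈ R := fun i => rwA_x g w _ i
  have key : ∀ e : ℕ, ∀ b ∈ EI (X : Fin n → B) w e, hm (e : ℤ) (g b) ∈ R := by
    intro e b hb'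
    unfold EI at hb'
    induction hb' using Submodule.span_induction with
    | mem y hy =>
      obtain ⟨α, hα, rfl⟩ := hy
      have h1 : ∀ s : Finset (Fin n), hm ((∑ i ∈ s, α i * w i : ℕ) : ℤ)
          (g (∏ i ∈ s, X i ^ α i)) ∈ R := by
        classical
        intro s
        induction s using Finset.induction_on with
        | empty =>
          rw [Finset.sum_empty, Finset.prod_empty]
          exact hb 1
        | insert a s ha ih =>
          rw [Finset.sum_insert ha, Finset.prod_insert ha, map_mul, map_pow]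
          have h2 := R.mul_mem (R.pow_mem (hx a) (α a)) ih
          rw [hm_pow, hm_mul] at h2
          push_cast at h2 ⊢
          exact h2
      have h2 := R.mul_mem (R.pow_mem hs (∑ i, α i * w i - e)) (h1 Finset.univ)
      rw [hm_pow, hm_mul, one_pow, one_mul] at h2
      have h3 : (((∑ i, α i * w i - e : ℕ) : ℤ) * -1 + ((∑ i, α i * w i : ℕ) : ℤ)) = (e : ℤ) := by
        omega
      rw [h3] at h2
      exact h2
    | zero =>
      rw [map_zero, hm_zero]
      exact R.zero_mem
    | add y z _ _ hy hz =>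
      rw [map_add, hm_add]
      exact R.add_mem hy hz
    | smul c y _ hy =>
      have h1 := R.mul_mem (hb c) hy
      rw [hm_mul, zero_add, ← map_mul] at h1
      exact h1
  have heq : rG g hF = R := by
    apply le_antisymm
    · intro f hf
      rw [eq_sum_hm f]
      refine Subalgebra.sum_mem _ fun d _ => ?_
      obtain ⟨b, hb1, hb'⟩ := hf d
      rw [← hb']
      rcases le_or_gt 0 d with h | h
      · have h1 := key d.toNat b hb1
        rwa [Int.toNat_of_nonneg h] at h1
      · have h1 := R.mul_mem (R.pow_mem hs d.natAbs) (hb b)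
        rw [hm_pow, hm_mul, one_pow, one_mul] at h1
        have h2 : ((d.natAbs : ℤ) * -1 + 0) = d := by omega
        rwa [h2] at h1
    · change rwA g w (X : Fin n → B) ≤ _
      unfold rwA
      rw [Algebra.adjoin_le_iff]
      rintro f ((hf | ⟨b, rfl⟩) | ⟨i, rfl⟩)
      · rw [hf]; exact s_rG g hF
      · exact b_rG g hF b
      · refine hm_mem_rG g hF ?_
        rw [Int.toNat_natCast]
        have h1 := mono_mem (X : Fin n → B) w (d := w i) (Pi.single i 1) (by
          rw [Finset.sum_eq_single i]
          · simp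
          · intro j _ hj
            rw [Pi.single_eq_of_ne hj, zero_mul]
          · intro h
            exact absurd (Finset.mem_univ i) h)
        have h2 : ∏ j, (X j : B) ^ (Pi.single i 1 : Fin n → ℕ) j = X i := by
          rw [Finset.prod_eq_single i]
          · rw [Pi.single_eq_same, pow_one]
          · intro j _ hj
            rw [Pi.single_eq_of_ne hj, pow_zero]
          · intro h
            exact absurd (Finset.mem_univ i) h
        rwa [h2] at h1
  have hsm : Algebra.Smooth k (rG g hF) := by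
    rw [heq]
    refine smooth_rwA g w hinj ?_
    have h1 : (aeval (X : Fin n → B) : B →ₐ[k] B) = AlgHom.id k B := aeval_X_left
    rw [h1]
    exact RingHom.Etale.of_bijective Function.bijective_id
  refine (good_iff g hF hinj).2 ⟨inferInstance, ?_⟩
  intro e η he he0 hη
  exact smooth_loc hsm _ (isUnit_hm hη)

lemma X_mem (i : Fin n) : (X i : MvPolynomial (Fin n) k) ∈
    EI (X : Fin n → MvPolynomial (Fin n) k) w (w i) := by
  have h1 := mono_mem (X : Fin n → MvPolynomial (Fin n) k) w (d := w i) (Pi.single i 1) (by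
    rw [Finset.sum_eq_single i]
    · simp
    · intro j _ hj
      rw [Pi.single_eq_of_ne hj, zero_mul]
    · intro h
      exact absurd (Finset.mem_univ i) h)
  have h2 : ∏ j, (X j : MvPolynomial (Fin n) k) ^ (Pi.single i 1 : Fin n → ℕ) j = X i := by
    rw [Finset.prod_eq_single i]
    · rw [Pi.single_eq_same, pow_one]
    · intro j _ hj
      rw [Pi.single_eq_of_ne hj, pow_zero]
    · intro h
      exact absurd (Finset.mem_univ i) h
  rwa [h2] at h1

lemma one_ne_bot_X (hw : ∃ i, 0 < w i) : EI (X : Fin n → MvPolynomial (Fin n) k) w 1 ≠ ⊥ := by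
  intro h
  obtain ⟨s, hs⟩ := hw
  have h1 := EI_anti _ w hs (X_mem (k := k) w s)
  rw [h, Ideal.mem_bot] at h1
  exact X_ne_zero _ h1

lemma EI_le_prime_X (P : Ideal (MvPolynomial (Fin n) k)) (hP : P.IsPrime)
    (h : ∀ i, 0 < w i → X i ∈ P) : EI (X : Fin n → MvPolynomial (Fin n) k) w 1 ≤ P := by
  unfold EI
  rw [Ideal.span_le]
  rintro _ ⟨α, hα, rfl⟩
  obtain ⟨i, -, hi⟩ : ∃ i ∈ Finset.univ, α i * w i ≠ 0 := by
    by_contra hcon
    push Not at hcon
    rw [Finset.sum_eq_zero hcon] at hα
    omega
  have h1 : 0 < w i := Nat.pos_of_ne_zero (right_ne_zero_of_mul hi)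
  have h2 : α i ≠ 0 := left_ne_zero_of_mul hi
  change ∏ i, (X i : MvPolynomial (Fin n) k) ^ α i ∈ P
  refine (hP.prod_mem_iff).2 ⟨i, Finset.mem_univ i, ?_⟩
  exact Ideal.pow_mem_of_mem P (h i h1) _ (Nat.pos_of_ne_zero h2)

end good

section poly

variable {k : Type u} [Field k] {n : ℕ} (w : Fin n → ℕ) (l : ℕ)

/-- The weighted polynomials. -/
def WP (w : Fin n → ℕ) (l d : ℕ) (P : Polynomial (MvPolynomial (Fin n) k)) : Prop :=
  ∀ j, P.coeff j ∈ EI (X : Fin n → MvPolynomial (Fin n) k) w (d + j * l)

variable {w l}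

lemma WP.mul {d e : ℕ} {P Q : Polynomial (MvPolynomial (Fin n) k)} (hP : WP w l d P)
    (hQ : WP w l e Q) : WP w l (d + e) (P * Q) := by
  intro j
  rw [Polynomial.coeff_mul]
  refine Ideal.sum_mem _ fun ij hij => ?_
  rw [Finset.HasAntidiagonal.mem_antidiagonal] at hij
  have h1 := mul_mem_EI _ w (hP ij.1) (hQ ij.2)
  have h2 : d + ij.1 * l + (e + ij.2 * l) = d + e + j * l := by rw [← hij]; ring
  rwa [h2] at h1

lemma WP.add {d : ℕ} {P Q : Polynomial (MvPolynomial (Fin n) k)} (hP : WP w l d P)
    (hQ : WP w l d Q) : WP w l d (P + Q) := by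
  intro j
  rw [Polynomial.coeff_add]
  exact Ideal.add_mem _ (hP j) (hQ j)

lemma WP.anti {d e : ℕ} (h : d ≤ e) {P : Polynomial (MvPolynomial (Fin n) k)}
    (hP : WP w l e P) : WP w l d P := fun j => EI_anti _ w (by omega) (hP j)

lemma WP.C {d : ℕ} {b : MvPolynomial (Fin n) k}
    (hb : b ∈ EI (X : Fin n → MvPolynomial (Fin n) k) w d) : WP w l d (Polynomial.C b) := by
  intro j
  rw [Polynomial.coeff_C]
  split_ifs with h
  · rw [h, zero_mul, add_zero]; exact hb
  · exact Ideal.zero_mem _

lemma WP.pow {d : ℕ} {P : Polynomial (MvPolynomial (Fin n) k)} (hP : WP w l d P) (t : ℕ) :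
    WP w l (t * d) (P ^ t) := by
  induction t with
  | zero =>
    rw [pow_zero, zero_mul, ← Polynomial.C_1]
    refine WP.C ?_
    rw [EI_zero]; trivial
  | succ t ih =>
    rw [pow_succ, Nat.succ_mul]
    exact ih.mul hP

/-- The map to polynomials. -/
noncomputable def coa (f : Fin n → Polynomial (MvPolynomial (Fin n) k)) :
    MvPolynomial (Fin n) k →ₐ[k] Polynomial (MvPolynomial (Fin n) k) := aeval f

variable (f : Fin n → Polynomial (MvPolynomial (Fin n) k)) (hf : ∀ i, WP w l (w i) (f i))

include hf in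
lemma WP_coa0 (b : MvPolynomial (Fin n) k) : WP w l 0 (coa f b) := by
  induction b using MvPolynomial.induction_on with
  | C a =>
    have h1 : coa f (C a) = Polynomial.C (C a) := by
      rw [← MvPolynomial.algebraMap_eq, AlgHom.commutes]; rfl
    rw [h1]
    refine WP.C ?_
    rw [EI_zero]; trivial
  | add p q hp hq => rw [map_add]; exact hp.add hq
  | mul_X p i hp =>
    rw [map_mul]
    have h1 : coa f (X i) = f i := aeval_X _ _
    rw [h1]
    exact (hp.mul (hf i)).anti (by omega)

include hf in
lemma WP_coa (d : ℕ) (b : MvPolynomial (Fin n) k)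
    (hb : b ∈ EI (X : Fin n → MvPolynomial (Fin n) k) w d) : WP w l d (coa f b) := by
  unfold EI at hb
  induction hb using Submodule.span_induction with
  | mem y hy =>
    obtain ⟨α, hα, rfl⟩ := hy
    have h1 : ∀ s : Finset (Fin n), WP w l (∑ i ∈ s, α i * w i)
        (coa f (∏ i ∈ s, X i ^ α i)) := by
      classical
      intro s
      induction s using Finset.induction_on with
      | empty =>
        rw [Finset.sum_empty, Finset.prod_empty]
        exact WP_coa0 f hf 1
      | insert a s ha ih =>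
        rw [Finset.sum_insert ha, Finset.prod_insert ha, map_mul, map_pow]
        have h2 : coa f (X a) = f a := aeval_X _ _
        rw [h2]
        exact ((hf a).pow (α a)).mul ih
    exact (h1 Finset.univ).anti hα
  | zero => rw [map_zero]; intro j; rw [Polynomial.coeff_zero]; exact Ideal.zero_mem _
  | add y z _ _ hy hz => rw [map_add]; exact hy.add hz
  | smul c y _ hy =>
    rw [smul_eq_mul, map_mul]
    have := (WP_coa0 f hf c).mul hy
    rwa [zero_add] at this

end poly

section lead

variable {k : Type u} [Field k] {n : ℕ} (w : Fin n → ℕ) (l : ℕ)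
  (g : Fin n → MvPolynomial (Fin n) k) (hg : ∀ i, IsWeightedHomogeneous w (g i) (w i + l))
  (hl : 0 < l)
  (hg0 : ∀ (K : Type u) [Field K] [Algebra k K] (z : Fin n → K),
    (∀ i, aeval z (g i) = 0) → ∀ i, 0 < w i → z i = 0)

include hg0 in
lemma rad_g (c : Fin n → ℕ) (s : Fin n) (hs : 0 < w s) : (X s : MvPolynomial (Fin n) k) ∈
    (Ideal.span (Set.range fun t => g t ^ c t)).radical := by
  rw [Ideal.radical_eq_sInf, Ideal.mem_sInf]
  rintro P ⟨hle, hP⟩
  have h0 : ∀ t, g t ∈ P := fun t =>
    hP.mem_of_pow_mem (c t) (hle (Ideal.subset_span ⟨t, rfl⟩))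
  have h1 := hg0 P.ResidueField
    (fun i => algebraMap (MvPolynomial (Fin n) k) P.ResidueField (X i)) (by
      intro t
      have h2 : aeval (fun i => algebraMap (MvPolynomial (Fin n) k) P.ResidueField (X i)) (g t) =
          algebraMap (MvPolynomial (Fin n) k) P.ResidueField (g t) := by
        have h3 : (aeval (fun i => algebraMap (MvPolynomial (Fin n) k) P.ResidueField (X i)) :
            MvPolynomial (Fin n) k →ₐ[k] P.ResidueField) =
            (IsScalarTower.toAlgHom k (MvPolynomial (Fin n) k) P.ResidueField) := by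
          apply MvPolynomial.algHom_ext
          intro i
          rw [aeval_X]
          rfl
        rw [h3]
        rfl
      rw [h2, Ideal.algebraMap_residueField_eq_zero]
      exact h0 t) s hs
  rwa [Ideal.algebraMap_residueField_eq_zero] at h1

include hg hg0 hl in
/-- The leading forms generate up to radical. -/
lemma lead_g (δ : MvPolynomial (Fin n) k → MvPolynomial (Fin n) k) (c : k) (hc : c ≠ 0)
    (hδ : ∀ i, δ (X i) - c • g i ∈ EI (X : Fin n → MvPolynomial (Fin n) k) w (w i + l + 1))
    (d : ℕ) (hd : 1 ≤ d) (b : MvPolynomial (Fin n) k)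
    (hb : b ∈ EI (X : Fin n → MvPolynomial (Fin n) k) w d) :
    ∃ N : ℕ, b ^ N ∈ leadI δ (EI (X : Fin n → MvPolynomial (Fin n) k) w) l (N * d) := by
  classical
  let W := ∏ i, (w i + l)
  have hdvd : ∀ i, (w i + l) ∣ W := fun i => Finset.dvd_prod_of_mem _ (Finset.mem_univ i)
  choose e he using hdvd
  have hWpos : 0 < W := Finset.prod_pos fun i _ => by omega
  have hepos : ∀ i, 0 < e i := fun i => by
    rcases Nat.eq_zero_or_pos (e i) with h | h
    · have h1 := he i
      rw [h, mul_zero] at h1
      omega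
    · exact h
  obtain ⟨M0, hM0⟩ := large_comb w (fun t => g t ^ e t) W (fun t => by
    have h1 := (hg t).pow (e t)
    rw [smul_eq_mul, mul_comm, ← he t] at h1
    exact h1) (fun s hs => rad_g w g hg0 e s hs)
  let M := M0 + W
  refine ⟨M, ?_⟩
  have h1 : b ^ M ∈ EI (X : Fin n → MvPolynomial (Fin n) k) w (M * d) := pow_mem_EI _ w hb M
  have h2 : M ≤ M * d := Nat.le_mul_of_pos_right _ hd
  have h3 := hM0 (M * d) (by omega) _ h1
  refine (Ideal.span_le.2 ?_ : Ideal.span _ ≤ _) h3
  rintro _ ⟨j, h, hh, rfl⟩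
  change h * g j ^ e j ∈ _
  have h4 : g j ^ e j = g j ^ (e j - 1) * g j := by
    rw [← pow_succ]
    congr 1
    have := hepos j
    omega
  let b' := h * g j ^ (e j - 1)
  have hb' : b' ∈ EI (X : Fin n → MvPolynomial (Fin n) k) w (M * d - (w j + l)) := by
    have h5 := mul_mem_EI _ w hh (pow_mem_EI _ w (hom_mem_EI w (hg j)) (e j - 1))
    refine EI_anti _ w ?_ h5
    have h6 : (e j - 1) * (w j + l) + (w j + l) = W := by
      have h7 := he j
      have h8 := hepos j
      obtain ⟨e', he'⟩ : ∃ e', e j = e' + 1 := ⟨e j - 1, by omega⟩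
      rw [he', Nat.add_sub_cancel, h7, he']
      ring
    omega
  have h5 : h * g j ^ e j = c⁻¹ • (b' * δ (X j)) - c⁻¹ • (b' * (δ (X j) - c • g j)) := by
    rw [h4, ← smul_sub, mul_sub, sub_sub_cancel, mul_smul_comm, smul_smul, inv_mul_cancel₀ hc,
      one_smul]
    ring
  rw [h5]
  refine Submodule.sub_mem _ ?_ ?_
  · rw [Algebra.smul_def]
    refine Ideal.mul_mem_left _ _ (Ideal.mem_sup_right (Ideal.subset_span ?_))
    exact ⟨w j, X j, X_mem w j, b', hb', rfl⟩
  · rw [Algebra.smul_def]
    refine Ideal.mul_mem_left _ _ (Ideal.mem_sup_left ?_)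
    refine EI_anti _ w ?_ (mul_mem_EI _ w hb' (hδ j))
    have h6 : (w j + l) ≤ W := Nat.le_of_dvd hWpos ⟨e j, he j⟩
    omega

end lead

section main

variable {k : Type u} [Field k] {n : ℕ} (w : Fin n → ℕ) (l : ℕ) (hl : 0 < l)
  (A : AddSubgroup k) [Finite A]
  (σ : A → (MvPolynomial (Fin n) k →ₐ[k] MvPolynomial (Fin n) k))
  (h0 : ∀ x, σ 0 x = x) (hadd : ∀ a b x, σ a (σ b x) = σ (a + b) x)
  (f : Fin n → Polynomial (MvPolynomial (Fin n) k))
  (hσf : ∀ a i, σ a (X i) = (f i).eval (C (a : k)))
  (hf : ∀ i, WP w l (w i) (f i))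
  (g : Fin n → MvPolynomial (Fin n) k) (hg : ∀ i, IsWeightedHomogeneous w (g i) (w i + l))
  (hfg : ∀ i, (f i).coeff 1 - g i ∈ EI (X : Fin n → MvPolynomial (Fin n) k) w (w i + l + 1))
  (hg0 : ∀ (K : Type u) [Field K] [Algebra k K] (z : Fin n → K),
    (∀ i, aeval z (g i) = 0) → ∀ i, 0 < w i → z i = 0)
  (hfix : ∀ a : A, a ≠ 0 → ∀ (K : Type u) [Field K] [Algebra k K] (z : Fin n → K),
    (∀ i, aeval z (σ a (X i)) = z i) → ∀ i, 0 < w i → z i = 0)
  {p : ℕ} (hp : p.Prime) (hpk : (p : k) = 0)

include h0 hadd hσf hf in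
lemma isPA : IsPA A σ (EI (X : Fin n → MvPolynomial (Fin n) k) w) l where
  zero := h0
  add := hadd
  pol := fun d b hb => by
    refine ⟨coa f b, WP_coa f hf d b hb, fun a => ?_⟩
    have h1 : ((Polynomial.aeval (algebraMap k (MvPolynomial (Fin n) k) a) :
        Polynomial (MvPolynomial (Fin n) k) →ₐ[MvPolynomial (Fin n) k]
        MvPolynomial (Fin n) k).restrictScalars k).comp (coa f) = σ a := by
      apply MvPolynomial.algHom_ext
      intro i
      rw [AlgHom.comp_apply, hσf]
      have h2 : coa f (X i) = f i := aeval_X _ _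
      rw [h2]
      change Polynomial.aeval (algebraMap k (MvPolynomial (Fin n) k) a) (f i) = _
      rw [Polynomial.coe_aeval_eq_eval]
      rfl
    have h2 := congrArg (fun τ : MvPolynomial (Fin n) k →ₐ[k] MvPolynomial (Fin n) k => τ b) h1
    change Polynomial.aeval (algebraMap k (MvPolynomial (Fin n) k) a) (coa f b) = σ a b at h2
    rw [Polynomial.coe_aeval_eq_eval] at h2
    exact h2

include hl h0 hadd hσf hf hg hfg hg0 hfix hp hpk in
/-- The quotient of an affine space by a finite group of scalars. -/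
theorem goodA (hA : ∃ a : A, a ≠ 0) (hw : ∃ i, 0 < w i) :
    Good k (isFilt_restr (isFilt_EI (X : Fin n → MvPolynomial (Fin n) k) w) (iv σ ⊤)) ∧
      restr (EI (X : Fin n → MvPolynomial (Fin n) k) w) (iv σ ⊤) 1 ≠ ⊥ := by
  obtain ⟨a₀, ha₀⟩ := hA
  have hF := isFilt_EI (X : Fin n → MvPolynomial (Fin n) k) w
  have hPA := isPA w l A σ h0 hadd f hσf hf
  have ha0 : (a₀ : k) ≠ 0 := fun h => ha₀ (Subtype.ext h)
  refine good_inv hPA hF hl a₀ ha₀ ?_ hp hpk (good_X w) (one_ne_bot_X w hw) ?_
  · intro d hd b hb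
    refine lead_g w l g hg hl hg0 (fun c => σ a₀ c - c) (a₀ : k) ha0 ?_ d hd b hb
    intro i
    have h1 : (f i).coeff 0 = X i := by
      have h2 := hσf 0 i
      rw [h0, ZeroMemClass.coe_zero, C_0, ← Polynomial.coeff_zero_eq_eval_zero] at h2
      exact h2.symm
    have h2 := val_sub hF (hf i) h1 (a₀ : k)
    have h3 : σ a₀ (X i) - X i - (a₀ : k) • g i =
        ((f i).eval (algebraMap k (MvPolynomial (Fin n) k) a₀) - X i -
          (a₀ : k) • (f i).coeff 1) + C (a₀ : k) * ((f i).coeff 1 - g i) := by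
      rw [hσf, ← MvPolynomial.algebraMap_eq, mul_sub, ← Algebra.smul_def, ← Algebra.smul_def]
      ring
    change σ a₀ (X i) - X i - (a₀ : k) • g i ∈ _
    rw [h3]
    refine Ideal.add_mem _ (EI_anti _ w (by omega) h2) (Ideal.mul_mem_left _ _ (hfg i))
  · intro a ha P hP h
    refine EI_le_prime_X w P hP ?_
    intro s hs
    have h1 := hfix a ha P.ResidueField
      (fun i => algebraMap (MvPolynomial (Fin n) k) P.ResidueField (X i)) (by
        intro i
        have h2 : ∀ y, aeval (fun i => algebraMap (MvPolynomial (Fin n) k) P.ResidueField (X i)) y =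
            algebraMap (MvPolynomial (Fin n) k) P.ResidueField y := by
          intro y
          have h3 : (aeval (fun i => algebraMap (MvPolynomial (Fin n) k) P.ResidueField (X i)) :
              MvPolynomial (Fin n) k →ₐ[k] P.ResidueField) =
              (IsScalarTower.toAlgHom k (MvPolynomial (Fin n) k) P.ResidueField) := by
            apply MvPolynomial.algHom_ext
            intro i
            rw [aeval_X]
            rfl
          rw [h3]
          rfl
        rw [h2, ← sub_eq_zero, ← map_sub, Ideal.algebraMap_residueField_eq_zero]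
        exact h (X i)) s hs
    rwa [Ideal.algebraMap_residueField_eq_zero] at h1

end main

end Q17.Res
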