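import Pool.Agent.Q17.Res.Lead
import Pool.Agent.H519R3.RS.DStep

/-! Foliations of arbitrary rank: dual frames. -/

set_option autoImplicit false
set_option linter.unusedSectionVars false

open Pool.Agent.H920R2 Pool.Agent.H519R3.RS Pool.Agent.Y177.Ga

universe u v

namespace Q17.Res

section frame

variable {k L : Type u} [Field k] [Field L] [Algebra k L] {n : ℕ}

/-- The span of the derivations `E i`. -/
def Sp (E : Fin n → Derivation k L L) : Submodule L (Derivation k L L) :=
  Submodule.span L (Set.range E)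

lemma mem_Sp {E : Fin n → Derivation k L L} {D : Derivation k L L} :
    D ∈ Sp E ↔ ∃ u : Fin n → L, ∑ i, u i • E i = D := by
  unfold Sp
  rw [Submodule.mem_span_range_iff_exists_fun]

/-- The span is closed under commutators and `p`-th powers. -/
structure PC (p : ℕ) (S : Submodule L (Derivation k L L)) : Prop where
  br : ∀ D ∈ S, ∀ D' ∈ S, ⁅D, D'⁆ ∈ S
  pw : ∀ D ∈ S, ∃ D' ∈ S, ∀ x, D' x = D^[p] x

/-- Evaluation of a linear combination of derivations. -/
lemma sum_apply (u : Fin n → L) (E : Fin n → Derivation k L L) (x : L) :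
    (∑ i, u i • E i) x = ∑ i, u i * E i x := by
  have key : ∀ s : Finset (Fin n), (∑ i ∈ s, u i • E i) x = ∑ i ∈ s, u i * E i x := by
    intro s
    classical
    induction s using Finset.induction_on with
    | empty => rfl
    | insert d s hd ih =>
      rw [Finset.sum_insert hd, Finset.sum_insert hd, ← ih]
      rfl
  exact key _

variable {E : Fin n → Derivation k L L} {ξ : Fin n → L}
  (hdet : (Matrix.of fun i j => E i (ξ j)).det ≠ 0)

include hdet in
/-- An element of the span which vanishes on the `ξ j` is zero. -/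
lemma eq_zero_of_Sp {D : Derivation k L L} (hD : D ∈ Sp E) (h0 : ∀ j, D (ξ j) = 0) : D = 0 := by
  obtain ⟨u, rfl⟩ := mem_Sp.1 hD
  have h1 : Matrix.vecMul u (Matrix.of fun i j => E i (ξ j)) = 0 := by
    ext j
    rw [Matrix.vecMul, dotProduct, Pi.zero_apply]
    have h2 := h0 j
    rw [sum_apply] at h2
    exact h2
  have h2 : u = 0 := by
    by_contra hu
    exact hdet (Matrix.exists_vecMul_eq_zero_iff.1 ⟨u, hu, h1⟩)
  rw [h2]
  simp

/-- The dual frame. -/
noncomputable def fr (E : Fin n → Derivation k L L) (ξ : Fin n → L) (a : Fin n) :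
    Derivation k L L := ∑ i, (Matrix.of fun i j => E i (ξ j))⁻¹ a i • E i

lemma fr_mem (a : Fin n) : fr E ξ a ∈ Sp E := mem_Sp.2 ⟨_, rfl⟩

include hdet in
lemma fr_apply (a j : Fin n) : fr E ξ a (ξ j) = if a = j then 1 else 0 := by
  unfold fr
  rw [sum_apply]
  have h1 := congrFun (congrFun (Matrix.nonsing_inv_mul (Matrix.of fun i j => E i (ξ j))
    (isUnit_iff_ne_zero.2 hdet)) a) j
  rw [Matrix.mul_apply, Matrix.one_apply] at h1
  exact h1

include hdet in
lemma fr_comm {p : ℕ} (hpc : PC p (Sp E)) (a b : Fin n) (x : L) :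
    fr E ξ a (fr E ξ b x) = fr E ξ b (fr E ξ a x) := by
  have h1 : ⁅fr E ξ a, fr E ξ b⁆ = 0 := by
    refine eq_zero_of_Sp hdet (hpc.br _ (fr_mem a) _ (fr_mem b)) fun j => ?_
    rw [Derivation.commutator_apply, fr_apply hdet, fr_apply hdet]
    have h2 : ∀ (D : Derivation k L L) (i j : Fin n), D (if i = j then 1 else 0) = 0 := by
      intro D i j
      split_ifs
      · exact D.map_one_eq_zero
      · exact map_zero D
    rw [h2, h2, sub_zero]
  have h2 := congrArg (fun D : Derivation k L L => D x) h1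
  rw [Derivation.commutator_apply, Derivation.zero_apply, sub_eq_zero] at h2
  exact h2

include hdet in
lemma fr_pow {p : ℕ} (hp : p.Prime) (hpc : PC p (Sp E)) (a : Fin n) (x : L) :
    (fr E ξ a)^[p] x = 0 := by
  obtain ⟨D', h1, h2⟩ := hpc.pw _ (fr_mem (E := E) (ξ := ξ) a)
  have h3 : D' = 0 := by
    refine eq_zero_of_Sp hdet h1 fun j => ?_
    rw [h2]
    obtain ⟨q, hq⟩ : ∃ q, p = q + 2 := ⟨p - 2, by have := hp.two_le; omega⟩
    rw [hq, Function.iterate_add_apply]
    have h4 : (fr E ξ a)^[2] (ξ j) = 0 := by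
      change fr E ξ a (fr E ξ a (ξ j)) = 0
      rw [fr_apply hdet]
      split_ifs
      · exact Derivation.map_one_eq_zero _
      · exact map_zero _
    rw [h4]
    exact Pool.Agent.H920R2.iter_zero _ q
  rw [← h2, h3, Derivation.zero_apply]

/-- The shifted derivation of the Laurent polynomials. -/
noncomputable def sh (D : Derivation k L L) (e : ℤ) : Derivation k (LP L) (LP L) :=
  (hm e (1 : L) : LP L) • tlD D 0

lemma sh_apply (D : Derivation k L L) (e : ℤ) (f : LP L) :
    sh D e f = hm e 1 * tlD D 0 f := rfl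

lemma sh_hm (D : Derivation k L L) (e : ℤ) (d : ℤ) (a : L) :
    sh D e (hm d a) = hm (d + e) (D a) := by
  rw [sh_apply, tlD_hm, hm_mul, one_mul, Nat.cast_zero, add_zero, add_comm]

lemma sh_iter (D : Derivation k L L) (e : ℤ) (n : ℕ) (d : ℤ) (a : L) :
    (sh D e)^[n] (hm d a) = hm (d + n * e) (D^[n] a) := by
  induction n generalizing d a with
  | zero => simp
  | succ n ih =>
    rw [Function.iterate_succ_apply, sh_hm, ih, Function.iterate_succ_apply]
    congr 1
    push_cast
    ring

/-- Additive maps which agree on homogeneous elements. -/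
lemma ext_hm (φ ψ : LP L → LP L) (h1 : ∀ x y, φ (x + y) = φ x + φ y)
    (h2 : ∀ x y, ψ (x + y) = ψ x + ψ y) (h0 : φ 0 = 0) (h0' : ψ 0 = 0)
    (h : ∀ d a, φ (hm d a) = ψ (hm d a)) (f : LP L) : φ f = ψ f := by
  classical
  have key : ∀ s : Finset ℤ, φ (∑ d ∈ s, hm d (f.coeff d)) = ψ (∑ d ∈ s, hm d (f.coeff d)) := by
    intro s
    induction s using Finset.induction_on with
    | empty => rw [Finset.sum_empty, h0, h0']
    | insert d s hd ih => rw [Finset.sum_insert hd, h1, h2, ih, h]
  rw [eq_sum_hm f]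
  exact key _

lemma sh_pow {D : Derivation k L L} (e : ℤ) {p : ℕ} (h : ∀ x, D^[p] x = 0) (f : LP L) :
    (sh D e)^[p] f = 0 := by
  refine ext_hm (fun f => (sh D e)^[p] f) (fun _ => 0) (fun x y => iter_add _ _ _ _)
    (fun _ _ => (add_zero _).symm) (Pool.Agent.H920R2.iter_zero _ _) rfl (fun d a => ?_) f
  rw [sh_iter, h, hm_zero]

lemma sh_comm {D D' : Derivation k L L} (e e' : ℤ) (h : ∀ x, D (D' x) = D' (D x)) (f : LP L) :
    sh D e (sh D' e' f) = sh D' e' (sh D e f) := by
  refine ext_hm (fun f => sh D e (sh D' e' f)) (fun f => sh D' e' (sh D e f))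
    (fun x y => by rw [map_add, map_add]) (fun x y => by rw [map_add, map_add])
    (by rw [map_zero, map_zero]) (by rw [map_zero, map_zero]) (fun d a => ?_) f
  rw [sh_hm, sh_hm, sh_hm, sh_hm, h]
  congr 1
  ring

lemma sh_zero_iff {D : Derivation k L L} {e : ℤ} {f : LP L} :
    sh D e f = 0 ↔ tlD D 0 f = 0 := by
  rw [sh_apply]
  constructor
  · intro h
    have h2 : hm (-e) 1 * (hm e 1 * tlD D 0 f) = 0 := by rw [h, mul_zero]
    rwa [← mul_assoc, hm_mul, neg_add_cancel, one_mul, hm_one, one_mul] at h2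
  · intro h
    rw [h, mul_zero]

lemma tlD_zero_iff {D : Derivation k L L} {f : LP L} :
    tlD D 0 f = 0 ↔ ∀ d, D (f.coeff d) = 0 := by
  constructor
  · intro h d
    have h1 := gr_kerAlg D 0 f h d
    rwa [mem_ker_hm] at h1
  · intro h
    have h1 : tlD D 0 f = ∑ d ∈ f.coeff.support, tlD D 0 (hm d (f.coeff d)) := by
      rw [← map_sum, ← eq_sum_hm f]
    rw [h1]
    refine Finset.sum_eq_zero fun d _ => ?_
    rw [tlD_hm, h, hm_zero]

/-- The constants of a space of derivations in the Laurent polynomials. -/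
noncomputable def KS (S : Submodule L (Derivation k L L)) : Subalgebra k (LP L) where
  carrier := {f | ∀ D ∈ S, tlD D 0 f = 0}
  mul_mem' := by
    intro a b ha hb D hD
    rw [Derivation.leibniz, ha D hD, hb D hD, smul_zero, smul_zero, add_zero]
  add_mem' := by
    intro a b ha hb D hD
    rw [map_add, ha D hD, hb D hD, add_zero]
  algebraMap_mem' := fun a D _ => (tlD D 0).map_algebraMap a

lemma mem_KS {S : Submodule L (Derivation k L L)} {f : LP L} :
    f ∈ KS S ↔ ∀ D ∈ S, ∀ d, D (f.coeff d) = 0 := by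
  constructor
  · intro h D hD
    exact tlD_zero_iff.1 (h D hD)
  · intro h D hD
    exact tlD_zero_iff.2 (h D hD)

lemma hm_mem_KS {S : Submodule L (Derivation k L L)} {d : ℤ} {a : L} :
    hm d a ∈ KS S ↔ ∀ D ∈ S, D a = 0 := by
  rw [mem_KS]
  constructor
  · intro h D hD
    have h1 := h D hD d
    rwa [coeff_hm_same] at h1
  · intro h D hD e
    rw [coeff_hm]
    split_ifs
    · exact h D hD
    · exact map_zero D

lemma KS_inv {S : Submodule L (Derivation k L L)} {d : ℤ} {a : L} (h : hm d a ∈ KS S) :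
    hm (-d) a⁻¹ ∈ KS S := by
  rw [hm_mem_KS] at h ⊢
  intro D hD
  rw [Derivation.leibniz_inv, h D hD, smul_zero]

lemma gr_KS (S : Submodule L (Derivation k L L)) : Gr (KS S) := by
  intro f hf d
  rw [hm_mem_KS]
  intro D hD
  exact mem_KS.1 hf D hD d

lemma KS_pow {S : Submodule L (Derivation k L L)} {p : ℕ} (hpk : (p : k) = 0) (f : LP L) :
    f ^ p ∈ KS S := by
  intro D _
  have hpL : ((p : ℕ) : LP L) = 0 := by
    rw [← map_natCast (algebraMap k (LP L)), hpk, map_zero]
  rw [Derivation.leibniz_pow, nsmul_eq_mul, hpL, zero_mul]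

include hdet in
/-- The original fields are combinations of the dual frame. -/
lemma eq_sum_fr (i : Fin n) : E i = ∑ a, (E i (ξ a)) • fr E ξ a := by
  have h1 := Matrix.mul_nonsing_inv (Matrix.of fun i j => E i (ξ j))
    (isUnit_iff_ne_zero.2 hdet)
  ext x
  rw [sum_apply]
  unfold fr
  simp_rw [sum_apply, Finset.mul_sum]
  rw [Finset.sum_comm]
  simp_rw [← mul_assoc, ← Finset.sum_mul]
  have h2 : ∀ j, ∑ a, E i (ξ a) * (Matrix.of fun i j => E i (ξ j))⁻¹ a j =
      if i = j then 1 else 0 := by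
    intro j
    have h3 := congrFun (congrFun h1 i) j
    rw [Matrix.mul_apply, Matrix.one_apply] at h3
    exact h3
  simp_rw [h2]
  rw [Finset.sum_eq_single i]
  · rw [if_pos rfl, one_mul]
  · intro j _ hj
    rw [if_neg (Ne.symm hj), zero_mul]
  · intro h
    exact absurd (Finset.mem_univ i) h

include hdet in
lemma mem_KS_fr (e : Fin n → ℤ) {f : LP L} :
    f ∈ KS (Sp E) ↔ ∀ a, sh (fr E ξ a) (e a) f = 0 := by
  constructor
  · intro h a
    rw [sh_zero_iff]
    exact h _ (fr_mem a)
  · intro h D hD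
    rw [tlD_zero_iff]
    intro d
    obtain ⟨u, rfl⟩ := mem_Sp.1 hD
    have h1 : ∀ a, fr E ξ a (f.coeff d) = 0 := fun a => tlD_zero_iff.1 (sh_zero_iff.1 (h a)) d
    rw [sum_apply]
    refine Finset.sum_eq_zero fun i _ => ?_
    rw [eq_sum_fr hdet i, sum_apply]
    rw [Finset.sum_eq_zero, mul_zero]
    intro a _
    rw [h1, mul_zero]

end frame

end Q17.Res
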