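import Pool.Agent.Q17.Res.Fol1

/-! Foliations of arbitrary rank: smoothness of the constants where a minor is invertible. -/

set_option autoImplicit false
set_option linter.unusedSectionVars false

open Pool.Agent.H920R2 Pool.Agent.H519R3.RS Pool.Agent.Y177.Ga

universe u v

namespace Q17.Res

section iterate

variable {k : Type u} {Λ : Type v} [Field k] [CommRing Λ] [IsDomain Λ] [Algebra k Λ] {n : ℕ}
  (δ : Fin n → Derivation k Λ Λ)

/-- The common constants of the derivations with indices in `s`. -/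
noncomputable def KF (s : Finset (Fin n)) : Subalgebra k Λ where
  carrier := {f | ∀ a ∈ s, δ a f = 0}
  mul_mem' := by
    intro x y hx hy a ha
    rw [Derivation.leibniz, hx a ha, hy a ha, smul_zero, smul_zero, add_zero]
  add_mem' := by
    intro x y hx hy a ha
    rw [map_add, hx a ha, hy a ha, add_zero]
  algebraMap_mem' := fun x a _ => (δ a).map_algebraMap x

/-- The common constants of commuting nilpotent derivations with coordinates are smooth. -/
theorem smooth_KF {p : ℕ} (hp : p.Prime) (hpk : (p : k) = 0) (hpow : ∀ a x, (δ a)^[p] x = 0)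
    (hcomm : ∀ a b x, δ a (δ b x) = δ b (δ a x)) (x : Fin n → Λ)
    (hx : ∀ a b, δ a (x b) = if a = b then 1 else 0) (R : Subalgebra k Λ)
    (hxR : ∀ a, x a ∈ R) (hR : ∀ a, ∀ f ∈ R, δ a f ∈ R) (hsm : Algebra.Smooth k R)
    (s : Finset (Fin n)) : Algebra.Smooth k ↥(R ⊓ KF δ s) := by
  classical
  induction s using Finset.induction_on with
  | empty =>
    have h1 : R ⊓ KF δ ∅ = R := by
      apply le_antisymm inf_le_left
      intro f hf
      exact ⟨hf, fun a ha => absurd ha (Finset.notMem_empty a)⟩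
    have key : ∀ R1 : Subalgebra k Λ, R1 = R → Algebra.Smooth k R1 := by
      rintro R1 rfl
      exact hsm
    exact key _ h1
  | insert a s ha ih =>
    have h1 : R ⊓ KF δ (insert a s) = (R ⊓ KF δ s) ⊓ kerAlg (δ a) := by
      ext f
      constructor
      · rintro ⟨h2, h3⟩
        exact ⟨⟨h2, fun b hb => h3 b (Finset.mem_insert_of_mem hb)⟩,
          h3 a (Finset.mem_insert_self _ _)⟩
      · rintro ⟨⟨h2, h3⟩, h4⟩
        refine ⟨h2, fun b hb => ?_⟩
        rcases Finset.mem_insert.1 hb with rfl | hb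
        · exact h4
        · exact h3 b hb
    have key : ∀ R1 : Subalgebra k Λ, R1 = (R ⊓ KF δ s) ⊓ kerAlg (δ a) →
        Algebra.Smooth k R1 := by
      rintro R1 rfl
      refine smooth_ker (δ a) hp hpk 0 (fun y => by rw [hpow, zero_mul]) (x a) 1 1
        (by rw [hx, if_pos rfl]) (one_mul 1) (R ⊓ KF δ s) ⟨hxR a, fun b hb => ?_⟩ ?_
        (Subalgebra.one_mem _) ih
      · rw [hx, if_neg]
        rintro rfl
        exact ha hb
      · rintro f ⟨hf, hf'⟩
        refine ⟨hR a f hf, fun b hb => ?_⟩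
        rw [hcomm, hf' b hb, map_zero]
    exact key _ h1

end iterate

section smooth

variable {k L : Type u} [Field k] [Field L] [Algebra k L] {n : ℕ}
  {E : Fin n → Derivation k L L} {ξ : Fin n → L}
  (hdet : (Matrix.of fun i j => E i (ξ j)).det ≠ 0)

/-- The sum of the shifted derivations. -/
lemma sh_sum (E : Fin n → Derivation k L L) (c : Fin n → L) (e : ℤ) (l : Fin n → ℤ) (f : LP L) :
    sh (∑ i, c i • E i) (-e) f = ∑ i, hm (-e - l i) (c i) * sh (E i) (l i) f := by
  refine ext_hm (fun f => sh (∑ i, c i • E i) (-e) f)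
    (fun f => ∑ i, hm (-e - l i) (c i) * sh (E i) (l i) f) (fun x y => map_add _ x y)
    (fun x y => ?_) (map_zero _) ?_ (fun d b => ?_) f
  · simp_rw [map_add, mul_add]
    rw [Finset.sum_add_distrib]
  · simp_rw [map_zero, mul_zero]
    rw [Finset.sum_const_zero]
  · rw [sh_hm]
    have h1 : ∀ i, hm (-e - l i) (c i) * sh (E i) (l i) (hm d b) =
        hm (d + -e) (c i * E i b) := by
      intro i
      rw [sh_hm, hm_mul]
      congr 1
      ring
    simp_rw [h1]
    rw [sum_apply, hm_sum]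

lemma sh_fr (e l : Fin n → ℤ) (a : Fin n) (f : LP L) :
    sh (fr E ξ a) (-e a) f = ∑ i, hm (-e a - l i) ((Matrix.of fun i j => E i (ξ j))⁻¹ a i) *
      sh (E i) (l i) f := sh_sum E _ (e a) l f

include hdet in
/-- The inverse of the matrix of the derivatives of homogeneous elements. -/
lemma inv_mem (e l : Fin n → ℤ) (R : Subalgebra k (LP L))
    (hM : ∀ i j, hm (e j + l i) (E i (ξ j)) ∈ R)
    (D' : LP L) (hD' : D' ∈ R)
    (hD : (Matrix.of fun i j => (hm (e j + l i) (E i (ξ j)) : LP L)).det * D' = 1) (a i : Fin n) :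
    (hm (-e a - l i) ((Matrix.of fun i j => E i (ξ j))⁻¹ a i) : LP L) ∈ R := by
  classical
  let M : Matrix (Fin n) (Fin n) (LP L) := Matrix.of fun i j => (hm (e j + l i) (E i (ξ j)) : LP L)
  let N : Matrix (Fin n) (Fin n) (LP L) := Matrix.of fun a i =>
    (hm (-e a - l i) ((Matrix.of fun i j => E i (ξ j))⁻¹ a i) : LP L)
  have h1 : N * M = 1 := by
    ext1 a b
    rw [Matrix.mul_apply]
    have h2 : ∀ i, N a i * M i b =
        hm (e b - e a) ((Matrix.of fun i j => E i (ξ j))⁻¹ a i * E i (ξ b)) := by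
      intro i
      simp only [N, M, Matrix.of_apply]
      rw [hm_mul]
      congr 1
      ring
    simp_rw [h2]
    rw [← hm_sum]
    have h3 := congrFun (congrFun (Matrix.nonsing_inv_mul (Matrix.of fun i j => E i (ξ j))
      (isUnit_iff_ne_zero.2 hdet)) a) b
    rw [Matrix.mul_apply, Matrix.one_apply] at h3
    rw [Matrix.one_apply]
    have h4 : ∑ i, (Matrix.of fun i j => E i (ξ j))⁻¹ a i * E i (ξ b) =
        if a = b then 1 else 0 := h3
    rw [h4]
    split_ifs with h
    · rw [h, sub_self, hm_one]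
    · rw [hm_zero]
  have h2 : N = D' • M.adjugate := by
    have h3 : M * M.adjugate = M.det • (1 : Matrix (Fin n) (Fin n) (LP L)) :=
      Matrix.mul_adjugate M
    have h4 : N * (M * M.adjugate) = M.adjugate := by rw [← mul_assoc, h1, one_mul]
    rw [h3, Matrix.mul_smul, mul_one] at h4
    rw [← h4, smul_smul, mul_comm D', hD, one_smul]
  have h3 : M.adjugate = (Matrix.map (Matrix.adjugate
      (Matrix.of fun i j => (⟨hm (e j + l i) (E i (ξ j)), hM i j⟩ : R))) R.val) := by
    have h4 := RingHom.map_adjugate (R.val : R →+* LP L)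
      (Matrix.of fun i j => (⟨hm (e j + l i) (E i (ξ j)), hM i j⟩ : R))
    rw [RingHom.mapMatrix_apply, RingHom.mapMatrix_apply] at h4
    refine Eq.trans ?_ h4.symm
    congr 1
  have h4 : N a i ∈ R := by
    rw [h2, Matrix.smul_apply, h3, Matrix.map_apply, smul_eq_mul]
    exact R.mul_mem hD' (Subtype.property _)
  exact h4

include hdet in
/-- **Smoothness of the constants of a foliation.** -/
theorem smooth_fol {p : ℕ} (hp : p.Prime) (hpk : (p : k) = 0) (hpc : PC p (Sp E))
    (R : Subalgebra k (LP L)) (e l : Fin n → ℤ)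
    (hD : ∀ i, ∀ f ∈ R, sh (E i) (l i) f ∈ R) (hx : ∀ j, hm (e j) (ξ j) ∈ R)
    (y : LP L) (hy : y ∈ R) (d : ℤ) (η : L) (hη : η ≠ 0) (h : hm d η ∈ R)
    (hprod : hm d η = (y * (Matrix.of fun i j => (hm (e j + l i) (E i (ξ j)) : LP L)).det) ^ p)
    (hsm : Algebra.Smooth k (loc R (hm d η) h)) :
    Algebra.Smooth k ↥(loc R (hm d η) h ⊓ KS (Sp E)) := by
  classical
  let R' := loc R (hm d η) h
  have hle : R ≤ R' := le_loc _ _ _
  let Δ : LP L := (Matrix.of fun i j => (hm (e j + l i) (E i (ξ j)) : LP L)).det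
  have hM : ∀ i j, hm (e j + l i) (E i (ξ j)) ∈ R := by
    intro i j
    have h1 := hD i _ (hx j)
    rwa [sh_hm] at h1
  have hΔ : Δ ∈ R := by
    have h4 := RingHom.map_det (R.val : R →+* LP L)
      (Matrix.of fun i j => (⟨hm (e j + l i) (E i (ξ j)), hM i j⟩ : R))
    have h5 : Δ = R.val (Matrix.det
        (Matrix.of fun i j => (⟨hm (e j + l i) (E i (ξ j)), hM i j⟩ : R))) := by
      refine Eq.trans ?_ h4.symm
      congr 1
    rw [h5]
    exact Subtype.property _
  have hΛ : hm d η ∈ KS (Sp E) := by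
    rw [hprod]
    exact KS_pow hpk _
  have hstab : ∀ i, ∀ f ∈ R', sh (E i) (l i) f ∈ R' := by
    rintro i f ⟨m, hm'⟩
    refine ⟨m, ?_⟩
    have h1 := hD i _ hm'
    have h2 : sh (E i) (l i) (hm d η ^ m) = 0 := by
      rw [sh_zero_iff]
      exact (KS (Sp E)).pow_mem hΛ m (E i) (mem_Sp.2 ⟨Pi.single i 1, by
        rw [Finset.sum_eq_single i]
        · rw [Pi.single_eq_same, one_smul]
        · intro j _ hj
          rw [Pi.single_eq_of_ne hj, zero_smul]
        · intro h
          exact absurd (Finset.mem_univ i) h⟩)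
    rw [Derivation.leibniz, h2, smul_zero, add_zero, smul_eq_mul] at h1
    exact h1
  obtain ⟨z, hz⟩ := (isUnit_hm (d := d) hη).exists_right_inv
  have hzR : z ∈ R' := inv_mem_loc _ _ _ _ hz
  let D' : LP L := y * (y * Δ) ^ (p - 1) * z
  have hD'R : D' ∈ R' := R'.mul_mem (hle (R.mul_mem hy (R.pow_mem (R.mul_mem hy hΔ) _))) hzR
  have hD' : Δ * D' = 1 := by
    rw [← hz, hprod]
    change Δ * (y * (y * Δ) ^ (p - 1) * z) = (y * Δ) ^ p * z
    have h2 : ∀ a : LP L, a ^ p = a * a ^ (p - 1) := fun a => by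
      rw [← pow_succ', Nat.sub_add_cancel hp.one_lt.le]
    rw [h2 (y * Δ)]
    ring
  have hN := inv_mem hdet e l R' (fun i j => hle (hM i j)) D' hD'R hD'
  let δ : Fin n → Derivation k (LP L) (LP L) := fun a => sh (fr E ξ a) (-e a)
  have hδR : ∀ a, ∀ f ∈ R', δ a f ∈ R' := by
    intro a f hf
    change sh (fr E ξ a) (-e a) f ∈ R'
    rw [sh_fr e l]
    exact Subalgebra.sum_mem _ fun i _ => R'.mul_mem (hN a i) (hstab i f hf)
  have h1 := smooth_KF δ hp hpk (fun a x => sh_pow (-e a) (fr_pow hdet hp hpc a) x)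
    (fun a b x => sh_comm (-e a) (-e b) (fr_comm hdet hpc a b) x)
    (fun j => hm (e j) (ξ j)) (fun a b => by
      change sh (fr E ξ a) (-e a) (hm (e b) (ξ b)) = _
      rw [sh_hm, fr_apply hdet]
      split_ifs with hab
      · rw [hab, add_neg_cancel, hm_one]
      · rw [hm_zero]) R' (fun a => hle (hx a)) hδR hsm Finset.univ
  have h2 : R' ⊓ KS (Sp E) = R' ⊓ KF δ Finset.univ := by
    ext f
    constructor
    · rintro ⟨h3, h4⟩
      exact ⟨h3, fun a _ => (mem_KS_fr hdet (fun a => -e a)).1 h4 a⟩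
    · rintro ⟨h3, h4⟩
      exact ⟨h3, (mem_KS_fr hdet (fun a => -e a)).2 fun a => h4 a (Finset.mem_univ a)⟩
  have key : ∀ R1 : Subalgebra k (LP L), R1 = R' ⊓ KF δ Finset.univ → Algebra.Smooth k R1 := by
    rintro R1 rfl
    exact h1
  exact key _ h2

end smooth

end Q17.Res
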