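import Pool.Agent.Q17.Res.Fol2

/-! Foliations of arbitrary rank: the space of the rational vector fields. -/

set_option autoImplicit false
set_option linter.unusedSectionVars false

open Pool.Agent.H920R2 Pool.Agent.H519R3.RS Pool.Agent.Y177.Ga

universe u v

namespace Q17.Res

section span

variable {k C L : Type u} [Field k] [CommRing C] [IsDomain C] [Algebra k C] [Field L]
  [Algebra k L] [Algebra C L] [IsScalarTower k C L] [IsFractionRing C L]

variable (L) in
/-- The extension of a derivation to the field of fractions. -/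
theorem ex_der (E : Derivation k C C) : ∃ E' : Derivation k L L,
    ∀ b, E' (algebraMap C L b) = algebraMap C L (E b) := by
  obtain ⟨E0, hE0⟩ := exists_der_frac E
  let e : FractionRing C ≃ₐ[C] L := FractionRing.algEquiv C L
  have hk : ∀ (r : k) (x : L), e.symm (r • x) = r • e.symm x := by
    intro r x
    rw [← algebraMap_smul C r x, map_smul, algebraMap_smul]
  have hk' : ∀ (r : k) (x : FractionRing C), e (r • x) = r • e x := by
    intro r x
    rw [← algebraMap_smul C r x, map_smul, algebraMap_smul]
  let f : L →ₗ[k] L :=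
    { toFun := fun x => e (E0 (e.symm x))
      map_add' := fun x y => by rw [map_add, map_add, map_add]
      map_smul' := fun r x => by rw [hk, Derivation.map_smul, hk', RingHom.id_apply] }
  refine ⟨Derivation.mk' f fun a b => ?_, fun b => ?_⟩
  · change e (E0 (e.symm (a * b))) = a • e (E0 (e.symm b)) + b • e (E0 (e.symm a))
    rw [map_mul, Derivation.leibniz, map_add, smul_eq_mul, smul_eq_mul, map_mul, map_mul,
      AlgEquiv.apply_symm_apply, AlgEquiv.apply_symm_apply, smul_eq_mul, smul_eq_mul]
  · change e (E0 (e.symm (algebraMap C L b))) = _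
    rw [AlgEquiv.commutes, hE0, AlgEquiv.commutes]

/-- A `p`-closed foliation of rank at most `n`. -/
structure IsFol (p n : ℕ) (𝓕 : Submodule C (Derivation k C C)) : Prop where
  br : ∀ D ∈ 𝓕, ∀ D' ∈ 𝓕, ⁅D, D'⁆ ∈ 𝓕
  pw : ∀ D ∈ 𝓕, ∃ D' ∈ 𝓕, ∀ x, D' x = D^[p] x
  rk : ∃ E : Fin n → Derivation k C C, ∀ D ∈ 𝓕, ∃ s : C, s ≠ 0 ∧
    s • D ∈ Submodule.span C (Set.range E)

variable (L) in
/-- The space of the rational vector fields of a foliation. -/
def SF (𝓕 : Submodule C (Derivation k C C)) : Submodule L (Derivation k L L) where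
  carrier := {D' | ∃ D ∈ 𝓕, ∃ s : C, s ≠ 0 ∧
    ∀ b : C, algebraMap C L s * D' (algebraMap C L b) = algebraMap C L (D b)}
  zero_mem' := ⟨0, 𝓕.zero_mem, 1, one_ne_zero, fun b => by
    rw [Derivation.zero_apply, mul_zero, Derivation.zero_apply, map_zero]⟩
  add_mem' := by
    rintro D1 D2 ⟨A, hA, s, hs, h1⟩ ⟨B, hB, t, ht, h2⟩
    refine ⟨t • A + s • B, 𝓕.add_mem (𝓕.smul_mem _ hA) (𝓕.smul_mem _ hB), s * t,
      mul_ne_zero hs ht, fun b => ?_⟩
    rw [Derivation.add_apply, Derivation.add_apply, Derivation.smul_apply, Derivation.smul_apply,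
      map_add, smul_eq_mul, smul_eq_mul, map_mul, map_mul, map_mul, ← h1, ← h2]
    ring
  smul_mem' := by
    rintro c D1 ⟨A, hA, s, hs, h1⟩
    obtain ⟨u, v, hv, rfl⟩ := IsFractionRing.div_surjective (A := C) c
    have hv0 : v ≠ 0 := nonZeroDivisors.ne_zero hv
    have hv' : algebraMap C L v ≠ 0 := fun h => hv0
      ((map_eq_zero_iff _ (IsFractionRing.injective C L)).1 h)
    refine ⟨u • A, 𝓕.smul_mem _ hA, v * s, mul_ne_zero hv0 hs, fun b => ?_⟩
    rw [Derivation.smul_apply, Derivation.smul_apply, smul_eq_mul, smul_eq_mul, map_mul, map_mul,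
      ← h1]
    field_simp

variable {p : ℕ} (hp : p.Prime) (hpk : (p : k) = 0)

include hpk in
lemma der_pow (D : Derivation k L L) (x : L) : D (x ^ p) = 0 := by
  have hpL : ((p : ℕ) : L) = 0 := by
    rw [← map_natCast (algebraMap k L), hpk, map_zero]
  rw [Derivation.leibniz_pow, nsmul_eq_mul, hpL, zero_mul]

include hpk in
lemma der_inv_pow (D : Derivation k L L) (x : L) : D ((x ^ p)⁻¹) = 0 := by
  rw [Derivation.leibniz_inv, der_pow hpk, smul_zero]

include hp hpk in
/-- The elements of the space, with constant denominators. -/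
lemma mem_SF {𝓕 : Submodule C (Derivation k C C)} {D' : Derivation k L L} (h : D' ∈ SF L 𝓕) :
    ∃ D ∈ 𝓕, ∃ c : L, (∀ E : Derivation k L L, E c = 0) ∧
      ∀ b : C, D' (algebraMap C L b) = c * algebraMap C L (D b) := by
  obtain ⟨D, hD, s, hs, h1⟩ := h
  have hs' : algebraMap C L s ≠ 0 := fun h => hs
    ((map_eq_zero_iff _ (IsFractionRing.injective C L)).1 h)
  refine ⟨s ^ (p - 1) • D, 𝓕.smul_mem _ hD, (algebraMap C L s ^ p)⁻¹,
    fun E => der_inv_pow hpk E _, fun b => ?_⟩
  rw [Derivation.smul_apply, smul_eq_mul, map_mul, ← h1, map_pow, ← mul_assoc, ← mul_assoc,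
    mul_assoc _ _ (algebraMap C L s), ← pow_succ, Nat.sub_add_cancel hp.one_lt.le,
    inv_mul_cancel₀ (pow_ne_zero _ hs'), one_mul]

include hp hpk in
/-- Elements of the field of fractions, with constant denominators. -/
lemma frac_const (x : L) : ∃ (b : C) (c : L), (∀ E : Derivation k L L, E c = 0) ∧
    x = c * algebraMap C L b := by
  obtain ⟨u, v, hv, rfl⟩ := IsFractionRing.div_surjective (A := C) x
  have hv0 : v ≠ 0 := nonZeroDivisors.ne_zero hv
  have hv' : algebraMap C L v ≠ 0 := fun h => hv0
    ((map_eq_zero_iff _ (IsFractionRing.injective C L)).1 h)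
  refine ⟨v ^ (p - 1) * u, (algebraMap C L v ^ p)⁻¹, fun E => der_inv_pow hpk E _, ?_⟩
  rw [map_mul, map_pow]
  have h2 : algebraMap C L v ^ p = algebraMap C L v * algebraMap C L v ^ (p - 1) := by
    rw [← pow_succ', Nat.sub_add_cancel hp.one_lt.le]
  rw [h2]
  field_simp

lemma iter_frac {D' : Derivation k L L} {D : Derivation k C C} {c : L}
    (hc : ∀ E : Derivation k L L, E c = 0)
    (h : ∀ b : C, D' (algebraMap C L b) = c * algebraMap C L (D b)) (m : ℕ) (b : C) :
    D'^[m] (algebraMap C L b) = c ^ m * algebraMap C L (D^[m] b) := by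
  induction m generalizing b with
  | zero => simp
  | succ m ih =>
    rw [Function.iterate_succ_apply, h, iter_const_mul _ _ _ _ (hc D'), ih,
      Function.iterate_succ_apply, pow_succ]
    ring

include hp hpk in
/-- The space of the rational vector fields of a `p`-closed foliation is `p`-closed. -/
theorem PC_SF {n : ℕ} {𝓕 : Submodule C (Derivation k C C)} (h : IsFol p n 𝓕) :
    PC p (SF L 𝓕) where
  br := by
    intro D1 h1 D2 h2
    obtain ⟨A, hA, c, hc, h1⟩ := mem_SF hp hpk h1
    obtain ⟨B, hB, d, hd, h2⟩ := mem_SF hp hpk h2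
    obtain ⟨E, hE⟩ := ex_der L ⁅A, B⁆
    have hcd : (c * d) • E ∈ SF L 𝓕 := by
      refine (SF L 𝓕).smul_mem _ ⟨⁅A, B⁆, h.br A hA B hB, 1, one_ne_zero, fun b => ?_⟩
      rw [map_one, one_mul]
      exact hE b
    have h3 : ⁅D1, D2⁆ = (c * d) • E := by
      ext x
      obtain ⟨b, e, he, rfl⟩ := frac_const (C := C) hp hpk x
      have h4 : ∀ D : Derivation k L L, D (e * algebraMap C L b) =
          e * D (algebraMap C L b) := by
        intro D
        rw [Derivation.leibniz, he, smul_zero, add_zero, smul_eq_mul]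
      rw [h4, h4]
      congr 1
      rw [Derivation.commutator_apply, h1, h2, Derivation.smul_apply, smul_eq_mul]
      have h5 : ∀ (D : Derivation k L L) (e x : L), (∀ E : Derivation k L L, E e = 0) →
          D (e * x) = e * D x := by
        intro D e x he
        rw [Derivation.leibniz, he, smul_zero, add_zero, smul_eq_mul]
      rw [h5 _ _ _ hd, h5 _ _ _ hc, h1, h2]
      have h6 : E (algebraMap C L b) = algebraMap C L (⁅A, B⁆ b) := hE b
      rw [h6, Derivation.commutator_apply, map_sub]
      ring
    rw [h3]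
    exact hcd
  pw := by
    intro D1 h1
    obtain ⟨A, hA, c, hc, h1⟩ := mem_SF hp hpk h1
    obtain ⟨B, hB, h2⟩ := h.pw A hA
    obtain ⟨E, hE⟩ := ex_der L B
    refine ⟨c ^ p • E, (SF L 𝓕).smul_mem _ ⟨B, hB, 1, one_ne_zero, fun b => by
      rw [map_one, one_mul]
      exact hE b⟩, fun x => ?_⟩
    obtain ⟨b, e, he, rfl⟩ := frac_const (C := C) hp hpk x
    rw [iter_const_mul _ _ _ _ (he D1), iter_frac hc h1, Derivation.leibniz, he, smul_zero,
      add_zero, smul_eq_mul, Derivation.smul_apply, smul_eq_mul]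
    have h6 : E (algebraMap C L b) = algebraMap C L (B b) := hE b
    rw [h6, h2]

/-- `n` fields with a nonzero minor span the space of the rational vector fields. -/
theorem Sp_eq_SF {n : ℕ} {𝓕 : Submodule C (Derivation k C C)} (h : IsFol p n 𝓕)
    {X : Fin n → Derivation k C C} (hX : ∀ i, X i ∈ 𝓕) {E : Fin n → Derivation k L L}
    (hE : ∀ i b, E i (algebraMap C L b) = algebraMap C L (X i b)) {ξ : Fin n → L}
    (hdet : (Matrix.of fun i j => E i (ξ j)).det ≠ 0) : Sp E = SF L 𝓕 := by
  classical
  obtain ⟨G, hG⟩ := h.rk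
  have h1 : ∀ i, ∃ E' : Derivation k L L, ∀ b, E' (algebraMap C L b) = algebraMap C L (G i b) :=
    fun i => ex_der L (G i)
  choose G' hG' using h1
  have h2 : SF L 𝓕 ≤ Sp G' := by
    rintro D' ⟨D, hD, s, hs, h3⟩
    obtain ⟨t, ht, h4⟩ := hG D hD
    obtain ⟨c, hc⟩ := (Submodule.mem_span_range_iff_exists_fun C).1 h4
    have hs' : algebraMap C L s ≠ 0 := fun h => hs
      ((map_eq_zero_iff _ (IsFractionRing.injective C L)).1 h)
    have ht' : algebraMap C L t ≠ 0 := fun h => ht
      ((map_eq_zero_iff _ (IsFractionRing.injective C L)).1 h)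
    have hmem : (algebraMap C L (t * s)) • D' ∈ Sp G' := by
      refine mem_Sp.2 ⟨fun i => algebraMap C L (c i), ?_⟩
      have h6 : ∀ b : C, (∑ i, algebraMap C L (c i) • G' i) (algebraMap C L b) =
          ((algebraMap C L (t * s)) • D') (algebraMap C L b) := by
        intro b
        rw [sum_apply, Derivation.smul_apply, smul_eq_mul, map_mul, mul_assoc, h3, ← map_mul]
        have h7 := congrArg (fun D : Derivation k C C => D b) hc
        have h8 : (∑ i, c i • G i) b = ∑ i, c i * G i b := by
          have key : ∀ s : Finset (Fin n), (∑ i ∈ s, c i • G i) b = ∑ i ∈ s, c i * G i b := by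
            intro s
            induction s using Finset.induction_on with
            | empty => rfl
            | insert d s hd ih =>
              rw [Finset.sum_insert hd, Finset.sum_insert hd, ← ih]
              rfl
          exact key _
        have h9 : ∑ i, c i * G i b = t * D b := by
          rw [← h8]
          exact h7
        rw [← h9, map_sum]
        refine Finset.sum_congr rfl fun i _ => ?_
        rw [hG', map_mul]
      ext x
      obtain ⟨y, z, hz, rfl⟩ := IsFractionRing.div_surjective (A := C) x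
      rw [div_eq_mul_inv, Derivation.leibniz, Derivation.leibniz, Derivation.leibniz_inv,
        Derivation.leibniz_inv, h6, h6]
    have h5 : D' = (algebraMap C L (t * s))⁻¹ • ((algebraMap C L (t * s)) • D') := by
      rw [smul_smul, inv_mul_cancel₀, one_smul]
      rw [map_mul]
      exact mul_ne_zero ht' hs'
    rw [h5]
    exact (Sp G').smul_mem _ hmem
  have h3 : Sp E ≤ SF L 𝓕 := by
    unfold Sp
    rw [Submodule.span_le]
    rintro _ ⟨i, rfl⟩
    exact ⟨X i, hX i, 1, one_ne_zero, fun b => by rw [map_one, one_mul, hE]⟩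
  have hfd : FiniteDimensional L (Sp G') := by
    unfold Sp
    exact FiniteDimensional.span_of_finite L (Set.finite_range _)
  have hfd2 : FiniteDimensional L (SF L 𝓕) := Submodule.finiteDimensional_of_le h2
  refine Submodule.eq_of_le_of_finrank_le h3 ?_
  have h4 : LinearIndependent L E := by
    rw [Fintype.linearIndependent_iff]
    intro u hu
    have h5 : Matrix.vecMul u (Matrix.of fun i j => E i (ξ j)) = 0 := by
      ext j
      rw [Matrix.vecMul, dotProduct, Pi.zero_apply]
      have h6 : (∑ i, u i • E i) (ξ j) = (0 : Derivation k L L) (ξ j) :=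
        congrArg (fun D : Derivation k L L => D (ξ j)) hu
      rw [sum_apply, Derivation.zero_apply] at h6
      exact h6
    by_contra hcon
    push Not at hcon
    obtain ⟨i, hi⟩ := hcon
    exact hdet (Matrix.exists_vecMul_eq_zero_iff.1 ⟨u, fun h0 => hi (congrFun h0 i), h5⟩)
  have h5 : Module.finrank L (Sp E) = n := by
    unfold Sp
    rw [finrank_span_eq_card h4, Fintype.card_fin]
  have h6 : Module.finrank L (Sp G') ≤ n := by
    unfold Sp
    have h7 := finrank_range_le_card (R := L) G'
    rwa [Fintype.card_fin] at h7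
  rw [h5]
  exact (Submodule.finrank_mono h2).trans h6

end span

end Q17.Res
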