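import Pool.Agent.Q17.Res.Fol3

/-! Foliations of arbitrary rank: the quotient is good. -/

set_option autoImplicit false
set_option linter.unusedSectionVars false

open Pool.Agent.H920R2 Pool.Agent.H519R3.RS Pool.Agent.Y177.Ga

universe u v

namespace Q17.Res

section deg

variable {k C L : Type u} [Field k] [CommRing C] [Algebra k C] [Field L] [Algebra k L]
  (g : C →ₐ[k] L) {F : ℕ → Ideal C} (hF : IsFilt F)

/-- The derivation raises the weights by `l`. -/
def HasDeg (F : ℕ → Ideal C) (D : Derivation k C C) (l : ℤ) : Prop :=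
  ∀ d : ℕ, ∀ b ∈ F d, D b ∈ F ((d : ℤ) + l).toNat

include hF in
lemma HasDeg.int {D : Derivation k C C} {l : ℤ} (h : HasDeg F D l) (d : ℤ) (b : C)
    (hb : b ∈ F d.toNat) : D b ∈ F (d + l).toNat :=
  hF.anti _ _ (by omega) (h _ b hb)

lemma HasDeg.stab {D : Derivation k C C} {l : ℤ} (h : HasDeg F D l) {E : Derivation k L L}
    (hE : ∀ b, E (g b) = g (D b)) (f : LP L) (hf : f ∈ rG g hF) : sh E l f ∈ rG g hF := by
  have h1 : sh E l f = ∑ d ∈ f.coeff.support, sh E l (hm d (f.coeff d)) := by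
    rw [← map_sum, ← eq_sum_hm f]
  rw [h1]
  refine Subalgebra.sum_mem _ fun d _ => ?_
  obtain ⟨b, hb, hb'⟩ := hf d
  rw [← hb', sh_hm, hE]
  exact hm_mem_rG g hF (h.int hF d b hb)

/-- Every derivation of a filtered algebra of finite type has a degree. -/
lemma exists_deg (hinj : Function.Injective g) (hft : Algebra.FiniteType k (rG g hF))
    (D : Derivation k C C) (E : Derivation k L L) (hE : ∀ b, E (g b) = g (D b)) :
    ∃ m : ℕ, HasDeg F D (-(m : ℤ)) := by
  classical
  obtain ⟨T, hT⟩ := (Subalgebra.fg_top _).1 hft.1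
  let m : ℕ := T.sup fun t => t.coeff.support.sup fun d => d.toNat
  have hm' : ∀ t ∈ T, ∀ d ∈ t.coeff.support, d ≤ (m : ℤ) := by
    intro t ht d hd
    have h1 : d.toNat ≤ t.coeff.support.sup fun d => d.toNat :=
      Finset.le_sup (f := fun d : ℤ => d.toNat) hd
    have h2 : (t.coeff.support.sup fun d => d.toNat) ≤ m :=
      Finset.le_sup (f := fun t : LP L => t.coeff.support.sup fun d => d.toNat) ht
    omega
  let S : Subalgebra k (LP L) :=
    { carrier := {f | f ∈ rG g hF ∧ sh E (-(m : ℤ)) f ∈ rG g hF}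
      mul_mem' := by
        rintro a b ⟨ha, ha'⟩ ⟨hb, hb'⟩
        refine ⟨(rG g hF).mul_mem ha hb, ?_⟩
        rw [Derivation.leibniz]
        exact (rG g hF).add_mem ((rG g hF).mul_mem ha hb') ((rG g hF).mul_mem hb ha')
      add_mem' := by
        rintro a b ⟨ha, ha'⟩ ⟨hb, hb'⟩
        refine ⟨(rG g hF).add_mem ha hb, ?_⟩
        rw [map_add]
        exact (rG g hF).add_mem ha' hb'
      algebraMap_mem' := fun a => ⟨(rG g hF).algebraMap_mem a, by
        rw [Derivation.map_algebraMap]
        exact (rG g hF).zero_mem⟩ }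
  have hTS : rG g hF ≤ S := by
    rw [← hT, Algebra.adjoin_le_iff]
    intro t ht
    have htR : t ∈ rG g hF := by
      rw [← hT]
      exact Algebra.subset_adjoin ht
    refine ⟨htR, ?_⟩
    have h1 : sh E (-(m : ℤ)) t = ∑ d ∈ t.coeff.support, sh E (-(m : ℤ)) (hm d (t.coeff d)) := by
      rw [← map_sum, ← eq_sum_hm t]
    rw [h1]
    refine Subalgebra.sum_mem _ fun d hd => ?_
    obtain ⟨b, hb, hb'⟩ := htR d
    rw [← hb', sh_hm, hE]
    refine hm_mem_rG g hF ?_
    have h2 := hm' t ht d hd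
    have h3 : (d + -(m : ℤ)).toNat = 0 := by omega
    rw [h3, hF.zero]
    trivial
  refine ⟨m, fun d b hb => ?_⟩
  have h1 : hm (d : ℤ) (g b) ∈ rG g hF := hm_mem_rG g hF (by rw [Int.toNat_natCast]; exact hb)
  have h2 := (hTS h1).2
  rw [sh_hm, hE] at h2
  obtain ⟨c, hc, hc'⟩ := of_hm_mem_rG g hF h2
  rwa [hinj hc'] at hc

end deg

section lead

variable {k C L : Type u} [Field k] [CommRing C] [Algebra k C] [Field L] [Algebra k L]
  (g : C →ₐ[k] L) {F : ℕ → Ideal C} (hF : IsFilt F)

/-- The elements of weight `M` which are, up to higher order, combinations of the minors of the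
leading forms of `n` fields of the foliation. -/
def leadF (n : ℕ) (𝓕 : Submodule C (Derivation k C C)) (F : ℕ → Ideal C) (M : ℕ) : Ideal C :=
  F (M + 1) ⊔ Ideal.span {y | ∃ (X : Fin n → Derivation k C C) (l : Fin n → ℤ) (e : Fin n → ℕ)
    (c : Fin n → C), (∀ i, X i ∈ 𝓕) ∧ (∀ i, HasDeg F (X i) (l i)) ∧ (∀ j, c j ∈ F (e j)) ∧
    ∃ b ∈ F ((M : ℤ) - ∑ j, ((e j : ℤ) + l j)).toNat,
      y = b * Matrix.det (Matrix.of fun i j => X i (c j))}

/-- Determinants of matrices of homogeneous elements. -/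
lemma det_hmZ {n : ℕ} (e m : Fin n → ℤ) (M : Matrix (Fin n) (Fin n) L) :
    Matrix.det (Matrix.of fun i j => (hm (e j + m i) (M i j) : LP L)) =
      hm (∑ j, (e j + m j)) M.det := by
  classical
  let h : L →+* LP L :=
    { toFun := fun c => hm 0 c
      map_one' := hm_one
      map_mul' := fun a b => by rw [hm_mul, add_zero]
      map_zero' := hm_zero 0
      map_add' := fun a b => hm_add 0 a b }
  have hh : ∀ c, h c = hm 0 c := fun c => rfl
  have hpr : ∀ (e : Fin n → ℤ) (s : Finset (Fin n)),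
      ∏ j ∈ s, (hm (e j) (1 : L) : LP L) = hm (∑ j ∈ s, e j) 1 := by
    intro e s
    induction s using Finset.induction_on with
    | empty => rw [Finset.prod_empty, Finset.sum_empty, hm_one]
    | insert i s hi ih => rw [Finset.prod_insert hi, Finset.sum_insert hi, ih, hm_mul, one_mul]
  have h1 : (Matrix.of fun i j => (hm (e j + m i) (M i j) : LP L)) =
      Matrix.of fun i j => hm (m i) (1 : L) *
        (Matrix.of fun i j => hm (e j) (1 : L) * (M.map h) i j) i j := by
    ext1 i j
    rw [Matrix.of_apply, Matrix.of_apply, Matrix.of_apply, Matrix.map_apply, hh, hm_mul,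
      hm_mul, one_mul, one_mul, add_zero, add_comm (m i)]
  rw [h1, Matrix.det_mul_column, Matrix.det_mul_row, ← RingHom.mapMatrix_apply, ← RingHom.map_det,
    hh, hpr, hpr, hm_mul, hm_mul, one_mul, one_mul, Finset.sum_add_distrib]
  congr 1
  ring

/-- The zeros of the minors of the leading forms in the special fibre. -/
theorem leadF_rad {n : ℕ} {𝓕 : Submodule C (Derivation k C C)}
    (hlead : ∀ d, 1 ≤ d → ∀ a ∈ F d, ∃ N : ℕ, a ^ N ∈ leadF n 𝓕 F (N * d))
    (Q : Ideal (rG g hF)) (hQ : Q.IsPrime)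
    (hDQ : ∀ (X : Fin n → Derivation k C C) (l : Fin n → ℤ) (e : Fin n → ℕ) (c : Fin n → C),
      (∀ i, X i ∈ 𝓕) → (∀ i, HasDeg F (X i) (l i)) → (∀ j, c j ∈ F (e j)) →
      JQ g hF Q (∑ j, ((e j : ℤ) + l j)) (Matrix.det (Matrix.of fun i j => X i (c j))))
    (hsQ : (⟨hm (-1) 1, s_rG g hF⟩ : rG g hF) ∈ Q)
    (d : ℕ) (a : L) (h : hm d a ∈ rG g hF) (hd : 0 < d) : (⟨hm d a, h⟩ : rG g hF) ∈ Q := by
  classical
  obtain ⟨b, hb, hba⟩ := of_hm_mem_rG g hF h
  rw [Int.toNat_natCast] at hb
  subst hba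
  obtain ⟨N, hN⟩ := hlead d hd b hb
  have key : ∀ z ∈ leadF n 𝓕 F (N * d), JQ g hF Q ((N * d : ℕ) : ℤ) z := by
    intro z hz
    obtain ⟨z1, hz1, z2, hz2, rfl⟩ := Submodule.mem_sup.1 hz
    refine JQ.add g hF ?_ ?_
    · refine JQ.special g hF hsQ ?_
      have : (((N * d : ℕ) : ℤ) + 1).toNat = N * d + 1 := by omega
      rw [this]
      exact hz1
    · clear hz
      induction hz2 using Submodule.span_induction with
      | mem z hz =>
        obtain ⟨X, l, e, c, hX, hl, hc, b', hb', rfl⟩ := hz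
        have h1 := JQ.mul g hF (hDQ X l e c hX hl hc) hb'
        rw [add_sub_cancel, mul_comm _ b'] at h1
        exact h1
      | zero => exact JQ.zero g hF _
      | add y z _ _ hy hz => exact JQ.add g hF hy hz
      | smul r z _ hz => exact JQ.mulC g hF hz r
  obtain ⟨h1, h2⟩ := key _ hN
  have h3 : (⟨hm d (g b), h⟩ : rG g hF) ^ N = ⟨_, h1⟩ := by
    apply Subtype.ext
    change hm (d : ℤ) (g b) ^ N = hm ((N * d : ℕ) : ℤ) (g (b ^ N))
    rw [hm_pow, map_pow]
    push_cast
    rfl
  rw [← h3] at h2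
  exact hQ.mem_of_pow_mem _ h2

end lead

section main

variable {k C : Type u} [Field k] [CommRing C] [IsDomain C] [Algebra k C]

/-- The constants of a foliation. -/
def constF (𝓕 : Submodule C (Derivation k C C)) : Subalgebra k C where
  carrier := {b | ∀ D ∈ 𝓕, D b = 0}
  mul_mem' := by
    intro x y hx hy a ha
    rw [Derivation.leibniz, hx a ha, hy a ha, smul_zero, smul_zero, add_zero]
  add_mem' := by
    intro x y hx hy a ha
    rw [map_add, hx a ha, hy a ha, add_zero]
  algebraMap_mem' := fun x a _ => a.map_algebraMap x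

/-- **The quotient by a foliation.** -/
theorem good_fol {p : ℕ} (hp : p.Prime) (hpk : (p : k) = 0) {n : ℕ}
    {𝓕 : Submodule C (Derivation k C C)} (h𝓕 : IsFol p n 𝓕)
    {F : ℕ → Ideal C} (hF : IsFilt F) (hG : Good k hF)
    (hfix : ∀ P : Ideal C, P.IsPrime → (∀ (X : Fin n → Derivation k C C) (c : Fin n → C),
      (∀ i, X i ∈ 𝓕) → Matrix.det (Matrix.of fun i j => X i (c j)) ∈ P) → F 1 ≤ P)
    (hlead : ∀ d, 1 ≤ d → ∀ a ∈ F d, ∃ N : ℕ, a ^ N ∈ leadF n 𝓕 F (N * d)) :
    Good k (isFilt_restr hF (constF 𝓕)) := by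
  classical
  let L := FractionRing C
  let g : C →ₐ[k] L := IsScalarTower.toAlgHom k C L
  have hinj : Function.Injective g := IsFractionRing.injective C L
  have hGE := (good_iff g hF hinj).1 hG
  let R := rG g hF
  let F0 : Subalgebra k (LP L) := KS (SF L 𝓕)
  have hpc : PC p (SF L 𝓕) := PC_SF hp hpk h𝓕
  choose ex hex using fun D : Derivation k C C => ex_der L D
  have hdetg : ∀ (X : Fin n → Derivation k C C) (c : Fin n → C),
      (Matrix.of fun i j => ex (X i) (g (c j))).det =
        g (Matrix.det (Matrix.of fun i j => X i (c j))) := by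
    intro X c
    change _ = (g : C →+* L) _
    rw [RingHom.map_det]
    congr 1
    ext1 i j
    rw [RingHom.mapMatrix_apply, Matrix.map_apply, Matrix.of_apply]
    exact hex (X i) (c j)
  have hfam : Fam R F0 := by
    intro Q hQ hQS d a hda hd
    by_contra hnQ
    have ha0 : a ≠ 0 := by
      intro h
      apply hnQ
      have e1 : (⟨hm d a, hda⟩ : R) = 0 := by
        apply Subtype.ext
        change hm (d : ℤ) a = 0
        rw [h, hm_zero]
      rw [e1]
      exact Q.zero_mem
    have hDQ : ∀ (X : Fin n → Derivation k C C) (l : Fin n → ℤ) (e : Fin n → ℕ) (c : Fin n → C),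
        (∀ i, X i ∈ 𝓕) → (∀ i, HasDeg F (X i) (l i)) → (∀ j, c j ∈ F (e j)) →
        JQ g hF Q (∑ j, ((e j : ℤ) + l j)) (Matrix.det (Matrix.of fun i j => X i (c j))) := by
      intro X l e c hX hl hc
      let E : Fin n → Derivation k L L := fun i => ex (X i)
      let ξ : Fin n → L := fun j => g (c j)
      have hcR : ∀ j, hm (e j : ℤ) (ξ j) ∈ R := fun j => hm_mem_rG g hF (by
        rw [Int.toNat_natCast]; exact hc j)
      have hstab : ∀ i, ∀ f ∈ R, sh (E i) (l i) f ∈ R := fun i f hf =>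
        (hl i).stab g hF (fun b => hex (X i) b) f hf
      have hMR : ∀ i j, hm ((e j : ℤ) + l i) (E i (ξ j)) ∈ R := by
        intro i j
        have h1 := hstab i _ (hcR j)
        rwa [sh_hm] at h1
      have hΔ := det_hmZ (fun j => (e j : ℤ)) l (Matrix.of fun i j => E i (ξ j))
      have hΔR : hm (∑ j, ((e j : ℤ) + l j)) (Matrix.of fun i j => E i (ξ j)).det ∈ R := by
        rw [← hΔ]
        have h4 := RingHom.map_det (R.val : R →+* LP L)
          (Matrix.of fun i j => (⟨hm ((e j : ℤ) + l i) (E i (ξ j)), hMR i j⟩ : R))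
        have h5 : (Matrix.of fun i j => (hm ((e j : ℤ) + l i)
            ((Matrix.of fun i j => E i (ξ j)) i j) : LP L)).det = R.val (Matrix.det
            (Matrix.of fun i j => (⟨hm ((e j : ℤ) + l i) (E i (ξ j)), hMR i j⟩ : R))) := by
          refine Eq.trans ?_ h4.symm
          congr 1
        rw [h5]
        exact Subtype.property _
      have hg1 : g (Matrix.det (Matrix.of fun i j => X i (c j))) =
          (Matrix.of fun i j => E i (ξ j)).det := (hdetg X c).symm
      have hmemR : hm (∑ j, ((e j : ℤ) + l j))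
          (g (Matrix.det (Matrix.of fun i j => X i (c j)))) ∈ R := by
        rw [hg1]; exact hΔR
      refine ⟨hmemR, ?_⟩
      by_cases hdet : (Matrix.of fun i j => E i (ξ j)).det = 0
      · have e1 : (⟨_, hmemR⟩ : R) = 0 := by
          apply Subtype.ext
          change hm (∑ j, ((e j : ℤ) + l j))
            (g (Matrix.det (Matrix.of fun i j => X i (c j)))) = 0
          rw [hg1, hdet, hm_zero]
        rw [e1]
        exact Q.zero_mem
      · let D0 : ℤ := ∑ j, ((e j : ℤ) + l j)
        let m : ℕ := D0.natAbs + 1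
        have hpos : 0 < (m * d + D0 : ℤ) := by
          have h1 : -((D0.natAbs : ℤ)) ≤ D0 := by omega
          have h2 : (m : ℤ) = D0.natAbs + 1 := by
            change ((((D0.natAbs + 1 : ℕ)) : ℤ)) = _
            push_cast; ring
          have h3 : (1 : ℤ) ≤ d := by exact_mod_cast hd
          nlinarith
        obtain ⟨e1, he1⟩ := Int.eq_ofNat_of_zero_le hpos.le
        have he1' : 0 < e1 := by
          have : (0 : ℤ) < e1 := by rw [← he1]; exact hpos
          exact_mod_cast this
        have hx : (hm d a ^ m * hm D0 (Matrix.of fun i j => E i (ξ j)).det) ^ p =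
            hm ((p * e1 : ℕ) : ℤ) ((a ^ m * (Matrix.of fun i j => E i (ξ j)).det) ^ p) := by
          rw [hm_pow, hm_mul, hm_pow]
          congr 1
          push_cast
          rw [← he1]
        have hxR : (hm d a ^ m * hm D0 (Matrix.of fun i j => E i (ξ j)).det) ^ p ∈ R :=
          R.pow_mem (R.mul_mem (R.pow_mem hda m) hΔR) p
        have hxR' : hm ((p * e1 : ℕ) : ℤ) ((a ^ m * (Matrix.of fun i j => E i (ξ j)).det) ^ p) ∈
            R := by rw [← hx]; exact hxR
        have hη : (a ^ m * (Matrix.of fun i j => E i (ξ j)).det) ^ p ≠ 0 :=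
          pow_ne_zero _ (mul_ne_zero (pow_ne_zero _ ha0) hdet)
        have hSp : Sp E = SF L 𝓕 := Sp_eq_SF h𝓕 hX (fun i b => hex (X i) b) hdet
        have hsm : ∀ S' : Submodule L (Derivation k L L), S' = Sp E →
            Algebra.Smooth k ↥(loc R _ hxR' ⊓ KS S') := by
          rintro S' rfl
          refine smooth_fol hdet hp hpk (by rw [hSp]; exact hpc) R (fun j => (e j : ℤ)) l hstab
            hcR (hm d a ^ m) (R.pow_mem hda m) _ _ hη hxR' ?_
            (hGE.sm _ _ hxR' (Nat.mul_pos hp.pos he1') hη)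
          rw [← hx]
          congr 2
          exact hΔ.symm
        have hmem : (⟨hm ((p * e1 : ℕ) : ℤ)
            ((a ^ m * (Matrix.of fun i j => E i (ξ j)).det) ^ p), hxR'⟩ : R) ∈ Q := by
          refine hQS _ _ hxR' (Nat.mul_pos hp.pos he1') hη ?_ (hsm _ hSp.symm)
          rw [← hx]
          exact KS_pow hpk _
        have h4 : ((⟨hm d a, hda⟩ : R) ^ m * ⟨_, hmemR⟩) ^ p ∈ Q := by
          have e2 : ((⟨hm d a, hda⟩ : R) ^ m * ⟨_, hmemR⟩) ^ p =
              ⟨hm ((p * e1 : ℕ) : ℤ)
                ((a ^ m * (Matrix.of fun i j => E i (ξ j)).det) ^ p), hxR'⟩ := by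
            apply Subtype.ext
            change (hm (d : ℤ) a ^ m * hm D0
              (g (Matrix.det (Matrix.of fun i j => X i (c j))))) ^ p = _
            rw [hg1]
            exact hx
          rw [e2]; exact hmem
        have h5 := hQ.mem_of_pow_mem _ h4
        rcases hQ.mem_or_mem h5 with h6 | h6
        · exact absurd (hQ.mem_of_pow_mem _ h6) hnQ
        · exact h6
    apply hnQ
    by_cases hs : (⟨hm (-1) 1, s_rG g hF⟩ : rG g hF) ∈ Q
    · exact leadF_rad g hF hlead Q hQ hDQ hs d a hda hd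
    · let ib : C →+* rG g hF :=
        { toFun := fun b => ⟨hm 0 (g b), b_rG g hF b⟩
          map_one' := Subtype.ext (by change hm 0 (g 1) = 1; rw [map_one, hm_one])
          map_mul' := fun a b => Subtype.ext (by
            change hm 0 (g (a * b)) = hm 0 (g a) * hm 0 (g b)
            rw [map_mul, hm_mul, add_zero])
          map_zero' := Subtype.ext (by change hm 0 (g 0) = 0; rw [map_zero, hm_zero])
          map_add' := fun a b => Subtype.ext (by
            change hm 0 (g (a + b)) = hm 0 (g a) + hm 0 (g b)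
            rw [map_add, hm_add]) }
      have hP : (Q.comap ib).IsPrime := hQ.comap _
      have h1 : ∀ (X : Fin n → Derivation k C C) (c : Fin n → C), (∀ i, X i ∈ 𝓕) →
          Matrix.det (Matrix.of fun i j => X i (c j)) ∈ Q.comap ib := by
        intro X c hX
        have h2 : ∀ i, ∃ m : ℕ, HasDeg F (X i) (-(m : ℤ)) := fun i =>
          exists_deg g hF hinj hGE.ft (X i) (ex (X i)) (fun b => hex (X i) b)
        choose m hm' using h2
        obtain ⟨h3, h4⟩ := hDQ X (fun i => -(m i : ℤ)) (fun _ => 0) c hX hm' (fun j => by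
          rw [hF.zero]; trivial)
        obtain ⟨N, hN⟩ : ∃ N : ℕ, ∑ j, (((0 : ℕ) : ℤ) + -(m j : ℤ)) = -(N : ℤ) := by
          refine ⟨∑ j, m j, ?_⟩
          push_cast
          rw [← Finset.sum_neg_distrib]
          exact Finset.sum_congr rfl fun j _ => by ring
        have h5 : (⟨_, h3⟩ : rG g hF) = (⟨hm (-1) 1, s_rG g hF⟩ : rG g hF) ^ N *
            ⟨hm 0 (g (Matrix.det (Matrix.of fun i j => X i (c j)))), b_rG g hF _⟩ := by
          apply Subtype.ext
          change hm (∑ j, (((0 : ℕ) : ℤ) + -(m j : ℤ)))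
            (g (Matrix.det (Matrix.of fun i j => X i (c j)))) = (hm (-1) 1 : LP L) ^ N *
              hm 0 (g (Matrix.det (Matrix.of fun i j => X i (c j))))
          rw [hm_pow, hm_mul, one_pow, one_mul, add_zero, hN]
          congr 1
          ring
        rw [h5] at h4
        rcases hQ.mem_or_mem h4 with h6 | h6
        · exact absurd (hQ.mem_of_pow_mem _ h6) hs
        · exact h6
      have h2 := hfix (Q.comap ib) hP h1
      obtain ⟨y, hy, hyx⟩ := of_hm_mem_rG g hF hda
      rw [Int.toNat_natCast] at hy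
      subst hyx
      have h3 : y ∈ Q.comap ib := h2 (hF.anti 1 d hd hy)
      have h4 : JQ g hF Q 0 y := ⟨_, h3⟩
      obtain ⟨h5, h6⟩ := JQ.up g hF hQ hs d h4 (by rw [zero_add]; exact hda)
      simp only [zero_add] at h6
      exact h6
  have hint : ∀ f ∈ R, IsIntegral ↥(R ⊓ F0) f := by
    intro f hf
    have hfp : f ^ p ∈ R ⊓ F0 := ⟨R.pow_mem hf p, KS_pow hpk f⟩
    refine ⟨Polynomial.X ^ p - Polynomial.C ⟨f ^ p, hfp⟩,
      Polynomial.monic_X_pow_sub_C _ hp.ne_zero, ?_⟩
    rw [Polynomial.eval₂_sub, Polynomial.eval₂_pow, Polynomial.eval₂_X, Polynomial.eval₂_C]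
    exact sub_self _
  have hinj' : Function.Injective (g.comp (constF 𝓕).val) := hinj.comp Subtype.val_injective
  have heq : rG (g.comp (constF 𝓕).val) (isFilt_restr hF (constF 𝓕)) = rG g hF ⊓ F0 := by
    apply le_antisymm
    · intro f hf
      refine ⟨?_, ?_⟩
      · intro d
        obtain ⟨b, hb, hb'⟩ := hf d
        exact ⟨b, hb, hb'⟩
      · change f ∈ KS (SF L 𝓕)
        rw [mem_KS]
        intro D' hD' d
        obtain ⟨b, hb, hb'⟩ := hf d
        obtain ⟨D, hD, c, hc, h1⟩ := mem_SF hp hpk hD'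
        rw [← hb']
        change D' (algebraMap C L b) = 0
        rw [h1, b.2 D hD, map_zero, mul_zero]
    · rintro f ⟨hf, hf0⟩ d
      obtain ⟨b, hb, hb'⟩ := hf d
      have hbC : b ∈ constF 𝓕 := by
        intro D hD
        apply hinj
        have h1 : ex D ∈ SF L 𝓕 := ⟨D, hD, 1, one_ne_zero, fun b => by
          rw [map_one, one_mul]; exact hex D b⟩
        have h2 := mem_KS.1 hf0 _ h1 d
        rw [← hb'] at h2
        rw [map_zero]
        exact (hex D b).symm.trans h2
      exact ⟨⟨b, hbC⟩, hb, hb'⟩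
  exact (good_iff (g.comp (constF 𝓕).val) (isFilt_restr hF (constF 𝓕)) hinj').2
    (goodE_inf g hF hGE (g.comp (constF 𝓕).val) (isFilt_restr hF (constF 𝓕)) F0 heq hfam hint
    fun d a h => KS_inv h)

/-- The centre of the quotient is nonzero. -/
lemma ne_bot_fol {p : ℕ} (hp : p.Prime) (hpk : (p : k) = 0)
    (𝓕 : Submodule C (Derivation k C C)) {F : ℕ → Ideal C} (hne : F 1 ≠ ⊥) :
    restr F (constF 𝓕) 1 ≠ ⊥ := by
  obtain ⟨x, hx, hx0⟩ := Submodule.exists_mem_ne_zero_of_ne_bot hne
  have hpC : ((p : ℕ) : C) = 0 := by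
    rw [← map_natCast (algebraMap k C), hpk, map_zero]
  have h1 : x ^ p ∈ constF 𝓕 := by
    intro D _
    rw [Derivation.leibniz_pow, nsmul_eq_mul, hpC, zero_mul]
  have h2 : (⟨x ^ p, h1⟩ : constF 𝓕) ∈ restr F (constF 𝓕) 1 := by
    change x ^ p ∈ F 1
    exact Ideal.pow_mem_of_mem _ hx _ hp.pos
  intro hbot
  rw [hbot, Ideal.mem_bot] at h2
  exact pow_ne_zero p hx0 (congrArg Subtype.val h2)

end main

end Q17.Res
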