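import Pool.Agent.Q17.Res.Fol4
import Pool.Agent.Q17.Res.Aff

/-! Homogeneous foliations of affine spaces. -/

set_option autoImplicit false
set_option linter.unusedSectionVars false

open MvPolynomial Pool.Agent.H920R2 Pool.Agent.H519R3.RS Pool.Agent.H519R3.RE

universe u v

namespace Q17.Res

section zh

variable {k : Type u} [Field k] {N : ℕ} (w : Fin N → ℕ)

/-- Weighted homogeneous polynomials; the degree is an integer. -/
def ZH (f : MvPolynomial (Fin N) k) (m : ℤ) : Prop :=
  ∀ α ∈ f.support, ((Finsupp.weight w α : ℕ) : ℤ) = m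

variable {w}

lemma ZH.zero (m : ℤ) : ZH w (0 : MvPolynomial (Fin N) k) m := by
  intro α hα
  simp at hα

lemma ZH.add {f g : MvPolynomial (Fin N) k} {m : ℤ} (hf : ZH w f m) (hg : ZH w g m) :
    ZH w (f + g) m := by
  classical
  intro α hα
  rcases Finset.mem_union.1 (support_add hα) with h | h
  · exact hf α h
  · exact hg α h

lemma ZH.neg {f : MvPolynomial (Fin N) k} {m : ℤ} (hf : ZH w f m) : ZH w (-f) m := by
  intro α hα
  rw [support_neg] at hα
  exact hf α hα

lemma ZH.one : ZH w (1 : MvPolynomial (Fin N) k) 0 := by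
  classical
  intro α hα
  rw [mem_support_iff, coeff_one] at hα
  have h1 : 0 = α := by
    by_contra h
    exact hα (if_neg h)
  rw [← h1, map_zero, Nat.cast_zero]

lemma ZH.mul {f g : MvPolynomial (Fin N) k} {m m' : ℤ} (hf : ZH w f m) (hg : ZH w g m') :
    ZH w (f * g) (m + m') := by
  classical
  intro α hα
  obtain ⟨β, hβ, γ, hγ, rfl⟩ := Finset.mem_add.1 (support_mul _ _ hα)
  rw [map_add, Nat.cast_add, hf β hβ, hg γ hγ]

lemma ZH.sum {ι : Type*} (s : Finset ι) {f : ι → MvPolynomial (Fin N) k} {m : ℤ}
    (hf : ∀ i ∈ s, ZH w (f i) m) : ZH w (∑ i ∈ s, f i) m := by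
  classical
  induction s using Finset.induction_on with
  | empty => rw [Finset.sum_empty]; exact ZH.zero m
  | insert i s hi ih =>
    rw [Finset.sum_insert hi]
    exact (hf i (Finset.mem_insert_self _ _)).add
      (ih fun j hj => hf j (Finset.mem_insert_of_mem hj))

lemma ZH.prod {ι : Type*} (s : Finset ι) {f : ι → MvPolynomial (Fin N) k} {m : ι → ℤ}
    (hf : ∀ i ∈ s, ZH w (f i) (m i)) : ZH w (∏ i ∈ s, f i) (∑ i ∈ s, m i) := by
  classical
  induction s using Finset.induction_on with
  | empty => rw [Finset.prod_empty, Finset.sum_empty]; exact ZH.one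
  | insert i s hi ih =>
    rw [Finset.prod_insert hi, Finset.sum_insert hi]
    exact (hf i (Finset.mem_insert_self _ _)).mul
      (ih fun j hj => hf j (Finset.mem_insert_of_mem hj))

lemma ZH.det {n : ℕ} {M : Matrix (Fin n) (Fin n) (MvPolynomial (Fin N) k)} {u l : Fin n → ℤ}
    (hM : ∀ i j, ZH w (M i j) (u j + l i)) : ZH w M.det (∑ j, (u j + l j)) := by
  rw [Matrix.det_apply]
  refine ZH.sum _ fun σ _ => ?_
  have h1 : ZH w (∏ i, M (σ i) i) (∑ i, (u i + l (σ i))) := ZH.prod _ fun i _ => hM (σ i) i
  have h2 : ∑ i, (u i + l (σ i)) = ∑ j, (u j + l j) := by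
    rw [Finset.sum_add_distrib, Finset.sum_add_distrib, Equiv.sum_comp σ l]
  rw [h2] at h1
  rcases Int.units_eq_one_or (Equiv.Perm.sign σ) with h | h
  · rw [h, one_smul]
    exact h1
  · rw [h, Units.neg_smul, one_smul]
    exact h1.neg

lemma ZH.hom {f : MvPolynomial (Fin N) k} {m : ℤ} (hf : ZH w f m) (h0 : f ≠ 0) :
    0 ≤ m ∧ IsWeightedHomogeneous w f m.toNat := by
  obtain ⟨α, hα⟩ := Finset.nonempty_iff_ne_empty.2 fun h => h0 (support_eq_empty.1 h)
  have h1 := hf α hα
  refine ⟨by omega, fun {β} hβ => ?_⟩
  have h2 := hf β (mem_support_iff.2 hβ)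
  omega

end zh

section ei

variable {k : Type u} [Field k] {N : ℕ} (w : Fin N → ℕ)

lemma mem_EI_iff {f : MvPolynomial (Fin N) k} {m : ℕ} :
    f ∈ EI (X : Fin N → MvPolynomial (Fin N) k) w m ↔
      ∀ α ∈ f.support, m ≤ Finsupp.weight w α := by
  classical
  constructor
  · intro h
    unfold EI at h
    induction h using Submodule.span_induction with
    | mem y hy =>
      obtain ⟨α, hα, rfl⟩ := hy
      have h1 : (∏ i, (X i : MvPolynomial (Fin N) k) ^ α i) =
          monomial (Finsupp.equivFunOnFinite.symm α) 1 := by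
        rw [monomial_eq, C_1, one_mul, Finsupp.prod_fintype _ _ (fun i => by rw [pow_zero])]
        rfl
      rw [h1]
      intro β hβ
      have h2 := support_monomial_subset hβ
      rw [Finset.mem_singleton] at h2
      rw [h2, weight_eq]
      exact hα
    | zero => intro α hα; simp at hα
    | add y z _ _ hy hz =>
      intro α hα
      rcases Finset.mem_union.1 (support_add hα) with h | h
      · exact hy α h
      · exact hz α h
    | smul c y _ hy =>
      intro α hα
      rw [smul_eq_mul] at hα
      obtain ⟨β, hβ, γ, hγ, rfl⟩ := Finset.mem_add.1 (support_mul _ _ hα)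
      rw [map_add]
      exact (hy γ hγ).trans (Nat.le_add_left _ _)
  · intro h
    rw [f.as_sum]
    refine Ideal.sum_mem _ fun α hα => ?_
    rw [monomial_eq]
    refine Ideal.mul_mem_left _ _ ?_
    rw [Finsupp.prod_fintype _ _ (fun i => by rw [pow_zero])]
    refine mono_mem _ w _ ?_
    rw [← weight_eq]
    exact h α hα

lemma sub_comp_mem {f : MvPolynomial (Fin N) k} {m : ℕ}
    (hf : f ∈ EI (X : Fin N → MvPolynomial (Fin N) k) w m) :
    f - weightedHomogeneousComponent w m f ∈ EI (X : Fin N → MvPolynomial (Fin N) k) w (m + 1) := by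
  classical
  rw [mem_EI_iff] at hf ⊢
  intro α hα
  rw [mem_support_iff, coeff_sub, coeff_weightedHomogeneousComponent] at hα
  have h1 : Finsupp.weight w α ≠ m := by
    intro h
    rw [if_pos h, sub_self] at hα
    exact hα rfl
  rw [if_neg h1, sub_zero] at hα
  have h2 := hf α (mem_support_iff.2 hα)
  omega

/-- A derivation whose values at the coordinates have the right weights. -/
lemma hasDeg_of {D : Derivation k (MvPolynomial (Fin N) k) (MvPolynomial (Fin N) k)} {l : ℤ}
    (h : ∀ i, D (X i) ∈ EI (X : Fin N → MvPolynomial (Fin N) k) w ((w i : ℤ) + l).toNat) :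
    HasDeg (EI (X : Fin N → MvPolynomial (Fin N) k) w) D l := by
  classical
  have hpow : ∀ (i : Fin N) (m : ℕ), D (X i ^ m) ∈
      EI (X : Fin N → MvPolynomial (Fin N) k) w (((m * w i : ℕ) : ℤ) + l).toNat := by
    intro i m
    rcases Nat.eq_zero_or_pos m with hm | hm
    · rw [hm, pow_zero, Derivation.map_one_eq_zero]
      exact Ideal.zero_mem _
    · rw [Derivation.leibniz_pow, nsmul_eq_mul, smul_eq_mul]
      refine Ideal.mul_mem_left _ _ ?_
      have h1 := mul_mem_EI _ w (pow_mem_EI _ w (X_mem (k := k) w i) (m - 1)) (h i)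
      refine EI_anti _ w ?_ h1
      have h2 : (m - 1) * w i + w i = m * w i := by
        obtain ⟨m', rfl⟩ : ∃ m', m = m' + 1 := ⟨m - 1, by omega⟩
        rw [Nat.add_sub_cancel]; ring
      push_cast [← h2]
      have h3 : ((m - 1) * w i + w i : ℕ) = m * w i := h2
      zify at h3
      omega
  have hprod : ∀ (α : Fin N → ℕ) (s : Finset (Fin N)), D (∏ i ∈ s, X i ^ α i) ∈
      EI (X : Fin N → MvPolynomial (Fin N) k) w (((∑ i ∈ s, α i * w i : ℕ) : ℤ) + l).toNat := by
    intro α s
    induction s using Finset.induction_on with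
    | empty =>
      rw [Finset.prod_empty, Derivation.map_one_eq_zero]
      exact Ideal.zero_mem _
    | insert a s ha ih =>
      rw [Finset.prod_insert ha, Finset.sum_insert ha, Derivation.leibniz, smul_eq_mul,
        smul_eq_mul]
      have hm1 : ∏ i ∈ s, (X i : MvPolynomial (Fin N) k) ^ α i ∈
          EI (X : Fin N → MvPolynomial (Fin N) k) w (∑ i ∈ s, α i * w i) := by
        have h2 := mono_mem (X : Fin N → MvPolynomial (Fin N) k) w
          (d := ∑ i ∈ s, α i * w i) (fun i => if i ∈ s then α i else 0) (by
            rw [← Finset.sum_subset (Finset.subset_univ s)]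
            · refine (Finset.sum_congr rfl fun i hi => ?_).le
              rw [if_pos hi]
            · intro i _ hi
              rw [if_neg hi, zero_mul])
        have h3 : ∏ i, (X i : MvPolynomial (Fin N) k) ^ (if i ∈ s then α i else 0) =
            ∏ i ∈ s, X i ^ α i := by
          rw [← Finset.prod_subset (Finset.subset_univ s)]
          · exact Finset.prod_congr rfl fun i hi => by rw [if_pos hi]
          · intro i _ hi
            rw [if_neg hi, pow_zero]
        rwa [h3] at h2
      refine Ideal.add_mem _ ?_ ?_
      · have h1 := mul_mem_EI _ w (pow_mem_EI _ w (X_mem (k := k) w a) (α a)) ih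
        refine EI_anti _ w ?_ h1
        generalize ∑ i ∈ s, α i * w i = S
        generalize α a * w a = T
        omega
      · have h1 := mul_mem_EI _ w hm1 (hpow a (α a))
        refine EI_anti _ w ?_ h1
        generalize ∑ i ∈ s, α i * w i = S
        generalize α a * w a = T
        omega
  have hall : ∀ c, D c ∈ EI (X : Fin N → MvPolynomial (Fin N) k) w l.toNat := by
    intro c
    rw [c.as_sum, map_sum]
    refine Ideal.sum_mem _ fun α _ => ?_
    rw [monomial_eq, Derivation.leibniz, ← MvPolynomial.algebraMap_eq, Derivation.map_algebraMap,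
      smul_zero, add_zero, smul_eq_mul, Finsupp.prod_fintype _ _ (fun i => by rw [pow_zero])]
    refine Ideal.mul_mem_left _ _ (EI_anti _ w ?_ (hprod α Finset.univ))
    omega
  intro d b hb
  unfold EI at hb
  induction hb using Submodule.span_induction with
  | mem y hy =>
    obtain ⟨α, hα, rfl⟩ := hy
    refine EI_anti _ w ?_ (hprod α Finset.univ)
    omega
  | zero => rw [map_zero]; exact Ideal.zero_mem _
  | add y z _ _ hy hz => rw [map_add]; exact Ideal.add_mem _ hy hz
  | smul c y hy' hy =>
    rw [smul_eq_mul, Derivation.leibniz, smul_eq_mul, smul_eq_mul]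
    refine Ideal.add_mem _ (Ideal.mul_mem_left _ _ hy) ?_
    have h1 := mul_mem_EI _ w hy' (hall c)
    refine EI_anti _ w ?_ h1
    omega

end ei

section main

variable {k : Type u} [Field k] {N : ℕ} (w : Fin N → ℕ) {n : ℕ}
  (𝓕 : Submodule (MvPolynomial (Fin N) k)
    (Derivation k (MvPolynomial (Fin N) k) (MvPolynomial (Fin N) k)))

/-- The homogeneous vector fields. -/
def HomF (D : Derivation k (MvPolynomial (Fin N) k) (MvPolynomial (Fin N) k)) (l : ℤ) : Prop :=
  ∀ i, ZH w (D (X i)) ((w i : ℤ) + l)

lemma HomF.hasDeg {D : Derivation k (MvPolynomial (Fin N) k) (MvPolynomial (Fin N) k)} {l : ℤ}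
    (h : HomF w D l) : HasDeg (EI (X : Fin N → MvPolynomial (Fin N) k) w) D l := by
  refine hasDeg_of w fun i => ?_
  rw [mem_EI_iff]
  intro α hα
  have := h i α hα
  omega

/-- The minors of the homogeneous vector fields. -/
def MinH (n : ℕ) : Set (MvPolynomial (Fin N) k) :=
  {y | ∃ (D : Fin n → Derivation k (MvPolynomial (Fin N) k) (MvPolynomial (Fin N) k))
    (l : Fin n → ℤ) (q : Fin n → Fin N), (∀ i, D i ∈ 𝓕) ∧ (∀ i, HomF w (D i) (l i)) ∧
    y = Matrix.det (Matrix.of fun i j => D i (X (q j)))}

attribute [local instance] MvPolynomial.weightedGradedAlgebra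

lemma comp_leadF {y : MvPolynomial (Fin N) k} (hy : y ∈ Ideal.span (MinH w 𝓕 n)) :
    ∀ (r : MvPolynomial (Fin N) k) (m : ℕ), weightedHomogeneousComponent w m (r * y) ∈
      leadF n 𝓕 (EI (X : Fin N → MvPolynomial (Fin N) k) w) m := by
  classical
  induction hy using Submodule.span_induction with
  | mem y hy =>
    obtain ⟨D, l, q, hD, hl, rfl⟩ := hy
    intro r m
    have h1 : ZH w (Matrix.det (Matrix.of fun i j => D i (X (q j)))) (∑ j, ((w (q j) : ℤ) + l j)) :=
      ZH.det fun i j => hl i (q j)
    by_cases h0 : Matrix.det (Matrix.of fun i j => D i (X (q j))) = 0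
    · rw [h0, mul_zero, map_zero]
      exact Ideal.zero_mem _
    · obtain ⟨h2, h3⟩ := h1.hom h0
      obtain ⟨e, he⟩ := Int.eq_ofNat_of_zero_le h2
      rw [he] at h3
      have h6 : ∀ (e : ℕ) (f : MvPolynomial (Fin N) k),
          ((DirectSum.decompose (weightedHomogeneousSubmodule k w) f) e :
            MvPolynomial (Fin N) k) = weightedHomogeneousComponent w e f := by
        intro e f
        exact weightedDecomposition.decompose'_apply k w f e
      by_cases hem : e ≤ m
      · have h5 := DirectSum.coe_decompose_mul_of_right_mem_of_le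
          (weightedHomogeneousSubmodule k w) (i := e) (n := m) (a := r)
          (b := Matrix.det (Matrix.of fun i j => D i (X (q j)))) h3 hem
        rw [h6, h6] at h5
        rw [h5]
        refine Ideal.mem_sup_right (Ideal.subset_span ?_)
        refine ⟨D, l, fun j => w (q j), fun j => X (q j), hD, fun i => (hl i).hasDeg w,
          fun j => X_mem w (q j), weightedHomogeneousComponent w (m - e) r, ?_, rfl⟩
        rw [he]
        have h7 : ((m : ℤ) - (e : ℤ)).toNat = m - e := by omega
        rw [h7]
        exact hom_mem_EI w (weightedHomogeneousComponent_isWeightedHomogeneous _ _)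
      · have h5 := DirectSum.coe_decompose_mul_of_right_mem_of_not_le
          (weightedHomogeneousSubmodule k w) (i := e) (n := m) (a := r)
          (b := Matrix.det (Matrix.of fun i j => D i (X (q j)))) h3 hem
        rw [h6] at h5
        rw [h5]
        exact Ideal.zero_mem _
  | zero =>
    intro r m
    rw [mul_zero, map_zero]
    exact Ideal.zero_mem _
  | add y z _ _ hy hz =>
    intro r m
    rw [mul_add, map_add]
    exact Ideal.add_mem _ (hy r m) (hz r m)
  | smul c y _ hy =>
    intro r m
    rw [smul_eq_mul, ← mul_assoc]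
    exact hy (r * c) m

variable (hgen : 𝓕 ≤ Submodule.span (MvPolynomial (Fin N) k) {D | D ∈ 𝓕 ∧ ∃ l, HomF w D l})

include hgen in
/-- The minors of the homogeneous fields generate all minors. -/
lemma all_minors (P : Ideal (MvPolynomial (Fin N) k)) (hP : MinH w 𝓕 n ⊆ P)
    (D : Fin n → Derivation k (MvPolynomial (Fin N) k) (MvPolynomial (Fin N) k))
    (hD : ∀ i, D i ∈ 𝓕) (q : Fin n → Fin N) :
    Matrix.det (Matrix.of fun i j => D i (X (q j))) ∈ P := by
  classical
  have key : ∀ (s : Finset (Fin n))
      (D : Fin n → Derivation k (MvPolynomial (Fin N) k) (MvPolynomial (Fin N) k)),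
      (∀ i, D i ∈ 𝓕) → (∀ i, i ∉ s → ∃ l, HomF w (D i) l) →
      Matrix.det (Matrix.of fun i j => D i (X (q j))) ∈ P := by
    intro s
    induction s using Finset.induction_on with
    | empty =>
      intro D hD hs
      choose l hl using fun i => hs i (Finset.notMem_empty i)
      exact hP ⟨D, l, q, hD, hl, rfl⟩
    | insert a s ha ih =>
      intro D hD hs
      have h1 : ∀ Y ∈ Submodule.span (MvPolynomial (Fin N) k) {D | D ∈ 𝓕 ∧ ∃ l, HomF w D l},
          Matrix.det (Matrix.updateRow (Matrix.of fun i j => D i (X (q j))) a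
            (fun j => Y (X (q j)))) ∈ P := by
        intro Y hY
        induction hY using Submodule.span_induction with
        | mem Y hY =>
          have h2 := ih (Function.update D a Y) (fun i => by
            by_cases h : i = a
            · subst h
              rw [Function.update_self]
              exact hY.1
            · rw [Function.update_of_ne h]
              exact hD i) (fun i hi => by
            by_cases h : i = a
            · subst h
              rw [Function.update_self]
              exact hY.2
            · rw [Function.update_of_ne h]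
              refine hs i ?_
              rw [Finset.mem_insert, not_or]
              exact ⟨h, hi⟩)
          have h3 : (Matrix.of fun i j => (Function.update D a Y) i (X (q j))) =
              Matrix.updateRow (Matrix.of fun i j => D i (X (q j))) a (fun j => Y (X (q j))) := by
            ext1 i j
            by_cases h : i = a
            · subst h
              rw [Matrix.updateRow_self, Matrix.of_apply, Function.update_self]
            · rw [Matrix.updateRow_ne h, Matrix.of_apply, Matrix.of_apply,
                Function.update_of_ne h]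
          rwa [h3] at h2
        | zero =>
          have h3 : (fun j => (0 : Derivation k (MvPolynomial (Fin N) k)
              (MvPolynomial (Fin N) k)) (X (q j))) = 0 := rfl
          rw [h3, Matrix.det_eq_zero_of_row_eq_zero a (fun j => by
            rw [Matrix.updateRow_self]; rfl)]
          exact P.zero_mem
        | add Y Z _ _ hY hZ =>
          have h3 : (fun j => (Y + Z) (X (q j))) = (fun j => Y (X (q j))) +
              fun j => Z (X (q j)) := rfl
          rw [h3, Matrix.det_updateRow_add]
          exact P.add_mem hY hZ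
        | smul c Y _ hY =>
          have h3 : (fun j => (c • Y) (X (q j))) = c • fun j => Y (X (q j)) := rfl
          rw [h3, Matrix.det_updateRow_smul]
          exact P.mul_mem_left _ hY
      have h2 := h1 (D a) (hgen (hD a))
      have h3 : Matrix.updateRow (Matrix.of fun i j => D i (X (q j))) a
          (fun j => D a (X (q j))) = Matrix.of fun i j => D i (X (q j)) := by
        ext1 i j
        by_cases h : i = a
        · subst h
          rw [Matrix.updateRow_self, Matrix.of_apply]
        · rw [Matrix.updateRow_ne h]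
      rwa [h3] at h2
  exact key Finset.univ D hD fun i hi => absurd (Finset.mem_univ i) hi

variable (hV : ∀ (K : Type u) [Field K] [Algebra k K] (z : Fin N → K),
    (∀ (D : Fin n → Derivation k (MvPolynomial (Fin N) k) (MvPolynomial (Fin N) k))
      (q : Fin n → Fin N), (∀ i, D i ∈ 𝓕) →
      aeval z (Matrix.det (Matrix.of fun i j => D i (X (q j)))) = 0) → ∀ i, 0 < w i → z i = 0)

include hV in
lemma EI_le_of_minors (P : Ideal (MvPolynomial (Fin N) k)) (hP : P.IsPrime)
    (h : ∀ (D : Fin n → Derivation k (MvPolynomial (Fin N) k) (MvPolynomial (Fin N) k))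
      (q : Fin n → Fin N), (∀ i, D i ∈ 𝓕) →
      Matrix.det (Matrix.of fun i j => D i (X (q j))) ∈ P) :
    EI (X : Fin N → MvPolynomial (Fin N) k) w 1 ≤ P := by
  refine EI_le_prime_X w P hP ?_
  intro s hs
  have h1 := hV P.ResidueField
    (fun i => algebraMap (MvPolynomial (Fin N) k) P.ResidueField (X i)) (by
      intro D q hD
      have h2 : ∀ y, aeval (fun i => algebraMap (MvPolynomial (Fin N) k) P.ResidueField (X i)) y =
          algebraMap (MvPolynomial (Fin N) k) P.ResidueField y := by
        intro y
        have h3 : (aeval (fun i => algebraMap (MvPolynomial (Fin N) k) P.ResidueField (X i)) :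
            MvPolynomial (Fin N) k →ₐ[k] P.ResidueField) =
            (IsScalarTower.toAlgHom k (MvPolynomial (Fin N) k) P.ResidueField) := by
          apply MvPolynomial.algHom_ext
          intro i
          rw [aeval_X]
          rfl
        rw [h3]
        rfl
      rw [h2, Ideal.algebraMap_residueField_eq_zero]
      exact h D q hD) s hs
  rwa [Ideal.algebraMap_residueField_eq_zero] at h1

include hgen hV in
/-- The quotient of an affine space by a homogeneous foliation. -/
theorem good_homF {p : ℕ} (hp : p.Prime) (hpk : (p : k) = 0) (h𝓕 : IsFol p n 𝓕)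
    (hw : ∃ i, 0 < w i) :
    Good k (isFilt_restr (isFilt_EI (X : Fin N → MvPolynomial (Fin N) k) w) (constF 𝓕)) ∧
      restr (EI (X : Fin N → MvPolynomial (Fin N) k) w) (constF 𝓕) 1 ≠ ⊥ := by
  have hF := isFilt_EI (X : Fin N → MvPolynomial (Fin N) k) w
  refine ⟨good_fol hp hpk h𝓕 hF (good_X w) ?_ ?_, ne_bot_fol hp hpk 𝓕 (one_ne_bot_X w hw)⟩
  · intro P hP h
    exact EI_le_of_minors w 𝓕 hV P hP fun D q hD => h D (fun j => X (q j)) hD
  · intro d hd a ha
    have h1 : EI (X : Fin N → MvPolynomial (Fin N) k) w 1 ≤
        (Ideal.span (MinH w 𝓕 n)).radical := by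
      rw [Ideal.radical_eq_sInf]
      refine le_sInf ?_
      rintro P ⟨hle, hP⟩
      refine EI_le_of_minors w 𝓕 hV P hP fun D q hD => ?_
      exact all_minors w 𝓕 hgen P (fun y hy => hle (Ideal.subset_span hy)) D hD q
    obtain ⟨M, hM⟩ := h1 (EI_anti _ w hd ha)
    refine ⟨M, ?_⟩
    have h2 := pow_mem_EI _ w ha M
    have h3 := comp_leadF w 𝓕 hM 1 (M * d)
    rw [one_mul] at h3
    have h4 := sub_comp_mem w h2
    have h5 : a ^ M = (a ^ M - weightedHomogeneousComponent w (M * d) (a ^ M)) +
        weightedHomogeneousComponent w (M * d) (a ^ M) := by ring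
    rw [h5]
    exact Ideal.add_mem _ (Ideal.mem_sup_left h4) h3

end main

end Q17.Res
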