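import Pool.Agent.Q17.Res.Act

/-! Quotients by finite groups of scalars acting by weighted polynomials. -/

set_option autoImplicit false
set_option linter.unusedSectionVars false

open Polynomial Pool.Agent.H920R2 Pool.Agent.H519R3.RS Pool.Agent.Y177.Ga

universe u v

namespace Q17.Res

section main

variable {k C : Type u} [Field k] [CommRing C] [IsDomain C] [Algebra k C]
  {A : AddSubgroup k} {σ : A → C →ₐ[k] C} {F : ℕ → Ideal C} {l : ℕ}
  (hσ : IsPA A σ F l) (hF : IsFilt F) (hl : 0 < l) (a₀ : A) (ha₀ : a₀ ≠ 0)
  (hlead : ∀ d, 1 ≤ d → ∀ a ∈ F d, ∃ N : ℕ, a ^ N ∈ leadI (fun c => σ a₀ c - c) F l (N * d))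
  {p : ℕ} (hp : p.Prime) (hpk : (p : k) = 0)

include hσ hF hlead hl hp hpk ha₀ in
/-- One step. -/
theorem good_step (T : AddSubgroup A) [Fintype T] (a : A) (ha : a ∉ T)
    (hfix : ∀ b ∈ T, ∀ P : Ideal C, P.IsPrime → (∀ c, σ (a + b) c - c ∈ P) → F 1 ≤ P)
    (hG : Good k (isFilt_restr hF (iv σ T))) (T' : AddSubgroup A)
    (hT' : ∀ x, x ∈ iv σ T' ↔ x ∈ iv σ T ∧ σ a x = x) :
    Good k (isFilt_restr hF (iv σ T')) := by
  classical
  let L := FractionRing C
  let g : C →ₐ[k] L := IsScalarTower.toAlgHom k C L
  have hinj : Function.Injective g := IsFractionRing.injective C L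
  let gT : iv σ T →ₐ[k] L := g.comp (iv σ T).val
  have hinjT : Function.Injective gT := hinj.comp Subtype.val_injective
  let τ : L ≃ₐ[k] L := ta L hσ a
  have hτ : ∀ b : C, τ (g b) = g (σ a b) := fun b => ta_map hσ a b
  have hpa : p • a = 0 := by
    apply Subtype.ext
    change ((p • a : A) : k) = 0
    rw [AddSubgroupClass.coe_nsmul, nsmul_eq_mul, hpk, zero_mul]
  have hcard : 0 < Fintype.card T := Fintype.card_pos
  have hle : iv σ T' ≤ iv σ T := fun x hx => ((hT' x).1 hx).1
  have hFT := isFilt_restr hF (iv σ T)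
  -- the Rees algebras
  let R := rG g hF
  let R' := rG gT hFT
  have hRR : R' ≤ R := by
    intro f hf d
    obtain ⟨b, hb, hb'⟩ := hf d
    exact ⟨b, hb, hb'⟩
  have hint : ∀ f ∈ R, IsIntegral R' f := by
    intro f hf
    refine int_group (fun b => (tl (ta L hσ b) : LP L →+* LP L)) T ?_ ?_ R R' ?_ ?_ f hf
    · intro b c x
      apply AddMonoidAlgebra.coeff_injective
      ext d
      change (tl (ta L hσ b) (tl (ta L hσ c) x)).coeff d = (tl (ta L hσ (b + c)) x).coeff d
      rw [tl_coeff, tl_coeff, tl_coeff, ta_add]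
    · intro x
      apply AddMonoidAlgebra.coeff_injective
      ext d
      change (tl (ta L hσ 0) x).coeff d = x.coeff d
      rw [tl_coeff, ta_zero]
    · intro b _ x hx d
      obtain ⟨c, hc, hc'⟩ := hx d
      refine ⟨σ b c, s_mem hσ hF b _ c hc, ?_⟩
      change _ = (tl (ta L hσ b) x).coeff d
      rw [tl_coeff, ← hc']
      exact (ta_map hσ b c).symm
    · intro x hx hxT d
      obtain ⟨c, hc, hc'⟩ := hx d
      have hcT : c ∈ iv σ T := by
        intro b hb
        apply hinj
        have h1 : (tl (ta L hσ b) x).coeff d = x.coeff d :=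
          congrArg (fun y : LP L => y.coeff d) (hxT b hb)
        rw [tl_coeff, ← hc'] at h1
        exact (ta_map hσ b c).symm.trans h1
      exact ⟨⟨c, hcT⟩, hc, hc'⟩
  refine good_fixE hp hpk (sT hσ T a) ?_ hFT hG (l := Fintype.card T * l)
    (Nat.mul_pos hcard hl) ?_ gT hinjT τ ?_ ?_ ?_ (Subalgebra.inclusion hle)
    (Subalgebra.inclusion_injective hle) ?_ (isFilt_restr hF (iv σ T')) (fun d c' => Iff.rfl)
  · -- order `p`
    intro b
    have h1 : ∀ (n : ℕ) (x : iv σ T), (((sT hσ T a)^[n] x : iv σ T) : C) =
        (σ a)^[n] (x : C) := by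
      intro n
      induction n with
      | zero => intro x; rfl
      | succ n ih =>
        intro x
        rw [Function.iterate_succ_apply, ih, Function.iterate_succ_apply, coe_sT]
    apply Subtype.ext
    rw [h1, s_iter hσ, hpa, hσ.zero]
  · intro d b hb
    exact s_sub_mem hσ hF T a d b hb b.2
  · intro b
    exact hτ b
  · intro x
    change (ta L hσ a)^[p] x = x
    rw [ta_iter, hpa, ta_zero]
  · -- the radical condition
    intro Q' hQ' hQ'T d x h hd
    let _ : Algebra R' R := (Subalgebra.inclusion hRR).toRingHom.toAlgebra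
    have hintA : Algebra.IsIntegral R' R := by
      constructor
      rintro ⟨f, hf⟩
      obtain ⟨P, hP, hP0⟩ := hint f hf
      refine ⟨P, hP, ?_⟩
      have h2 : Function.Injective R.val := Subtype.val_injective
      apply h2
      rw [map_zero, ← AlgHom.coe_toRingHom, Polynomial.hom_eval₂]
      exact hP0
    obtain ⟨Q, -, hQ, hQQ⟩ := Ideal.exists_ideal_over_prime_of_isIntegral Q' (⊥ : Ideal R) (by
      intro y hy
      rw [Ideal.mem_comap, Ideal.mem_bot] at hy
      have h1 : y = 0 := by
        apply Subtype.ext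
        have h2 : ((algebraMap R' R y : R) : LP L) = ((0 : R) : LP L) := congrArg Subtype.val hy
        exact h2
      rw [h1]
      exact Q'.zero_mem)
    have hto : ∀ (y : LP L) (hy : y ∈ R') (hy' : y ∈ R), (⟨y, hy⟩ : R') ∈ Q' ↔
        (⟨y, hy'⟩ : R) ∈ Q := by
      intro y hy hy'
      rw [← hQQ, Ideal.mem_comap]
      rfl
    rw [hto _ h (hRR h)]
    refine rad_main hσ hF hl a₀ ha₀ hlead g T a ?_ hfix Q hQ ?_ d x (hRR h) hd
    · intro b hb h0
      apply ha
      have : a = -b := eq_neg_of_add_eq_zero_left h0
      rw [this]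
      exact T.neg_mem hb
    · intro e c hc hcT
      have h1 : hm ((e : ℤ) + (Fintype.card T * l : ℕ))
          (gT (sT hσ T a ⟨c, hcT⟩ - ⟨c, hcT⟩)) ∈ R' := by
        refine hm_mem_rG gT hFT ?_
        have h2 : ((e : ℤ) + (Fintype.card T * l : ℕ)).toNat = e + Fintype.card T * l := by
          omega
        rw [h2]
        exact s_sub_mem hσ hF T a e c hc hcT
      have h2 := hQ'T e ⟨c, hcT⟩ (by rw [Int.toNat_natCast]; exact hc) h1
      rw [hto _ h1 (hRR h1)] at h2
      exact ⟨hRR h1, h2⟩
  · rintro ⟨b, hb⟩
    constructor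
    · intro h
      exact ⟨⟨b, (hT' b).2 ⟨hb, congrArg Subtype.val h⟩⟩, rfl⟩
    · rintro ⟨⟨b', hb'⟩, h⟩
      have h6 : b' = b := congrArg Subtype.val h
      subst h6
      exact Subtype.ext ((hT' b').1 hb').2

include hσ hF hlead hl hp hpk ha₀ in
/-- The invariants of a finite group of scalars. -/
theorem good_inv [Finite A] (hG : Good k hF) (hne : F 1 ≠ ⊥)
    (hfix : ∀ b : A, b ≠ 0 → ∀ P : Ideal C, P.IsPrime → (∀ c, σ b c - c ∈ P) → F 1 ≤ P) :
    Good k (isFilt_restr hF (iv σ ⊤)) ∧ restr F (iv σ ⊤) 1 ≠ ⊥ := by
  classical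
  have _ : Fintype A := Fintype.ofFinite A
  refine ⟨?_, ?_⟩
  · -- induction over finite subsets
    have key : ∀ s : Finset A,
        Good k (isFilt_restr hF (iv σ (AddSubgroup.closure (s : Set A)))) := by
      intro s
      induction s using Finset.induction_on with
      | empty =>
        refine (good_top hF hG hne ?_).1
        rw [eq_top_iff]
        intro x _ a ha
        rw [Finset.coe_empty, AddSubgroup.closure_empty, AddSubgroup.mem_bot] at ha
        rw [ha, hσ.zero]
      | insert a s has ih =>
        have h1 := ih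
        have hmem : ∀ x, x ∈ iv σ (AddSubgroup.closure ((insert a s : Finset A) : Set A)) ↔
            x ∈ iv σ (AddSubgroup.closure (s : Set A)) ∧ σ a x = x := by
          intro x
          constructor
          · intro hx
            refine ⟨fun b hb => hx b (AddSubgroup.closure_mono ?_ hb),
              hx a (AddSubgroup.subset_closure (by simp))⟩
            intro c hc
            exact Finset.mem_coe.2 (Finset.mem_insert_of_mem (Finset.mem_coe.1 hc))
          · rintro ⟨h2, h3⟩ b hb
            induction hb using AddSubgroup.closure_induction with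
            | mem b hb =>
              rcases Finset.mem_insert.1 (Finset.mem_coe.1 hb) with rfl | h4
              · exact h3
              · exact h2 b (AddSubgroup.subset_closure h4)
            | zero => rw [hσ.zero]
            | add b c _ _ hb hc => rw [← hσ.add, hc, hb]
            | neg b _ hb =>
              conv_lhs => rw [← hb]
              rw [hσ.add, neg_add_cancel, hσ.zero]
        by_cases haT : a ∈ AddSubgroup.closure (s : Set A)
        · have h2 : iv σ (AddSubgroup.closure ((insert a s : Finset A) : Set A)) =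
              iv σ (AddSubgroup.closure (s : Set A)) := by
            ext x
            rw [hmem]
            exact ⟨fun h => h.1, fun h => ⟨h, h a haT⟩⟩
          have h3 : ∀ (S S' : Subalgebra k C), S' = S → Good k (isFilt_restr hF S) →
              Good k (isFilt_restr hF S') := by
            rintro S S' rfl h
            exact h
          exact h3 _ _ h2 h1
        · have _ : Fintype (AddSubgroup.closure (s : Set A)) := Fintype.ofFinite _
          refine good_step hσ hF hl a₀ ha₀ hlead hp hpk (AddSubgroup.closure (s : Set A)) a haT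
            ?_ h1 _ hmem
          intro b hb
          refine hfix _ ?_
          intro h0
          apply haT
          have : a = -b := eq_neg_of_add_eq_zero_left h0
          rw [this]
          exact AddSubgroup.neg_mem _ hb
    have hcl : AddSubgroup.closure ((Finset.univ : Finset A) : Set A) = ⊤ := by
      rw [Finset.coe_univ, AddSubgroup.closure_univ]
    have h2 := key Finset.univ
    have h3 : ∀ (S S' : AddSubgroup A), S = S' → Good k (isFilt_restr hF (iv σ S)) →
        Good k (isFilt_restr hF (iv σ S')) := by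
      rintro S S' rfl h
      exact h
    exact h3 _ _ hcl h2
  · -- a nonzero invariant element
    obtain ⟨x, hx, hx0⟩ := Submodule.exists_mem_ne_zero_of_ne_bot hne
    let s : A → C →+* C := fun a => (σ a : C →+* C)
    have hadd : ∀ a b x, s a (s b x) = s (a + b) x := fun a b x => hσ.add a b x
    have h1 : (nr s (⊤ : AddSubgroup A) x).coeff 0 = ∏ b : (⊤ : AddSubgroup A), σ (b : A) x := by
      rw [coeff_zero_eq_eval_zero]
      unfold nr
      rw [eval_prod]
      refine Finset.prod_congr rfl fun b _ => ?_
      simp [s]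
    have h2 : ∏ b : (⊤ : AddSubgroup A), σ (b : A) x ∈ iv σ ⊤ := by
      intro a ha
      have h3 := nr_coeff_fixed s (⊤ : AddSubgroup A) hadd x a ha 0
      rw [h1] at h3
      exact h3
    have h3 : ∏ b : (⊤ : AddSubgroup A), σ (b : A) x ∈ F 1 := by
      rw [← Finset.mul_prod_erase Finset.univ (fun b : (⊤ : AddSubgroup A) => σ (b : A) x)
        (Finset.mem_univ (0 : (⊤ : AddSubgroup A)))]
      refine Ideal.mul_mem_right _ _ ?_
      rw [ZeroMemClass.coe_zero, hσ.zero]
      exact hx
    have h4 : ∏ b : (⊤ : AddSubgroup A), σ (b : A) x ≠ 0 := by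
      rw [Finset.prod_ne_zero_iff]
      intro b _ h5
      apply hx0
      have h6 := congrArg (σ (-(b : A))) h5
      rw [hσ.add, neg_add_cancel, hσ.zero, map_zero] at h6
      exact h6
    intro hbot
    have h6 : (⟨∏ b : (⊤ : AddSubgroup A), σ (b : A) x, h2⟩ : iv σ ⊤) ∈
        restr F (iv σ ⊤) 1 := h3
    rw [hbot, Ideal.mem_bot] at h6
    exact h4 (congrArg Subtype.val h6)

end main

end Q17.Res
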