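import Pool.Agent.H519R3.RS.Glob
import Pool.Agent.Q17.Res.Good
import Pool.Agent.Q17.Res.Step
import Pool.Agent.Q17.Res.Fol4

/-! Towers of quotients by finite groups and foliations: steps. -/

set_option autoImplicit false
set_option linter.unusedSectionVars false

open Pool.Agent.H920R2 Pool.Agent.H519R3.RS Pool.Agent.Y177.Ga

universe u v

namespace Q17.Res

section transfer

variable {k B : Type u} [Field k] [CommRing B] [IsDomain B] [Algebra k B] {F : ℕ → Ideal B}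
  (hF : IsFilt F)

lemma goodE_congr {C C' L : Type u} [CommRing C] [Algebra k C] [CommRing C'] [Algebra k C']
    [Field L] [Algebra k L] (g : C →ₐ[k] L) {F : ℕ → Ideal C} (hF : IsFilt F)
    (g' : C' →ₐ[k] L) {F' : ℕ → Ideal C'} (hF' : IsFilt F') (heq : rG g' hF' = rG g hF)
    (hG : GoodE g hF) : GoodE g' hF' := by
  have key : ∀ (R1 R2 : Subalgebra k (LP L)) (h12 : R1 = R2) (x : LP L) (h1 : x ∈ R1)
      (h2 : x ∈ R2), Algebra.Smooth k (loc R2 x h2) → Algebra.Smooth k (loc R1 x h1) := by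
    rintro R1 R2 rfl x h1 h2 h
    exact h
  have key2 : ∀ (R1 R2 : Subalgebra k (LP L)) (_ : R1 = R2), Algebra.FiniteType k R2 →
      Algebra.FiniteType k R1 := by
    rintro R1 R2 rfl h
    exact h
  refine ⟨key2 _ _ heq hG.ft, ?_⟩
  intro e η he he0 hη
  have he' : hm (e : ℤ) η ∈ rG g hF := by rw [← heq]; exact he
  exact key _ _ heq _ _ he' (hG.sm e η he' he0 hη)

/-- Transfer to a subalgebra of the ambient ring. -/
lemma good_sub (C : Subalgebra k B) (S : Subalgebra k C) (C' : Subalgebra k B)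
    (h : ∀ x, x ∈ C' ↔ ∃ hx : x ∈ C, (⟨x, hx⟩ : C) ∈ S)
    (hG : Good k (isFilt_restr (isFilt_restr hF C) S)) : Good k (isFilt_restr hF C') := by
  let L := FractionRing B
  let g : B →ₐ[k] L := IsScalarTower.toAlgHom k B L
  have hinj : Function.Injective g := IsFractionRing.injective B L
  let gS : S →ₐ[k] L := (g.comp C.val).comp S.val
  have hinjS : Function.Injective gS :=
    (hinj.comp Subtype.val_injective).comp Subtype.val_injective
  let gC' : C' →ₐ[k] L := g.comp C'.val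
  have hinjC' : Function.Injective gC' := hinj.comp Subtype.val_injective
  rw [good_iff gC' _ hinjC']
  refine goodE_congr gS (isFilt_restr (isFilt_restr hF C) S) gC' _ ?_ ((good_iff gS _ hinjS).1 hG)
  ext f
  constructor
  · intro hf d
    obtain ⟨b, hb, hb'⟩ := hf d
    obtain ⟨h1, h2⟩ := (h b).1 b.2
    exact ⟨⟨⟨b, h1⟩, h2⟩, hb, hb'⟩
  · intro hf d
    obtain ⟨b, hb, hb'⟩ := hf d
    exact ⟨⟨((b : C) : B), (h _).2 ⟨(b : C).2, b.2⟩⟩, hb, hb'⟩

lemma ne_bot_sub (C : Subalgebra k B) (S : Subalgebra k C) (C' : Subalgebra k B)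
    (h : ∀ x, x ∈ C' ↔ ∃ hx : x ∈ C, (⟨x, hx⟩ : C) ∈ S)
    (hG : restr (restr F C) S 1 ≠ ⊥) : restr F C' 1 ≠ ⊥ := by
  obtain ⟨x, hx, hx0⟩ := Submodule.exists_mem_ne_zero_of_ne_bot hG
  have h1 : ((x : C) : B) ∈ C' := (h _).2 ⟨(x : C).2, x.2⟩
  have h2 : (⟨((x : C) : B), h1⟩ : C') ∈ restr F C' 1 := hx
  intro hbot
  rw [hbot, Ideal.mem_bot] at h2
  apply hx0
  apply Subtype.ext
  apply Subtype.ext
  exact congrArg (fun y : C' => (y : B)) h2

end transfer

section steps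

variable {k B : Type u} [Field k] [CommRing B] [Algebra k B]

/-- `C'` is the ring of invariants of a finite `p`-group `G` which acts on `C` with linearly
independent leading forms: there is a series `1 = H 0 ⊂ H 1 ⊂ ... ⊂ H n = G`, each `H i` normal of
index `p` in the next one (`Ser`), with `H (i + 1)` generated by `H i` and `a i`, such that
* `a i - 1` raises the weights of the filtration by `m i > 0`,
* the fixed points of every element `g ≠ 1` lie in the centre,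
* the leading forms of `a 0 - 1, ..., a (n - 1) - 1` are linearly independent at every point of the
  special fibre outside the vertex: up to higher order, some power of every element `b` of positive
  weight is a combination of the minors `det (a i (c j) - c j)` (`leadM`). -/
def GStep (p : ℕ) (F : ℕ → Ideal B) (C C' : Subalgebra k B) : Prop :=
  ∃ (G : Type) (_ : Group G) (_ : Finite G) (ρ : G →* (C ≃ₐ[k] C)) (n : ℕ)
    (H : ℕ → Subgroup G) (a : ℕ → G) (m : ℕ → ℕ),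
    Ser p n H a ∧ (∀ i < n, 0 < m i) ∧
    (∀ i < n, ∀ d, ∀ c ∈ restr F C d, ρ (a i) c - c ∈ restr F C (d + m i)) ∧
    (∀ g : G, g ≠ 1 → ∀ P : Ideal C, P.IsPrime → (∀ c, ρ g c - c ∈ P) → restr F C 1 ≤ P) ∧
    (∀ d, 1 ≤ d → ∀ b ∈ restr F C d, ∃ N : ℕ,
      b ^ N ∈ leadM (fun (i : Fin n) c => ρ (a i) c - c) (restr F C) (fun i => m i) (N * d)) ∧
    ∀ x : B, x ∈ C' ↔ ∃ h : x ∈ C, ∀ g, ρ g ⟨x, h⟩ = ⟨x, h⟩

/-- `C'` is the ring of invariants of a finite additive group `A` of elements of the field `k`,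
which acts on `C` by weighted polynomials in the parameter: for `b` of weight `d` there is a
polynomial `P`, with coefficients `P j` of weight `d + j * l`, such that `σ a b = P (a)` for all `a`
in `A` (`IsPA`), `l > 0`, the fixed points of `σ b`, `b ≠ 0`, lie in the centre, and the leading form
of one `σ a₀ - 1`, `a₀ ≠ 0`, has no zeros outside the vertex (`leadI`). -/
def AStep (F : ℕ → Ideal B) (C C' : Subalgebra k B) : Prop :=
  ∃ (A : AddSubgroup k) (_ : Finite A) (σ : A → C →ₐ[k] C) (l : ℕ) (a₀ : A), 0 < l ∧ a₀ ≠ 0 ∧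
    IsPA A σ (restr F C) l ∧
    (∀ b : A, b ≠ 0 → ∀ P : Ideal C, P.IsPrime → (∀ c, σ b c - c ∈ P) → restr F C 1 ≤ P) ∧
    (∀ d, 1 ≤ d → ∀ b ∈ restr F C d, ∃ N : ℕ,
      b ^ N ∈ leadI (fun c => σ a₀ c - c) (restr F C) l (N * d)) ∧
    ∀ x : B, x ∈ C' ↔ ∃ h : x ∈ C, ∀ a, σ a ⟨x, h⟩ = ⟨x, h⟩

/-- `C'` is the ring of constants of a `p`-closed foliation `𝓕` of rank `n` of `C` (`IsFol`: a
`C`-module of derivations, closed under brackets and `p`-th powers, contained up to denominators in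
the span of `n` derivations), such that the zeros of the minors `det (X i (c j))` of `n` fields `X i`
of `𝓕` lie in the centre, and the leading forms of the fields of `𝓕` (which may raise or lower the
weights, `HasDeg`) have rank `n` at every point of the special fibre outside the vertex: up to
higher order, some power of every element `a` of positive weight is a combination of minors
`det (X i (c j))` (`leadF`). -/
def FStep (p : ℕ) (F : ℕ → Ideal B) (C C' : Subalgebra k B) : Prop :=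
  ∃ (n : ℕ) (𝓕 : Submodule C (Derivation k C C)), IsFol p n 𝓕 ∧
    (∀ P : Ideal C, P.IsPrime → (∀ (X : Fin n → Derivation k C C) (c : Fin n → C),
      (∀ i, X i ∈ 𝓕) → Matrix.det (Matrix.of fun i j => X i (c j)) ∈ P) → restr F C 1 ≤ P) ∧
    (∀ d, 1 ≤ d → ∀ a ∈ restr F C d, ∃ N : ℕ, a ^ N ∈ leadF n 𝓕 (restr F C) (N * d)) ∧
    ∀ x : B, x ∈ C' ↔ ∃ h : x ∈ C, ∀ D ∈ 𝓕, D ⟨x, h⟩ = 0

end steps

section good

variable {k B : Type u} [Field k] [CommRing B] [IsDomain B] [Algebra k B] {F : ℕ → Ideal B}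
  (hF : IsFilt F) {p : ℕ} (hp : p.Prime) (hpk : (p : k) = 0)

include hF hp hpk in
lemma good_gstep {C C' : Subalgebra k B} (h : GStep p F C C')
    (hG : Good k (isFilt_restr hF C)) (hne : restr F C 1 ≠ ⊥) :
    Good k (isFilt_restr hF C') ∧ restr F C' 1 ≠ ⊥ := by
  obtain ⟨G, _, _, ρ, n, H, a, m, h1, h2, h3, h4, h5, h6⟩ := h
  obtain ⟨h7, h8⟩ := g_good ρ (isFilt_restr hF C) hp hpk h1 m h2 h3 h4 h5 hG hne
  have h9 : ∀ x, x ∈ C' ↔ ∃ hx : x ∈ C, (⟨x, hx⟩ : C) ∈ gi ρ (⊤ : Subgroup G) := by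
    intro x
    rw [h6]
    exact ⟨fun ⟨h, h'⟩ => ⟨h, fun g _ => h' g⟩, fun ⟨h, h'⟩ => ⟨h, fun g => h' g trivial⟩⟩
  exact ⟨good_sub hF C _ C' h9 h7, ne_bot_sub C _ C' h9 h8⟩

include hF hp hpk in
lemma good_astep {C C' : Subalgebra k B} (h : AStep F C C')
    (hG : Good k (isFilt_restr hF C)) (hne : restr F C 1 ≠ ⊥) :
    Good k (isFilt_restr hF C') ∧ restr F C' 1 ≠ ⊥ := by
  obtain ⟨A, _, σ, l, a₀, hl, ha₀, h1, h2, h3, h6⟩ := h
  obtain ⟨h7, h8⟩ := good_inv h1 (isFilt_restr hF C) hl a₀ ha₀ h3 hp hpk hG hne h2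
  have h9 : ∀ x, x ∈ C' ↔ ∃ hx : x ∈ C, (⟨x, hx⟩ : C) ∈ iv σ ⊤ := by
    intro x
    rw [h6]
    exact ⟨fun ⟨h, h'⟩ => ⟨h, fun g _ => h' g⟩, fun ⟨h, h'⟩ => ⟨h, fun g => h' g trivial⟩⟩
  exact ⟨good_sub hF C _ C' h9 h7, ne_bot_sub C _ C' h9 h8⟩

include hF hp hpk in
lemma good_fstep {C C' : Subalgebra k B} (h : FStep p F C C')
    (hG : Good k (isFilt_restr hF C)) (hne : restr F C 1 ≠ ⊥) :
    Good k (isFilt_restr hF C') ∧ restr F C' 1 ≠ ⊥ := by
  obtain ⟨n, 𝓕, h1, h2, h3, h6⟩ := h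
  have h7 := good_fol hp hpk h1 (isFilt_restr hF C) hG h2 h3
  have h8 := ne_bot_fol hp hpk 𝓕 hne
  exact ⟨good_sub hF C (constF 𝓕) C' h6 h7, ne_bot_sub C (constF 𝓕) C' h6 h8⟩

/-- Denominators can be chosen invariant, one step. -/
lemma denom_gstep {C C' : Subalgebra k B} (h : GStep p F C C') (z : B) (hz : z ∈ C)
    (hz0 : z ≠ 0) : ∃ w : B, z * w ∈ C' ∧ z * w ≠ 0 := by
  classical
  obtain ⟨G, _, _, ρ, n, H, a, m, -, -, -, -, -, h6⟩ := h
  have _ : Fintype G := Fintype.ofFinite G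
  let y : C := ∏ b : G, ρ b ⟨z, hz⟩
  have e1 : y = ⟨z, hz⟩ * ∏ b ∈ Finset.univ.erase (1 : G), ρ b ⟨z, hz⟩ := by
    change ∏ b : G, ρ b ⟨z, hz⟩ = _
    rw [← Finset.mul_prod_erase Finset.univ (fun b : G => ρ b (⟨z, hz⟩ : C))
      (Finset.mem_univ (1 : G)), rho_one]
  refine ⟨((∏ b ∈ Finset.univ.erase (1 : G), ρ b ⟨z, hz⟩ : C) : B), ?_, ?_⟩
  · have e2 : z * ((∏ b ∈ Finset.univ.erase (1 : G), ρ b ⟨z, hz⟩ : C) : B) = (y : B) := by
      rw [e1]
      rfl
    rw [e2, h6]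
    refine ⟨y.2, fun g => ?_⟩
    change ρ g (∏ b : G, ρ b ⟨z, hz⟩) = ∏ b : G, ρ b ⟨z, hz⟩
    rw [map_prod]
    simp_rw [rho_mul]
    exact Equiv.prod_comp (Equiv.mulLeft g) (fun b => ρ b (⟨z, hz⟩ : C))
  · have hw : (∏ b ∈ Finset.univ.erase (1 : G), ρ b ⟨z, hz⟩ : C) ≠ 0 := by
      rw [Finset.prod_ne_zero_iff]
      intro b _ h5
      have h7 := (map_eq_zero_iff _ (ρ b).injective).1 h5
      exact hz0 (congrArg Subtype.val h7)
    exact mul_ne_zero hz0 fun h => hw (Subtype.ext h)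

lemma denom_astep {C C' : Subalgebra k B} (h : AStep F C C') (z : B) (hz : z ∈ C)
    (hz0 : z ≠ 0) : ∃ w : B, z * w ∈ C' ∧ z * w ≠ 0 := by
  classical
  obtain ⟨A, _, σ, l, a₀, -, -, h1, -, -, h6⟩ := h
  have _ : Fintype A := Fintype.ofFinite A
  let y : C := ∏ b : A, σ b ⟨z, hz⟩
  have e1 : y = ⟨z, hz⟩ * ∏ b ∈ Finset.univ.erase (0 : A), σ b ⟨z, hz⟩ := by
    change ∏ b : A, σ b ⟨z, hz⟩ = _
    rw [← Finset.mul_prod_erase Finset.univ (fun b : A => σ b (⟨z, hz⟩ : C))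
      (Finset.mem_univ (0 : A)), h1.zero]
  refine ⟨((∏ b ∈ Finset.univ.erase (0 : A), σ b ⟨z, hz⟩ : C) : B), ?_, ?_⟩
  · have e2 : z * ((∏ b ∈ Finset.univ.erase (0 : A), σ b ⟨z, hz⟩ : C) : B) = (y : B) := by
      rw [e1]
      rfl
    rw [e2, h6]
    refine ⟨y.2, fun g => ?_⟩
    change σ g (∏ b : A, σ b ⟨z, hz⟩) = ∏ b : A, σ b ⟨z, hz⟩
    rw [map_prod]
    simp_rw [h1.add]
    exact Equiv.prod_comp (Equiv.addLeft g) (fun b => σ b (⟨z, hz⟩ : C))
  · have hw : (∏ b ∈ Finset.univ.erase (0 : A), σ b ⟨z, hz⟩ : C) ≠ 0 := by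
      rw [Finset.prod_ne_zero_iff]
      intro b _ h5
      have h7 := congrArg (σ (-b)) h5
      rw [h1.add, neg_add_cancel, h1.zero, map_zero] at h7
      exact hz0 (congrArg Subtype.val h7)
    exact mul_ne_zero hz0 fun h => hw (Subtype.ext h)

include hp hpk in
lemma denom_fstep {C C' : Subalgebra k B} (h : FStep p F C C') (z : B) (hz : z ∈ C)
    (hz0 : z ≠ 0) : ∃ w : B, z * w ∈ C' ∧ z * w ≠ 0 := by
  obtain ⟨n, 𝓕, -, -, -, h6⟩ := h
  refine ⟨z ^ (p - 1), ?_, mul_ne_zero hz0 (pow_ne_zero _ hz0)⟩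
  have hpC : ((p : ℕ) : C) = 0 := by rw [← map_natCast (algebraMap k C), hpk, map_zero]
  have e1 : z * z ^ (p - 1) = (((⟨z, hz⟩ : C) ^ p : C) : B) := by
    rw [← pow_succ', Nat.sub_add_cancel hp.one_lt.le]
    rfl
  rw [e1, h6]
  refine ⟨((⟨z, hz⟩ : C) ^ p).2, fun D _ => ?_⟩
  change D ((⟨z, hz⟩ : C) ^ p) = 0
  rw [Derivation.leibniz_pow, nsmul_eq_mul, hpC, zero_mul]

end good

section tower

variable {k B : Type u} [Field k] [CommRing B] [IsDomain B] [Algebra k B] {p : ℕ}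
  (hp : p.Prime) (hpk : (p : k) = 0) {F : ℕ → Ideal B} (hF : IsFilt F)

include hp hpk hF in
/-- The members of a tower are good. -/
lemma good_towerS (hG : Good k hF) (hne : F 1 ≠ ⊥) {n : ℕ}
    {C : ℕ → Subalgebra k B} (hC0 : C 0 = ⊤)
    (hC : ∀ i < n, GStep p F (C i) (C (i + 1)) ∨ AStep F (C i) (C (i + 1)) ∨
      FStep p F (C i) (C (i + 1))) :
    Good k (isFilt_restr hF (C n)) ∧ restr F (C n) 1 ≠ ⊥ ∧
      ∀ z : B, z ≠ 0 → ∃ w : B, z * w ∈ C n ∧ z * w ≠ 0 := by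
  have key : ∀ i ≤ n, Good k (isFilt_restr hF (C i)) ∧ restr F (C i) 1 ≠ ⊥ ∧
      ∀ z : B, z ≠ 0 → ∃ w : B, z * w ∈ C i ∧ z * w ≠ 0 := by
    intro i
    induction i with
    | zero =>
      intro _
      obtain ⟨h1, h2⟩ := good_top hF hG hne hC0
      refine ⟨h1, h2, fun z hz => ⟨1, ?_, by rwa [mul_one]⟩⟩
      rw [hC0]
      trivial
    | succ i ih =>
      intro hi
      obtain ⟨h1, h2, h3⟩ := ih (by omega)
      rcases hC i (by omega) with h | h | h
      · obtain ⟨h4, h5⟩ := good_gstep hF hp hpk h h1 h2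
        refine ⟨h4, h5, fun z hz => ?_⟩
        obtain ⟨w, hw, hw0⟩ := h3 z hz
        obtain ⟨w', hw', hw0'⟩ := denom_gstep h _ hw hw0
        exact ⟨w * w', by rwa [← mul_assoc], by rwa [← mul_assoc]⟩
      · obtain ⟨h4, h5⟩ := good_astep hF hp hpk h h1 h2
        refine ⟨h4, h5, fun z hz => ?_⟩
        obtain ⟨w, hw, hw0⟩ := h3 z hz
        obtain ⟨w', hw', hw0'⟩ := denom_astep h _ hw hw0
        exact ⟨w * w', by rwa [← mul_assoc], by rwa [← mul_assoc]⟩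
      · obtain ⟨h4, h5⟩ := good_fstep hF hp hpk h h1 h2
        refine ⟨h4, h5, fun z hz => ?_⟩
        obtain ⟨w, hw, hw0⟩ := h3 z hz
        obtain ⟨w', hw', hw0'⟩ := denom_fstep hp hpk h _ hw hw0
        exact ⟨w * w', by rwa [← mul_assoc], by rwa [← mul_assoc]⟩
  exact key n le_rfl

end tower

end Q17.Res
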