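import Mathlib

/-! Products over finite groups, inertia and integrality. -/

set_option autoImplicit false
set_option linter.unusedSectionVars false

namespace Q17.Res

open Polynomial

section nr

variable {S G : Type*} [CommRing S] [Group G] (σ : G → S →+* S)
  (T : Subgroup G) [Fintype T]

/-- The product of the `X + σ b f`. -/
noncomputable def gnr (f : S) : S[X] := ∏ b : T, (X + C (σ (b : G) f))

variable (hmul : ∀ a b x, σ a (σ b x) = σ (a * b) x)

include hmul in
lemma map_gnr' (f : S) (a : G) : (gnr σ T f).map (σ a) = ∏ b : T, (X + C (σ (a * b) f)) := by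
  unfold gnr
  rw [Polynomial.map_prod]
  refine Finset.prod_congr rfl fun b _ => ?_
  rw [Polynomial.map_add, map_X, map_C, hmul]

include hmul in
lemma map_gnr (f : S) (c : G) (hc : c ∈ T) : (gnr σ T f).map (σ c) = gnr σ T f := by
  rw [map_gnr' σ T hmul f]
  exact Equiv.prod_comp (Equiv.mulLeft (⟨c, hc⟩ : T)) (fun b : T => (X + C (σ (b : G) f) : S[X]))

include hmul in
lemma gnr_coeff_fixed (f : S) (c : G) (hc : c ∈ T) (j : ℕ) :
    σ c ((gnr σ T f).coeff j) = (gnr σ T f).coeff j := by
  have h := congrArg (fun P : S[X] => P.coeff j) (map_gnr σ T hmul f c hc)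
  simpa [coeff_map] using h

lemma gnr_natDegree_le (f : S) : (gnr σ T f).natDegree ≤ Fintype.card T := by
  unfold gnr
  refine (natDegree_prod_le _ _).trans ?_
  have h1 : ∀ b : T, (X + C (σ (b : G) f) : S[X]).natDegree ≤ 1 := fun b =>
    (natDegree_add_le _ _).trans (max_le natDegree_X_le (by simp))
  refine (Finset.sum_le_sum fun b _ => h1 b).trans ?_
  simp

include hmul in
lemma gnr_identity (h1 : ∀ x, σ 1 x = x) (f : S) (a : G) :
    ∏ b : T, (σ (a * b) f - f) = ∑ j ∈ Finset.range (Fintype.card T + 1),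
      (σ a ((gnr σ T f).coeff j) - (gnr σ T f).coeff j) * (-f) ^ j := by
  have h1 : ((gnr σ T f).map (σ a) - gnr σ T f).eval (-f) = ∏ b : T, (σ (a * b) f - f) := by
    rw [eval_sub, map_gnr' σ T hmul f, eval_prod]
    have h2 : (gnr σ T f).eval (-f) = 0 := by
      unfold gnr
      rw [eval_prod]
      refine Finset.prod_eq_zero (Finset.mem_univ (1 : T)) ?_
      simp [h1]
    rw [h2, sub_zero]
    refine Finset.prod_congr rfl fun b _ => ?_
    simp only [eval_add, eval_X, eval_C]
    ring
  rw [← h1, eval_eq_sum_range' (n := Fintype.card T + 1)]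
  · refine Finset.sum_congr rfl fun j _ => ?_
    rw [coeff_sub, coeff_map]
  · refine Nat.lt_succ_of_le ?_
    refine (natDegree_sub_le _ _).trans (max_le ?_ (gnr_natDegree_le σ T f))
    exact natDegree_map_le.trans (gnr_natDegree_le σ T f)

end nr

section inertia

variable {S G : Type*} [CommRing S] [Group G] (σ : G → S →+* S)
  (T : Subgroup G) [Fintype T] (hmul : ∀ a b x, σ a (σ b x) = σ (a * b) x)
  (h1 : ∀ x, σ 1 x = x)

include hmul h1 in
/-- Inertia: if `σ a` acts trivially modulo the prime ideal `P` on the invariants of `T` then some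
`σ (a * b)`, `b` in `T`, acts trivially modulo `P`. -/
theorem ginertia (P : Ideal S) (hP : P.IsPrime) (a : G)
    (h : ∀ c, (∀ b ∈ T, σ b c = c) → σ a c - c ∈ P) :
    ∃ b ∈ T, ∀ t, σ (a * b) t - t ∈ P := by
  classical
  by_contra hcon
  push Not at hcon
  choose t ht using fun b : T => hcon b b.2
  let e : T ≃ Fin (Fintype.card T) := Fintype.equivFin T
  let f : S[X] := ∑ b : T, C (t b) * X ^ ((e b : Fin _) : ℕ)
  have hf : ∀ b : T, f.coeff (e b : Fin _) = t b := by
    intro b
    simp only [f, finsetSum_coeff, coeff_C_mul, coeff_X_pow]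
    rw [Finset.sum_eq_single b]
    · simp
    · intro b' _ hb'
      have h1 : ¬ ((e b : Fin _) : ℕ) = (e b' : Fin _) := by
        intro h2
        exact hb' (e.injective (Fin.ext h2.symm))
      simp [h1]
    · simp
  let σ' : G → S[X] →+* S[X] := fun a => Polynomial.mapRingHom (σ a)
  have hmul' : ∀ a b x, σ' a (σ' b x) = σ' (a * b) x := by
    intro a b x
    ext n
    simp only [σ', coe_mapRingHom, coeff_map]
    exact hmul a b _
  have h1' : ∀ x, σ' 1 x = x := by
    intro x
    ext n
    simp only [σ', coe_mapRingHom, coeff_map]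
    exact h1 _
  have hPX : (P.map (C : S →+* S[X])).IsPrime := Ideal.isPrime_map_C_of_isPrime
  have h1 : ∏ b : T, (σ' (a * b) f - f) ∈ P.map (C : S →+* S[X]) := by
    rw [gnr_identity σ' T hmul' h1']
    refine Ideal.sum_mem _ fun j _ => Ideal.mul_mem_right _ _ ?_
    rw [Ideal.mem_map_C_iff]
    intro n
    rw [coeff_sub]
    change (((gnr σ' T f).coeff j).map (σ a)).coeff n - _ ∈ P
    rw [coeff_map]
    refine h _ fun b hb => ?_
    have h2 := gnr_coeff_fixed σ' T hmul' f b hb j
    have h3 := congrArg (fun Q : S[X] => Q.coeff n) h2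
    simpa [σ', coeff_map] using h3
  obtain ⟨b, -, hb⟩ := (Ideal.IsPrime.prod_mem_iff (hp := hPX)).1 h1
  rw [Ideal.mem_map_C_iff] at hb
  have h2 := hb (e b : Fin _)
  rw [coeff_sub, hf] at h2
  change ((f.map (σ (a * b))).coeff (e b : Fin _)) - _ ∈ P at h2
  rw [coeff_map, hf] at h2
  exact ht b h2

end inertia

section integral

variable {k S G : Type*} [CommRing k] [CommRing S] [Algebra k S] [Group G]
  (σ : G → S →+* S) (T : Subgroup G) [Fintype T]
  (hmul : ∀ a b x, σ a (σ b x) = σ (a * b) x) (h1 : ∀ x, σ 1 x = x)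

include hmul h1 in
/-- Integrality over the invariants of a finite group. -/
lemma gint_group (R R' : Subalgebra k S) (hR : ∀ a ∈ T, ∀ x ∈ R, σ a x ∈ R)
    (hR' : ∀ x ∈ R, (∀ b ∈ T, σ b x = x) → x ∈ R') (f : S) (hf : f ∈ R) :
    IsIntegral R' f := by
  have hnf : ∀ b : T, σ (b : G) (-f) ∈ R := fun b => hR b b.2 _ (R.neg_mem hf)
  let P : S[X] := gnr σ T (-f)
  have hP : P.Monic := Polynomial.monic_prod_of_monic _ _ fun b _ => Polynomial.monic_X_add_C _
  let P0 : R[X] := ∏ b : T, (X + C (⟨σ (b : G) (-f), hnf b⟩ : R))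
  have hP0 : P0.map (R.val : R →+* S) = P := by
    simp only [P, P0, gnr, Polynomial.map_prod, Polynomial.map_add, Polynomial.map_X,
      Polynomial.map_C]
    rfl
  have hcoeff : ∀ i, P.coeff i ∈ R' := by
    intro i
    refine hR' _ ?_ fun b hb => gnr_coeff_fixed σ T hmul (-f) b hb i
    rw [← hP0, Polynomial.coeff_map]
    exact (P0.coeff i).2
  have hsub : ((P.coeffs : Set S)) ⊆ R'.toSubring := by
    intro c hc
    obtain ⟨i, -, rfl⟩ := Polynomial.mem_coeffs_iff.1 hc
    exact hcoeff i
  refine ⟨P.toSubring _ hsub, (Polynomial.monic_toSubring _ _ hsub).2 hP, ?_⟩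
  have h7 : Polynomial.eval₂ R'.toSubring.subtype f (P.toSubring _ hsub) =
      Polynomial.eval f P := by
    rw [Polynomial.eval₂_eq_eval_map, Polynomial.map_toSubring]
  change Polynomial.eval₂ R'.toSubring.subtype f _ = 0
  rw [h7]
  change Polynomial.eval f (gnr σ T (-f)) = 0
  unfold gnr
  rw [Polynomial.eval_prod]
  refine Finset.prod_eq_zero (Finset.mem_univ (1 : T)) ?_
  simp [h1]

end integral

end Q17.Res
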