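import Pool.Agent.Q17.Res.Lead

/-! Quotients by finite groups whose leading forms are linearly independent. -/

set_option autoImplicit false
set_option linter.unusedSectionVars false

open Pool.Agent.H920R2 Pool.Agent.H519R3.RS Pool.Agent.Y177.Ga

universe u v

namespace Q17.Res

section inv

variable {k C : Type u} [Field k] [CommRing C] [Algebra k C] {G : Type v} [Group G]
  (ρ : G →* (C ≃ₐ[k] C))

/-- The invariants of a subgroup. -/
noncomputable def gi (T : Subgroup G) : Subalgebra k C where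
  carrier := {c | ∀ g ∈ T, ρ g c = c}
  mul_mem' := fun hx hy a ha => by rw [map_mul, hx a ha, hy a ha]
  add_mem' := fun hx hy a ha => by rw [map_add, hx a ha, hy a ha]
  algebraMap_mem' := fun c a _ => AlgEquiv.commutes _ c

lemma mem_gi {T : Subgroup G} {c : C} : c ∈ gi ρ T ↔ ∀ g ∈ T, ρ g c = c := Iff.rfl

lemma rho_mul (a b : G) (x : C) : ρ a (ρ b x) = ρ (a * b) x := by rw [map_mul]; rfl

lemma rho_one (x : C) : ρ 1 x = x := by rw [map_one]; rfl

lemma rho_iter (n : ℕ) (a : G) (x : C) : (ρ a)^[n] x = ρ (a ^ n) x := by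
  induction n generalizing x with
  | zero => rw [Function.iterate_zero, id, pow_zero, rho_one]
  | succ n ih => rw [Function.iterate_succ_apply, ih, rho_mul, pow_succ]

lemma rho_gi {T : Subgroup G} {a : G} (ha : a ∈ Subgroup.normalizer (T : Set G)) (x : C)
    (hx : x ∈ gi ρ T) : ρ a x ∈ gi ρ T := by
  intro h hh
  have h2 : a⁻¹ * h * a ∈ T := by
    have h3 := Subgroup.mem_normalizer_iff.1 (Subgroup.inv_mem _ ha) h
    rw [inv_inv] at h3
    exact h3.1 hh
  have h4 : h * a = a * (a⁻¹ * h * a) := by group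
  rw [rho_mul, h4, ← rho_mul, hx _ h2]

/-- The action on the invariants. -/
noncomputable def gT {T : Subgroup G} {a : G} (ha : a ∈ Subgroup.normalizer (T : Set G)) :
    gi ρ T ≃ₐ[k] gi ρ T :=
  AlgEquiv.ofAlgHom
    ((((ρ a : C ≃ₐ[k] C) : C →ₐ[k] C).comp (gi ρ T).val).codRestrict (gi ρ T)
      fun x => rho_gi ρ ha x x.2)
    ((((ρ a⁻¹ : C ≃ₐ[k] C) : C →ₐ[k] C).comp (gi ρ T).val).codRestrict (gi ρ T)
      fun x => rho_gi ρ (Subgroup.inv_mem _ ha) x x.2)
    (AlgHom.ext fun x => by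
      apply Subtype.ext
      change ρ a (ρ a⁻¹ x) = x
      rw [rho_mul, mul_inv_cancel, rho_one])
    (AlgHom.ext fun x => by
      apply Subtype.ext
      change ρ a⁻¹ (ρ a x) = x
      rw [rho_mul, inv_mul_cancel, rho_one])

lemma coe_gT {T : Subgroup G} {a : G} (ha : a ∈ Subgroup.normalizer (T : Set G)) (x : gi ρ T) :
    ((gT ρ ha x : gi ρ T) : C) = ρ a x := rfl

end inv

section tau

variable {k C L : Type u} [Field k] [CommRing C] [IsDomain C] [Algebra k C] [Field L]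
  [Algebra k L] [Algebra C L] [IsScalarTower k C L] [IsFractionRing C L]
  {G : Type v} [Group G] (ρ : G →* (C ≃ₐ[k] C))

/-- The extension of the action to the field of fractions. -/
noncomputable def tg (L : Type u) [Field L] [Algebra k L] [Algebra C L] [IsScalarTower k C L]
    [IsFractionRing C L] (ρ : G →* (C ≃ₐ[k] C)) (a : G) : L ≃ₐ[k] L :=
  IsFractionRing.fieldEquivOfAlgEquiv k L L (ρ a)

lemma tg_map (a : G) (b : C) : tg L ρ a (algebraMap C L b) = algebraMap C L (ρ a b) :=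
  IsFractionRing.fieldEquivOfAlgEquiv_algebraMap k L L (ρ a) b

lemma tg_mul (a b : G) (x : L) : tg L ρ a (tg L ρ b x) = tg L ρ (a * b) x := by
  obtain ⟨y, z, -, rfl⟩ := IsFractionRing.div_surjective (A := C) x
  simp only [map_div₀, tg_map, rho_mul]

lemma tg_one (x : L) : tg L ρ 1 x = x := by
  obtain ⟨y, z, -, rfl⟩ := IsFractionRing.div_surjective (A := C) x
  simp only [map_div₀, tg_map, rho_one]

lemma tg_iter (n : ℕ) (a : G) (x : L) : (tg L ρ a)^[n] x = tg L ρ (a ^ n) x := by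
  induction n generalizing x with
  | zero => rw [Function.iterate_zero, id, pow_zero, tg_one]
  | succ n ih => rw [Function.iterate_succ_apply, ih, tg_mul, pow_succ]

lemma tl_mul (a b : G) (x : LP L) : tl (tg L ρ a) (tl (tg L ρ b) x) = tl (tg L ρ (a * b)) x := by
  apply AddMonoidAlgebra.coeff_injective
  ext d
  rw [tl_coeff, tl_coeff, tl_coeff, tg_mul]

lemma tl_one (x : LP L) : tl (tg L ρ 1) x = x := by
  apply AddMonoidAlgebra.coeff_injective
  ext d
  rw [tl_coeff, tg_one]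

end tau

section main

variable {k C : Type u} [Field k] [CommRing C] [IsDomain C] [Algebra k C] {G : Type v} [Group G]
  [Finite G] (ρ : G →* (C ≃ₐ[k] C)) {F : ℕ → Ideal C} (hF : IsFilt F) {p : ℕ} (hp : p.Prime)
  (hpk : (p : k) = 0) {n : ℕ} {H : ℕ → Subgroup G} {a : ℕ → G} (hser : Ser p n H a) (m : ℕ → ℕ)
  (hm0 : ∀ i < n, 0 < m i)
  (hdiv : ∀ i < n, ∀ d, ∀ c ∈ F d, ρ (a i) c - c ∈ F (d + m i))

include hF hser hdiv in
lemma stab (g : G) (d : ℕ) (c : C) (hc : c ∈ F d) : ρ g c ∈ F d := by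
  let S : Subgroup G :=
    { carrier := {g | ∀ d c, c ∈ F d ↔ ρ g c ∈ F d}
      mul_mem' := fun {g h} hg hh d c => by rw [← rho_mul, ← hg, ← hh]
      one_mem' := fun d c => by rw [rho_one]
      inv_mem' := fun {g} hg d c => by rw [hg d (ρ g⁻¹ c), rho_mul, mul_inv_cancel, rho_one] }
  have h1 : ∀ i < n, a i ∈ S := by
    intro i hi
    have h2 : ∀ d c, c ∈ F d → ρ (a i) c ∈ F d := by
      intro d c hc
      have h3 := hF.anti _ _ (Nat.le_add_right d (m i)) (hdiv i hi d c hc)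
      have h4 := (F d).add_mem h3 hc
      rwa [sub_add_cancel] at h4
    intro d c
    refine ⟨h2 d c, fun hc => ?_⟩
    have h3 : ∀ (j : ℕ) c, c ∈ F d → (ρ (a i))^[j] c ∈ F d := by
      intro j
      induction j with
      | zero => intro c hc; exact hc
      | succ j ih =>
        intro c hc
        rw [Function.iterate_succ_apply]
        exact ih _ (h2 d c hc)
    have h4 := h3 (orderOf (a i) - 1) _ hc
    rw [← Function.iterate_succ_apply (ρ (a i)), rho_iter] at h4
    have h5 : 0 < orderOf (a i) := orderOf_pos (a i)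
    have h6 : (orderOf (a i) - 1).succ = orderOf (a i) := by omega
    rwa [h6, pow_orderOf_eq_one, rho_one] at h4
  have h2 : ∀ i, i ≤ n → H i ≤ S := by
    intro i
    induction i with
    | zero => intro _; rw [hser.bot]; exact bot_le
    | succ i ih =>
      intro hi
      rw [hser.gen i hi, sup_le_iff, Subgroup.zpowers_le]
      exact ⟨ih (by omega), h1 i hi⟩
  have h3 : g ∈ S := by
    apply h2 n le_rfl
    rw [hser.top]
    trivial
  exact (h3 d c).1 hc

variable (hfix : ∀ g : G, g ≠ 1 → ∀ P : Ideal C, P.IsPrime → (∀ c, ρ g c - c ∈ P) → F 1 ≤ P)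
  (hlead : ∀ d, 1 ≤ d → ∀ b ∈ F d, ∃ N : ℕ,
    b ^ N ∈ leadM (fun (i : Fin n) c => ρ (a i) c - c) F (fun i => m i) (N * d))

include hF hp hpk hser hm0 hdiv hlead in
/-- The radical condition in the special fibre. -/
theorem g_rad_special {L : Type u} [Field L] [Algebra k L] (g : C →ₐ[k] L)
    (hinj : Function.Injective g) (tt : G → L ≃ₐ[k] L)
    (htm : ∀ b c x, tt b (tt c x) = tt (b * c) x) (hto : ∀ x, tt 1 x = x)
    (hg : ∀ (b : G) (c : C), tt b (g c) = g (ρ b c))
    {K : Type u} [Field K] (φ : rG g hF →+* K) (Q : Ideal (rG g hF)) (hQ : Q.IsPrime)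
    (hφ : ∀ x, φ x = 0 ↔ x ∈ Q) (hs : (⟨hm (-1) 1, s_rG g hF⟩ : rG g hF) ∈ Q)
    {i : ℕ} (hi : i < n)
    (hQT : ∀ (e : ℕ) (c : C), c ∈ F e → c ∈ gi ρ (H i) →
      JQ g hF Q ((e : ℤ) + (m i : ℕ)) (ρ (a i) c - c))
    (d : ℕ) (x : L) (h : hm d x ∈ rG g hF) (hd : 0 < d) :
    (⟨hm d x, h⟩ : rG g hF) ∈ Q := by
  classical
  by_contra hcon
  have hstR : ∀ b : G, ∀ f ∈ rG g hF, tl (tt b) f ∈ rG g hF := by
    intro b f hf d
    obtain ⟨c, hc, hc'⟩ := hf d
    refine ⟨ρ b c, stab ρ hF hser m hdiv b _ c hc, ?_⟩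
    rw [tl_coeff, ← hc', hg]
  let τ : G → rG g hF →+* rG g hF := fun b =>
    { toFun := fun x => ⟨tl (tt b) x, hstR b x x.2⟩
      map_one' := Subtype.ext (map_one (tl (tt b)))
      map_mul' := fun x y => Subtype.ext (map_mul (tl (tt b)) (x : LP L) y)
      map_zero' := Subtype.ext (map_zero (tl (tt b)))
      map_add' := fun x y => Subtype.ext (map_add (tl (tt b)) (x : LP L) y) }
  have hτ : ∀ b (x : rG g hF), ((τ b x : rG g hF) : LP L) = tl (tt b) x := fun b x => rfl
  have hmul : ∀ b c x, τ b (τ c x) = τ (b * c) x := by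
    intro b c x
    apply Subtype.ext
    rw [hτ, hτ, hτ]
    apply AddMonoidAlgebra.coeff_injective
    ext d
    rw [tl_coeff, tl_coeff, tl_coeff, htm]
  have hone : ∀ x, τ 1 x = x := by
    intro x
    apply Subtype.ext
    rw [hτ]
    apply AddMonoidAlgebra.coeff_injective
    ext d
    rw [tl_coeff, hto]
  let s : rG g hF := ⟨hm (-1) 1, s_rG g hF⟩
  have hs0 : s ≠ 0 := by
    intro h0
    have h1 : (hm (-1) 1 : LP L) = hm (-1) 0 := by
      rw [hm_zero]
      exact congrArg Subtype.val h0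
    exact one_ne_zero (hm_inj h1)
  have hτs : ∀ b, τ b s = s := by
    intro b
    apply Subtype.ext
    rw [hτ]
    change tl (tt b) (hm (-1) 1) = hm (-1) 1
    rw [tl_hm, map_one]
  have hDm : ∀ i < n, ∀ f ∈ rG g hF, hm (m i) 1 * (tl (tt (a i)) f - f) ∈ rG g hF := fun i hi =>
    hD_of g (ρ (a i)) (tt (a i)) (fun b => hg _ b) hF (hdiv i hi)
  let D : ℕ → rG g hF → rG g hF := fun i x => if hi : i < n then ⟨_, hDm i hi x x.2⟩ else 0
  have hDc : ∀ i < n, ∀ x : rG g hF, ((D i x : rG g hF) : LP L) =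
      hm (m i : ℤ) (1 : L) * (tl (tt (a i)) (x : LP L) - (x : LP L)) := by
    intro i hi x
    simp only [D]
    rw [dif_pos hi]
  have hsm : ∀ i : ℕ, ((s ^ m i : rG g hF) : LP L) * hm (m i) 1 = 1 := by
    intro i
    change (hm (-1) 1 : LP L) ^ m i * hm (m i) 1 = 1
    rw [hm_pow, hm_mul, one_pow, one_mul]
    have : ((m i : ℕ) : ℤ) * (-1) + (m i : ℕ) = 0 := by ring
    rw [this, hm_one]
  have hD : ∀ i < n, ∀ x, s ^ m i * D i x = τ (a i) x - x := by
    intro i hi x
    apply Subtype.ext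
    change ((s ^ m i : rG g hF) : LP L) * ((D i x : rG g hF) : LP L) =
      tl (tt (a i)) (x : LP L) - (x : LP L)
    rw [hDc i hi, ← mul_assoc, hsm, one_mul]
  have hpR : (p : rG g hF) = 0 := by
    have h1 := congrArg (algebraMap k (rG g hF)) hpk
    rwa [map_natCast, map_zero] at h1
  -- homogeneous elements
  have hDhm : ∀ i < n, ∀ (e : ℕ) (c : C) (hc : hm (e : ℤ) (g c) ∈ rG g hF),
      ((D i ⟨_, hc⟩ : rG g hF) : LP L) = hm ((e : ℤ) + m i) (g (ρ (a i) c - c)) := by
    intro i hi e c hc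
    rw [hDc i hi]
    change hm (m i) 1 * (tl (tt (a i)) (hm (e : ℤ) (g c)) - hm (e : ℤ) (g c)) = _
    rw [tl_hm, hg, ← hm_sub, hm_mul, one_mul, ← map_sub, add_comm]
  have hind : ∀ c : ℕ → K, (∀ x, ∑ i ∈ Finset.range n, c i * φ (D i x) = 0) →
      ∀ i < n, c i = 0 := by
    intro c hc i hi
    by_contra hci
    apply hcon
    refine lead_minors g hF (fun (i : Fin n) c => ρ (a i) c - c) (fun i => m i) hlead Q hQ ?_ hs
      d x h hd
    intro e b hb
    let X : Fin n → rG g hF := fun j => ⟨hm (e j : ℤ) (g (b j)), hm_mem_rG g hF (by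
      rw [Int.toNat_natCast]; exact hb j)⟩
    let M : Matrix (Fin n) (Fin n) (rG g hF) := Matrix.of fun i j => D i (X j)
    have h1 : ((M.det : rG g hF) : LP L) = hm ((∑ j : Fin n, (e j + m j) : ℕ) : ℤ)
        (g (Matrix.det (Matrix.of fun i j => ρ (a (i : Fin n)) (b j) - b j))) := by
      change ((rG g hF).val : rG g hF →+* LP L) M.det = _
      rw [RingHom.map_det]
      rw [← det_hm g e (fun j : Fin n => m j)]
      congr 1
      ext1 i j
      rw [RingHom.mapMatrix_apply, Matrix.map_apply, Matrix.of_apply]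
      exact hDhm i i.2 (e j) (b j) _
    have h2 : φ M.det = 0 := by
      rw [RingHom.map_det]
      apply (Matrix.exists_vecMul_eq_zero_iff (M := φ.mapMatrix M)).1
      refine ⟨fun i => c i, ?_, ?_⟩
      · intro h0
        exact hci (congrFun h0 ⟨i, hi⟩)
      · ext j
        rw [Matrix.vecMul, dotProduct, Pi.zero_apply]
        have h3 := hc (X j)
        rw [Finset.sum_range] at h3
        exact h3
    rw [hφ] at h2
    have hmem : hm ((∑ j : Fin n, (e j + m j) : ℕ) : ℤ)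
        (g (Matrix.det (Matrix.of fun i j => ρ (a (i : Fin n)) (b j) - b j))) ∈ rG g hF := by
      rw [← h1]
      exact (M.det).2
    refine ⟨hmem, ?_⟩
    have h3 : (⟨_, hmem⟩ : rG g hF) = M.det := Subtype.ext h1.symm
    rw [h3]
    exact h2
  obtain ⟨y, hy, hy0⟩ := exists_ne φ hp hpR τ hmul hone s hs0 ((hφ s).2 hs) hτs hser m hm0 D hD
    hind hi
  apply hy0
  rw [hφ]
  -- `D i y` is in `Q`
  have h1 : ∀ (e : ℕ) (c : C), c ∈ F e → c ∈ gi ρ (H i) → ∀ hc : hm (e : ℤ) (g c) ∈ rG g hF,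
      D i ⟨_, hc⟩ ∈ Q := by
    intro e c hce hci hc
    obtain ⟨h2, h3⟩ := hQT e c hce hci
    have h4 : D i ⟨_, hc⟩ = (⟨_, h2⟩ : rG g hF) := Subtype.ext (hDhm i hi e c hc)
    rw [h4]
    exact h3
  have htw := tw τ s hs0 hτs m D hD hi
  have hcoef : ∀ e : ℤ, ∃ c ∈ F e.toNat, g c = (y : LP L).coeff e ∧ c ∈ gi ρ (H i) := by
    intro e
    obtain ⟨c, hc, hc'⟩ := y.2 e
    refine ⟨c, hc, hc', fun b hb => ?_⟩
    apply hinj
    have h2 := congrArg (fun z : rG g hF => (z : LP L).coeff e) (hy b hb)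
    simp only [hτ] at h2
    rw [tl_coeff, ← hc', hg] at h2
    exact h2
  have h2 : (y : LP L) = ∑ e ∈ (y : LP L).coeff.support, hm e ((y : LP L).coeff e) :=
    eq_sum_hm _
  have h3 : ∀ e : ℤ, hm e ((y : LP L).coeff e) ∈ rG g hF := fun e => gr_rG g hF _ y.2 e
  have h4 : y = ∑ e ∈ (y : LP L).coeff.support,
      (⟨hm e ((y : LP L).coeff e), h3 e⟩ : rG g hF) := by
    apply Subtype.ext
    rw [AddSubmonoidClass.coe_finsetSum]
    exact h2
  rw [h4, htw.sum]
  refine Ideal.sum_mem _ fun e _ => ?_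
  obtain ⟨c, hc, hc', hci⟩ := hcoef e
  rcases lt_or_ge e 0 with he | he
  · -- negative degrees
    obtain ⟨j, hj⟩ : ∃ j : ℕ, e = -(j : ℤ) := ⟨(-e).toNat, by omega⟩
    have h5 : (⟨hm e ((y : LP L).coeff e), h3 e⟩ : rG g hF) =
        s ^ j * ⟨hm ((0 : ℕ) : ℤ) (g c), by
          rw [Nat.cast_zero]; exact b_rG g hF c⟩ := by
      apply Subtype.ext
      change hm e ((y : LP L).coeff e) = (hm (-1) 1 : LP L) ^ j * hm ((0 : ℕ) : ℤ) (g c)
      rw [hm_pow, hm_mul, one_pow, one_mul, hc', Nat.cast_zero, add_zero]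
      congr 1
      rw [hj]; ring
    rw [h5]
    have h6 : ∀ j : ℕ, D i (s ^ j) = 0 := by
      intro j
      rw [D_zero_iff τ s m D hs0 hD hi, map_pow, hτs]
    rw [htw.lin (h6 j)]
    exact Ideal.mul_mem_left _ _ (h1 0 c (by rw [hF.zero]; trivial) hci _)
  · obtain ⟨j, hj⟩ : ∃ j : ℕ, e = (j : ℤ) := ⟨e.toNat, by omega⟩
    subst hj
    have h5 := h1 j c (by rwa [Int.toNat_natCast] at hc) hci (by rw [hc']; exact h3 _)
    have h6 : (⟨hm (j : ℤ) ((y : LP L).coeff (j : ℤ)), h3 _⟩ : rG g hF) =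
        ⟨hm (j : ℤ) (g c), by rw [hc']; exact h3 _⟩ := by
      apply Subtype.ext
      change hm (j : ℤ) ((y : LP L).coeff (j : ℤ)) = hm (j : ℤ) (g c)
      rw [hc']
    rw [h6]
    exact h5

include hF hp hpk hser hm0 hdiv hfix hlead in
/-- The radical condition. -/
theorem g_rad {L : Type u} [Field L] [Algebra k L] (g : C →ₐ[k] L)
    (hinj : Function.Injective g) (tt : G → L ≃ₐ[k] L)
    (htm : ∀ b c x, tt b (tt c x) = tt (b * c) x) (hto : ∀ x, tt 1 x = x)
    (hg : ∀ (b : G) (c : C), tt b (g c) = g (ρ b c))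
    {i : ℕ} (hi : i < n) (Q : Ideal (rG g hF)) (hQ : Q.IsPrime)
    (hQT : ∀ (e : ℕ) (c : C), c ∈ F e → c ∈ gi ρ (H i) →
      JQ g hF Q ((e : ℤ) + (m i : ℕ)) (ρ (a i) c - c))
    (d : ℕ) (x : L) (h : hm d x ∈ rG g hF) (hd : 0 < d) :
    (⟨hm d x, h⟩ : rG g hF) ∈ Q := by
  classical
  by_cases hs : (⟨hm (-1) 1, s_rG g hF⟩ : rG g hF) ∈ Q
  · -- the special fibre
    exact g_rad_special ρ hF hp hpk hser m hm0 hdiv hlead g hinj tt htm hto hg
      (K := Q.ResidueField) (algebraMap (rG g hF) Q.ResidueField) Q hQ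
      (fun x => Ideal.algebraMap_residueField_eq_zero) hs hi hQT d x h hd
  · -- the general fibre
    have _ : Fintype (H i) := Fintype.ofFinite _
    let ib : C →+* rG g hF :=
      { toFun := fun b => ⟨hm 0 (g b), b_rG g hF b⟩
        map_one' := Subtype.ext (by change hm 0 (g 1) = 1; rw [map_one, hm_one])
        map_mul' := fun a b => Subtype.ext (by
          change hm 0 (g (a * b)) = hm 0 (g a) * hm 0 (g b)
          rw [map_mul, hm_mul, add_zero])
        map_zero' := Subtype.ext (by change hm 0 (g 0) = 0; rw [map_zero, hm_zero])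
        map_add' := fun a b => Subtype.ext (by
          change hm 0 (g (a + b)) = hm 0 (g a) + hm 0 (g b)
          rw [map_add, hm_add]) }
    have hib : ∀ c, JQ g hF Q 0 c → c ∈ Q.comap ib := by
      rintro c ⟨h1, h2⟩
      exact h2
    have hP : (Q.comap ib).IsPrime := hQ.comap _
    obtain ⟨b, hb, h1⟩ := ginertia (fun b => ((ρ b : C ≃ₐ[k] C) : C →+* C)) (H i)
      (fun b c x => rho_mul ρ b c x) (fun x => rho_one ρ x) (Q.comap ib) hP (a i) (by
      intro c hc
      apply hib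
      have h2 := hQT 0 c (by rw [hF.zero]; trivial) hc
      refine JQ.down g hF (m i) ?_
      rw [Nat.cast_zero] at h2
      exact h2)
    have hne : a i * b ≠ 1 := by
      intro h0
      apply hser.notMem i hi
      rw [eq_inv_of_mul_eq_one_left h0]
      exact (H i).inv_mem hb
    have h2 := hfix (a i * b) hne (Q.comap ib) hP h1
    obtain ⟨y, hy, hyx⟩ := of_hm_mem_rG g hF h
    rw [Int.toNat_natCast] at hy
    subst hyx
    have h3 : y ∈ Q.comap ib := h2 (hF.anti 1 d hd hy)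
    have h4 : JQ g hF Q 0 y := ⟨_, h3⟩
    obtain ⟨h5, h6⟩ := JQ.up g hF hQ hs d h4 (by rw [zero_add]; exact h)
    simp only [zero_add] at h6
    exact h6

end main

end Q17.Res
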