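import Pool.Agent.Q17.Res.Slice

/-! Series of subgroups and independence of leading forms. -/

set_option autoImplicit false
set_option linter.unusedSectionVars false

namespace Q17.Res

/-- A series of subgroups with factors of order `p` and generators `a i` of the factors. -/
structure Ser (p : ℕ) {G : Type*} [Group G] (n : ℕ) (H : ℕ → Subgroup G) (a : ℕ → G) : Prop where
  bot : H 0 = ⊥
  top : H n = ⊤
  gen : ∀ i < n, H (i + 1) = H i ⊔ Subgroup.zpowers (a i)
  notMem : ∀ i < n, a i ∉ H i
  pow : ∀ i < n, a i ^ p ∈ H i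
  norm : ∀ i < n, a i ∈ Subgroup.normalizer (H i : Set G)

lemma Ser.le {p : ℕ} {G : Type*} [Group G] {n : ℕ} {H : ℕ → Subgroup G} {a : ℕ → G}
    (h : Ser p n H a) {i j : ℕ} (hij : i ≤ j) (hj : j ≤ n) : H i ≤ H j := by
  induction j, hij using Nat.le_induction with
  | base => exact le_rfl
  | succ j hij ih =>
    refine (ih (by omega)).trans ?_
    rw [h.gen j (by omega)]
    exact le_sup_left

lemma Ser.mem {p : ℕ} {G : Type*} [Group G] {n : ℕ} {H : ℕ → Subgroup G} {a : ℕ → G}
    (h : Ser p n H a) {i j : ℕ} (hij : i < j) (hj : j ≤ n) : a i ∈ H j := by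
  refine h.le (Nat.succ_le_of_lt hij) hj ?_
  rw [h.gen i (by omega)]
  exact (le_sup_right : _ ≤ H i ⊔ Subgroup.zpowers (a i)) (Subgroup.mem_zpowers (a i))

section main

variable {R K G : Type*} [CommRing R] [IsDomain R] [Field K] [Group G] (φ : R →+* K)
  {p : ℕ} (hp : p.Prime) (hpR : (p : R) = 0) (τ : G → R →+* R)
  (hmul : ∀ g h x, τ g (τ h x) = τ (g * h) x) (hone : ∀ x, τ 1 x = x)
  (s : R) (hs : s ≠ 0) (hφs : φ s = 0) (hτs : ∀ g, τ g s = s)
  {n : ℕ} {H : ℕ → Subgroup G} {a : ℕ → G} (hser : Ser p n H a)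
  (m : ℕ → ℕ) (hm : ∀ i < n, 0 < m i) (D : ℕ → R → R)
  (hD : ∀ i < n, ∀ x, s ^ m i * D i x = τ (a i) x - x)

/-- The invariants of a subgroup. -/
def fx (τ : G → R →+* R) (T : Subgroup G) : Subring R where
  carrier := {x | ∀ g ∈ T, τ g x = x}
  mul_mem' := fun hx hy g hg => by rw [map_mul, hx g hg, hy g hg]
  one_mem' := fun g _ => map_one _
  add_mem' := fun hx hy g hg => by rw [map_add, hx g hg, hy g hg]
  zero_mem' := fun g _ => map_zero _
  neg_mem' := fun hx g hg => by rw [map_neg, hx g hg]

lemma mem_fx {T : Subgroup G} {x : R} : x ∈ fx τ T ↔ ∀ g ∈ T, τ g x = x := Iff.rfl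

include hs hτs hD in
lemma tw {i : ℕ} (hi : i < n) : Tw (s ^ m i) (D i) := by
  have hsm : s ^ m i ≠ 0 := pow_ne_zero _ hs
  refine ⟨fun x y => ?_, fun x y => ?_, ?_⟩
  · apply mul_left_cancel₀ hsm
    rw [mul_add, hD i hi, hD i hi, hD i hi, map_add]
    ring
  · apply mul_left_cancel₀ hsm
    have h1 := hD i hi x
    have h2 := hD i hi y
    rw [hD i hi, map_mul]
    have h3 : τ (a i) x = x + s ^ m i * D i x := by rw [h1]; ring
    have h4 : τ (a i) y = y + s ^ m i * D i y := by rw [h2]; ring
    rw [h3, h4]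
    ring
  · apply mul_left_cancel₀ hsm
    rw [hD i hi, map_pow, hτs, sub_self, mul_zero]

include hs hτs hD hser hmul in
lemma D_mem {i : ℕ} (hi : i < n) (x : R) (hx : x ∈ fx τ (H i)) : D i x ∈ fx τ (H i) := by
  have hsm : s ^ m i ≠ 0 := pow_ne_zero _ hs
  intro h hh
  apply mul_left_cancel₀ hsm
  have h1 : s ^ m i * τ h (D i x) = τ h (s ^ m i * D i x) := by rw [map_mul, map_pow, hτs]
  have h2 : (a i)⁻¹ * h * a i ∈ H i := by
    have h3 := Subgroup.mem_normalizer_iff.1 (Subgroup.inv_mem _ (hser.norm i hi)) h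
    rw [inv_inv] at h3
    exact h3.1 hh
  have h3 : τ h (τ (a i) x) = τ (a i) x := by
    have h4 : h * a i = a i * ((a i)⁻¹ * h * a i) := by group
    rw [hmul, h4, ← hmul, hx _ h2]
  rw [h1, hD i hi, map_sub, h3, hx h hh, ← hD i hi]

include hp hpR hs hτs hD hser hmul hone in
lemma D_pow {i : ℕ} (hi : i < n) (x : R) (hx : x ∈ fx τ (H i)) : (D i)^[p] x = 0 := by
  have hsm : s ^ m i ≠ 0 := pow_ne_zero _ hs
  have _ : Fact p.Prime := ⟨hp⟩
  have _ : CharP R p := (CharP.charP_iff_prime_eq_zero hp).2 hpR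
  have hT := tw τ s hs hτs m D hD hi
  -- the iterates of the difference
  let E : AddMonoid.End R := (τ (a i) : R →+ R)
  have hE : ∀ j : ℕ, ∀ y, (E ^ j) y = τ (a i ^ j) y := by
    intro j
    induction j with
    | zero => intro y; rw [pow_zero, pow_zero, hone]; rfl
    | succ j ih =>
      intro y
      rw [pow_succ, pow_succ, ← hmul, ← ih]
      rfl
  have h1 : ∀ j y, (s ^ m i) ^ j * (D i)^[j] y = ((E - 1) ^ j) y := by
    intro j
    induction j with
    | zero => intro y; rw [pow_zero, pow_zero, one_mul]; rfl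
    | succ j ih =>
      intro y
      have h2 : D i (s ^ m i) = 0 := hT.par
      have h3 : ((E - 1) ^ (j + 1)) y = ((E - 1) ^ j) (τ (a i) y - y) := by
        rw [pow_succ]
        rfl
      rw [h3, ← hD i hi, ← ih, hT.lin_iter h2, Function.iterate_succ_apply]
      ring
  have h2 : (E - 1) ^ p = E ^ p - 1 := by
    have h3 : (E - 1) ^ p = E ^ p - 1 ^ p := by
      have _ : Nontrivial (AddMonoid.End R) := by
        refine ⟨1, 0, fun h => ?_⟩
        have h4 := congrArg (fun f : AddMonoid.End R => f 1) h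
        exact one_ne_zero (α := R) h4
      have hch : CharP (AddMonoid.End R) p := by
        refine (CharP.charP_iff_prime_eq_zero hp).2 ?_
        apply AddMonoidHom.ext
        intro y
        change ((p : AddMonoid.End R)) y = 0
        rw [AddMonoid.End.natCast_apply, nsmul_eq_mul, hpR, zero_mul]
      exact sub_pow_char_of_commute (p := p) (Commute.one_right E)
    rw [h3, one_pow]
  have h3 := h1 p x
  rw [h2] at h3
  have h4 : (E ^ p - 1) x = 0 := by
    change (E ^ p) x - x = 0
    rw [hE, hx _ (hser.pow i hi), sub_self]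
  rw [h4] at h3
  exact (mul_eq_zero.1 h3).resolve_left (pow_ne_zero _ hsm)

lemma D_zero_iff (hs : s ≠ 0) (hD : ∀ i < n, ∀ x, s ^ m i * D i x = τ (a i) x - x)
    {i : ℕ} (hi : i < n) (x : R) : D i x = 0 ↔ τ (a i) x = x := by
  have hsm : s ^ m i ≠ 0 := pow_ne_zero _ hs
  have h1 := hD i hi x
  constructor
  · intro h
    rw [h, mul_zero] at h1
    exact (sub_eq_zero.1 h1.symm)
  · intro h
    rw [h, sub_self] at h1
    exact (mul_eq_zero.1 h1).resolve_left hsm

include hmul hone hser in
lemma fx_succ {i : ℕ} (hi : i < n) (x : R) (hx : x ∈ fx τ (H i)) (hax : τ (a i) x = x) :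
    x ∈ fx τ (H (i + 1)) := by
  let S : Subgroup G :=
    { carrier := {g | τ g x = x}
      mul_mem' := fun {g h} hg hh => by
        change τ (g * h) x = x
        rw [← hmul, hh, hg]
      one_mem' := hone x
      inv_mem' := fun {g} hg => by
        change τ g⁻¹ x = x
        conv_lhs => rw [← (show τ g x = x from hg)]
        rw [hmul, inv_mul_cancel, hone] }
  have h1 : H (i + 1) ≤ S := by
    rw [hser.gen i hi, sup_le_iff, Subgroup.zpowers_le]
    exact ⟨fun g hg => hx g hg, hax⟩
  exact fun g hg => h1 hg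

variable (hind : ∀ c : ℕ → K, (∀ x, ∑ i ∈ Finset.range n, c i * φ (D i x) = 0) →
  ∀ i < n, c i = 0)

include hp hpR hs hτs hD hser hmul hone hind hφs hm in
/-- If the leading forms are linearly independent, then each of them is nonzero on the
invariants. -/
theorem exists_ne {i : ℕ} (hi : i < n) : ∃ y ∈ fx τ (H i), φ (D i y) ≠ 0 := by
  have hpK : (p : K) = 0 := by rw [← map_natCast φ, hpR, map_zero]
  have he : ∀ i < n, φ (s ^ m i) = 0 := fun i hi => by
    rw [map_pow, hφs, zero_pow (hm i hi).ne']
  have hT : ∀ i < n, Tw (s ^ m i) (D i) := fun i hi => tw τ s hs hτs m D hD hi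
  -- the derivations which vanish on the invariants are combinations
  have step : ∀ i < n, (∀ d : R → K, Dv φ d → (∀ x ∈ fx τ (H i), d x = 0) →
      ∃ c : ℕ → K, ∀ x, d x = ∑ j ∈ Finset.range i, c j * φ (D j x)) →
      ∃ y ∈ fx τ (H i), φ (D i y) ≠ 0 := by
    intro i hi hspan
    by_contra hcon
    push Not at hcon
    obtain ⟨c, hc⟩ := hspan _ ((hT i hi).dv (he i hi)) hcon
    have h1 := hind (fun j => if j < i then c j else if j = i then -1 else 0) (by
      intro x
      rw [← Finset.sum_range_add_sum_Ico _ (Nat.succ_le_of_lt hi), Finset.sum_range_succ]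
      have h2 : ∑ j ∈ Finset.range i, (if j < i then c j else if j = i then -1 else 0) *
          φ (D j x) = φ (D i x) := by
        rw [hc x]
        refine Finset.sum_congr rfl fun j hj => ?_
        rw [if_pos (Finset.mem_range.1 hj)]
      have h3 : ∑ j ∈ Finset.Ico i.succ n, (if j < i then c j else if j = i then -1 else 0) *
          φ (D j x) = 0 := by
        refine Finset.sum_eq_zero fun j hj => ?_
        have := (Finset.mem_Ico.1 hj).1
        rw [if_neg (by omega), if_neg (by omega), zero_mul]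
      rw [h2, h3, if_neg (lt_irrefl i), if_pos rfl]
      ring) i hi
    simp at h1
  have key : ∀ i, i ≤ n → ∀ d : R → K, Dv φ d → (∀ x ∈ fx τ (H i), d x = 0) →
      ∃ c : ℕ → K, ∀ x, d x = ∑ j ∈ Finset.range i, c j * φ (D j x) := by
    intro i
    induction i with
    | zero =>
      intro _ d _ hd0
      refine ⟨fun _ => 0, fun x => ?_⟩
      rw [Finset.range_zero, Finset.sum_empty]
      refine hd0 x fun g hg => ?_
      rw [hser.bot, Subgroup.mem_bot] at hg
      rw [hg, hone]
    | succ i ih =>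
      intro hi d hd hd0
      have hi' : i < n := hi
      have ih' := ih hi'.le
      obtain ⟨y, hy, hy0⟩ := step i hi' ih'
      have hDA := D_mem τ hmul s hs hτs hser m D hD hi'
      have hDp := D_pow hp hpR τ hmul hone s hs hτs hser m D hD hi'
      obtain ⟨f, hf, hf0⟩ := (hT i hi').top (fx τ (H i)) hDA (he i hi') p hp hpK ⟨y, hy, hy0⟩
      have hp2 := hp.two_le
      let v := (D i)^[p - 1] f
      let w := (D i)^[p - 2] f
      have hw : D i w = v := by
        change D i ((D i)^[p - 2] f) = (D i)^[p - 1] f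
        rw [← Function.iterate_succ_apply' (D i) (p - 2) f]
        congr 2
        omega
      have hv : D i v = 0 := by
        change D i ((D i)^[p - 1] f) = 0
        rw [← Function.iterate_succ_apply' (D i) (p - 1) f]
        have : (p - 1).succ = p := by omega
        rw [this]
        exact hDp f hf
      have hwA : w ∈ fx τ (H i) := iter_mem _ hDA _ hf
      have hd' : Dv φ (fun x => d x - d w * (φ v)⁻¹ * φ (D i x)) :=
        hd.comb ((hT i hi').dv (he i hi')) _
      obtain ⟨c, hc⟩ := ih' _ hd' (by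
        intro x hx
        refine (hT i hi').uniq (fx τ (H i)) hDA p hp hpK hDp hwA hw hv hf0 hd' ?_ ?_ x hx
        · intro z hz hz0
          have h1 := hd0 z (fx_succ τ hmul hone hser hi' z hz
            ((D_zero_iff τ s m D hs hD hi' z).1 hz0))
          change d z - _ * φ (D i z) = 0
          rw [h1, hz0, map_zero, mul_zero, sub_zero]
        · change d w - d w * (φ v)⁻¹ * φ (D i w) = 0
          rw [hw, inv_mul_cancel_right₀ hf0, sub_self])
      refine ⟨fun j => if j = i then d w * (φ v)⁻¹ else c j, fun x => ?_⟩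
      rw [Finset.sum_range_succ]
      simp only [if_pos]
      have h2 : ∑ j ∈ Finset.range i, (if j = i then d w * (φ v)⁻¹ else c j) * φ (D j x) =
          ∑ j ∈ Finset.range i, c j * φ (D j x) := by
        refine Finset.sum_congr rfl fun j hj => ?_
        rw [if_neg (Finset.mem_range.1 hj).ne]
      rw [h2, ← hc x]
      ring
  exact step i hi (key i hi.le)

end main

end Q17.Res
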