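import Pool.Agent.Y177.Ga.Rad
import Pool.Agent.Q17.Res.Gp
import Pool.Agent.Q17.Res.Ser

/-! Minors of leading forms. -/

set_option autoImplicit false
set_option linter.unusedSectionVars false

open Pool.Agent.H920R2 Pool.Agent.H519R3.RS Pool.Agent.Y177.Ga

universe u v

namespace Q17.Res

section lead

variable {k C L : Type u} [Field k] [CommRing C] [Algebra k C] [Field L] [Algebra k L]
  (g : C →ₐ[k] L) {F : ℕ → Ideal C} (hF : IsFilt F)

/-- The elements which are, up to higher order, combinations of the minors of the leading forms. -/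
def leadM {n : ℕ} (δ : Fin n → C → C) (F : ℕ → Ideal C) (m : Fin n → ℕ) (M : ℕ) : Ideal C :=
  F (M + 1) ⊔ Ideal.span {y | ∃ (e : Fin n → ℕ) (c : Fin n → C), (∀ j, c j ∈ F (e j)) ∧
    ∃ b ∈ F (M - ∑ j, (e j + m j)), y = b * Matrix.det (Matrix.of fun i j => δ i (c j))}

/-- The ring homomorphism `hm 0`. -/
noncomputable def h0 : C →+* LP L where
  toFun := fun c => hm 0 (g c)
  map_one' := by rw [map_one, hm_one]
  map_mul' := fun a b => by rw [map_mul, hm_mul, add_zero]
  map_zero' := by rw [map_zero, hm_zero]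
  map_add' := fun a b => by rw [map_add, hm_add]

lemma h0_apply (c : C) : h0 g c = hm 0 (g c) := rfl

lemma prod_hm {n : ℕ} (e : Fin n → ℕ) (s : Finset (Fin n)) :
    ∏ j ∈ s, (hm (e j : ℤ) (1 : L) : LP L) = hm ((∑ j ∈ s, e j : ℕ) : ℤ) 1 := by
  classical
  induction s using Finset.induction_on with
  | empty => rw [Finset.prod_empty, Finset.sum_empty, Nat.cast_zero, hm_one]
  | insert i s hi ih =>
    rw [Finset.prod_insert hi, Finset.sum_insert hi, ih, hm_mul, one_mul]
    push_cast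
    rfl

/-- Determinants of matrices of homogeneous elements. -/
lemma det_hm {n : ℕ} (e m : Fin n → ℕ) (M : Matrix (Fin n) (Fin n) C) :
    Matrix.det (Matrix.of fun i j => (hm ((e j : ℤ) + m i) (g (M i j)) : LP L)) =
      hm ((∑ j, (e j + m j) : ℕ) : ℤ) (g M.det) := by
  have h1 : (Matrix.of fun i j => (hm ((e j : ℤ) + m i) (g (M i j)) : LP L)) =
      Matrix.of fun i j => hm (m i : ℤ) (1 : L) *
        (Matrix.of fun i j => hm (e j : ℤ) (1 : L) * (M.map (h0 g)) i j) i j := by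
    ext1 i j
    rw [Matrix.of_apply, Matrix.of_apply, Matrix.of_apply, Matrix.map_apply, h0_apply, hm_mul,
      hm_mul, one_mul, one_mul, add_zero, add_comm (m i : ℤ)]
  rw [h1, Matrix.det_mul_column, Matrix.det_mul_row, ← RingHom.mapMatrix_apply, ← RingHom.map_det,
    h0_apply, prod_hm, prod_hm, hm_mul, hm_mul, one_mul, one_mul, Finset.sum_add_distrib]
  congr 1
  push_cast
  ring

variable {n : ℕ} (δ : Fin n → C → C) (m : Fin n → ℕ)
  (hdiv : ∀ i, ∀ d, ∀ a ∈ F d, δ i a ∈ F (d + m i))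

lemma JQ.mulC {Q : Ideal (rG g hF)} {e : ℤ} {x : C} (hx : JQ g hF Q e x) (y : C) :
    JQ g hF Q e (y * x) := by
  have h1 := JQ.mul g hF hx (e' := 0) (y := y) (by
    change _ ∈ F 0
    rw [hF.zero]; trivial)
  rwa [add_zero, mul_comm] at h1

/-- The zeros of the minors of the leading forms in the special fibre. -/
theorem lead_minors (hlead : ∀ d, 1 ≤ d → ∀ a ∈ F d, ∃ N : ℕ, a ^ N ∈ leadM δ F m (N * d))
    (Q : Ideal (rG g hF)) (hQ : Q.IsPrime)
    (hDQ : ∀ (e : Fin n → ℕ) (c : Fin n → C), (∀ j, c j ∈ F (e j)) →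
      JQ g hF Q ((∑ j, (e j + m j) : ℕ) : ℤ) (Matrix.det (Matrix.of fun i j => δ i (c j))))
    (hsQ : (⟨hm (-1) 1, s_rG g hF⟩ : rG g hF) ∈ Q)
    (d : ℕ) (a : L) (h : hm d a ∈ rG g hF) (hd : 0 < d) : (⟨hm d a, h⟩ : rG g hF) ∈ Q := by
  classical
  obtain ⟨b, hb, hba⟩ := of_hm_mem_rG g hF h
  rw [Int.toNat_natCast] at hb
  subst hba
  obtain ⟨N, hN⟩ := hlead d hd b hb
  have key : ∀ z ∈ leadM δ F m (N * d), JQ g hF Q ((N * d : ℕ) : ℤ) z := by
    intro z hz
    obtain ⟨z1, hz1, z2, hz2, rfl⟩ := Submodule.mem_sup.1 hz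
    refine JQ.add g hF ?_ ?_
    · refine JQ.special g hF hsQ ?_
      have : (((N * d : ℕ) : ℤ) + 1).toNat = N * d + 1 := by omega
      rw [this]
      exact hz1
    · clear hz
      induction hz2 using Submodule.span_induction with
      | mem z hz =>
        obtain ⟨e, c, hc, b', hb', rfl⟩ := hz
        have h1 := JQ.mul g hF (hDQ e c hc)
          (e' := ((N * d : ℕ) : ℤ) - ((∑ j, (e j + m j) : ℕ) : ℤ)) (y := b') (by
            have : (((N * d : ℕ) : ℤ) - ((∑ j, (e j + m j) : ℕ) : ℤ)).toNat =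
              N * d - ∑ j, (e j + m j) := by omega
            rw [this]
            exact hb')
        rw [add_sub_cancel, mul_comm _ b'] at h1
        exact h1
      | zero => exact JQ.zero g hF _
      | add y z _ _ hy hz => exact JQ.add g hF hy hz
      | smul r z _ hz => exact JQ.mulC g hF hz r
  obtain ⟨h1, h2⟩ := key _ hN
  have h3 : (⟨hm d (g b), h⟩ : rG g hF) ^ N = ⟨_, h1⟩ := by
    apply Subtype.ext
    change hm (d : ℤ) (g b) ^ N = hm ((N * d : ℕ) : ℤ) (g (b ^ N))
    rw [hm_pow, map_pow]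
    push_cast
    rfl
  rw [← h3] at h2
  exact hQ.mem_of_pow_mem _ h2

end lead

end Q17.Res
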