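import Mathlib

/-! Slices of twisted derivations: if the leading forms of the generators of a series of subgroups
are linearly independent at a point, then each of them is nonzero on the invariants of the previous
subgroup. -/

set_option autoImplicit false

namespace Q17.Res

section slice

variable {R K : Type*} [CommRing R] [Field K]

/-- Derivations along a homomorphism to a field. -/
structure Dv (φ : R →+* K) (d : R → K) : Prop where
  add : ∀ x y, d (x + y) = d x + d y
  mul : ∀ x y, d (x * y) = φ x * d y + φ y * d x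

lemma Dv.zero {φ : R →+* K} {d : R → K} (h : Dv φ d) : d 0 = 0 := by
  have := h.add 0 0
  rw [add_zero] at this
  exact left_eq_add.1 this

lemma Dv.sub {φ : R →+* K} {d : R → K} (h : Dv φ d) (x y : R) : d (x - y) = d x - d y := by
  have := h.add (x - y) y
  rw [sub_add_cancel] at this
  rw [this, add_sub_cancel_right]

lemma Dv.pow {φ : R →+* K} {d : R → K} (h : Dv φ d) {w : R} (hw : d w = 0) (j : ℕ) :
    d (w ^ j) = 0 := by
  induction j with
  | zero =>
    have := h.mul 1 1
    rw [mul_one, map_one, one_mul] at this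
    rw [pow_zero]
    exact left_eq_add.1 this
  | succ j ih => rw [pow_succ, h.mul, ih, hw, mul_zero, mul_zero, add_zero]

lemma Dv.comb {φ : R →+* K} {d d' : R → K} (h : Dv φ d) (h' : Dv φ d') (c : K) :
    Dv φ (fun x => d x - c * d' x) where
  add := fun x y => by rw [h.add, h'.add]; ring
  mul := fun x y => by rw [h.mul, h'.mul]; ring

/-- Twisted derivations. -/
structure Tw (e : R) (D : R → R) : Prop where
  add : ∀ x y, D (x + y) = D x + D y
  mul : ∀ x y, D (x * y) = x * D y + y * D x + e * (D x * D y)
  par : D e = 0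

variable {φ : R →+* K} {e : R} {D : R → R}

lemma Tw.dv (h : Tw e D) (he : φ e = 0) : Dv φ (fun x => φ (D x)) where
  add := fun x y => by rw [h.add, map_add]
  mul := fun x y => by
    rw [h.mul, map_add, map_add, map_mul, map_mul, map_mul, he, zero_mul, add_zero]

lemma Tw.zero (h : Tw e D) : D 0 = 0 := by
  have := h.add 0 0
  rw [add_zero] at this
  exact left_eq_add.1 this

lemma Tw.neg (h : Tw e D) (x : R) : D (-x) = - D x := by
  have := h.add (-x) x
  rw [neg_add_cancel, h.zero] at this
  exact eq_neg_of_add_eq_zero_left this.symm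

lemma Tw.sub (h : Tw e D) (x y : R) : D (x - y) = D x - D y := by
  rw [sub_eq_add_neg, h.add, h.neg, ← sub_eq_add_neg]

lemma Tw.one (h : Tw e D) : D 1 = 0 := by
  have h1 := h.mul e 1
  have h2 := h.mul 1 1
  rw [mul_one, h.par, mul_zero, add_zero, zero_mul, mul_zero, add_zero] at h1
  rw [mul_one, one_mul] at h2
  have h3 : e * (D 1 * D 1) = 0 := by rw [← mul_assoc, ← h1, zero_mul]
  rw [h3, add_zero] at h2
  exact left_eq_add.1 h2

lemma Tw.lin (h : Tw e D) {c : R} (hc : D c = 0) (x : R) : D (c * x) = c * D x := by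
  rw [h.mul, hc, mul_zero, zero_mul, mul_zero, add_zero, add_zero]

lemma Tw.lin_iter (h : Tw e D) {c : R} (hc : D c = 0) (n : ℕ) (x : R) :
    D^[n] (c * x) = c * D^[n] x := by
  induction n generalizing x with
  | zero => rfl
  | succ n ih => rw [Function.iterate_succ_apply, h.lin hc, ih, Function.iterate_succ_apply]

lemma Tw.iter_zero (h : Tw e D) (n : ℕ) : D^[n] 0 = 0 := by
  induction n with
  | zero => rfl
  | succ n ih => rw [Function.iterate_succ_apply, h.zero, ih]

lemma Tw.iter_sub (h : Tw e D) (n : ℕ) (x y : R) : D^[n] (x - y) = D^[n] x - D^[n] y := by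
  induction n generalizing x y with
  | zero => rfl
  | succ n ih => rw [Function.iterate_succ_apply, h.sub, ih, Function.iterate_succ_apply,
      Function.iterate_succ_apply]

lemma Tw.sum (h : Tw e D) {ι : Type*} (s : Finset ι) (f : ι → R) :
    D (∑ i ∈ s, f i) = ∑ i ∈ s, D (f i) := by
  classical
  induction s using Finset.induction_on with
  | empty => rw [Finset.sum_empty, Finset.sum_empty, h.zero]
  | insert i s hi ih => rw [Finset.sum_insert hi, Finset.sum_insert hi, h.add, ih]

lemma Tw.natCast (h : Tw e D) (n : ℕ) : D (n : R) = 0 := by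
  induction n with
  | zero => rw [Nat.cast_zero, h.zero]
  | succ n ih => rw [Nat.cast_succ, h.add, ih, h.one, add_zero]

lemma Tw.powc (h : Tw e D) {v : R} (hv : D v = 0) (j : ℕ) : D (v ^ j) = 0 := by
  induction j with
  | zero => rw [pow_zero, h.one]
  | succ j ih => rw [pow_succ, h.lin ih, hv, mul_zero]

/-- The higher Leibniz rule. -/
lemma Tw.leib (h : Tw e D) (n : ℕ) (x y : R) : ∃ r, D^[n] (x * y) =
    ∑ ij ∈ Finset.HasAntidiagonal.antidiagonal n, (n.choose ij.1 : R) * (D^[ij.1] x * D^[ij.2] y) + e * r := by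
  induction n with
  | zero => exact ⟨0, by simp⟩
  | succ n ih =>
    obtain ⟨r, hr⟩ := ih
    rw [Finset.sum_antidiagonal_choose_succ_mul
      (fun i j => D^[i] x * D^[j] y), Function.iterate_succ_apply', hr, h.add, h.lin h.par, h.sum]
    refine ⟨∑ ij ∈ Finset.HasAntidiagonal.antidiagonal n, (n.choose ij.1 : R) *
      (D (D^[ij.1] x) * D (D^[ij.2] y)) + D r, ?_⟩
    have h1 : ∀ ij : ℕ × ℕ, D ((n.choose ij.1 : R) * (D^[ij.1] x * D^[ij.2] y)) =
        (n.choose ij.1 : R) * (D^[ij.1] x * D^[ij.2 + 1] y) +
        (n.choose ij.1 : R) * (D^[ij.1 + 1] x * D^[ij.2] y) +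
        e * ((n.choose ij.1 : R) * (D (D^[ij.1] x) * D (D^[ij.2] y))) := by
      intro ij
      rw [h.lin (h.natCast _), h.mul, Function.iterate_succ_apply', Function.iterate_succ_apply']
      ring
    simp_rw [h1]
    rw [Finset.sum_add_distrib, Finset.sum_add_distrib, ← Finset.mul_sum]
    have h2 : ∀ ij ∈ Finset.HasAntidiagonal.antidiagonal n, (n.choose ij.2 : R) * (D^[ij.1 + 1] x * D^[ij.2] y) =
        (n.choose ij.1 : R) * (D^[ij.1 + 1] x * D^[ij.2] y) := by
      intro ij hij
      rw [Finset.HasAntidiagonal.mem_antidiagonal] at hij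
      rw [Nat.choose_symm_of_eq_add hij.symm]
    rw [Finset.sum_congr rfl h2]
    ring

variable (A : Subring R) (hDA : ∀ x ∈ A, D x ∈ A)

include hDA in
lemma iter_mem (n : ℕ) {x : R} (hx : x ∈ A) : D^[n] x ∈ A := by
  induction n generalizing x with
  | zero => exact hx
  | succ n ih => rw [Function.iterate_succ_apply]; exact ih (hDA x hx)

include hDA in
/-- If a twisted derivation of order `p` is nonzero at a point then so is its `(p - 1)`-th
iterate. -/
lemma Tw.top (h : Tw e D) (he : φ e = 0) (p : ℕ) (hp : p.Prime) (hpK : (p : K) = 0)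
    (hne : ∃ f ∈ A, φ (D f) ≠ 0) : ∃ f ∈ A, φ (D^[p - 1] f) ≠ 0 := by
  have hcast : ∀ j, 0 < j → j < p → (j : K) ≠ 0 := by
    intro j hj hjp h0
    have _ : CharP K p := by
      refine (CharP.charP_iff_prime_eq_zero hp).2 hpK
    rw [CharP.cast_eq_zero_iff K p] at h0
    exact Nat.not_dvd_of_pos_of_lt hj hjp h0
  have key : ∀ N, 1 ≤ N → N ≤ p - 1 → ∃ f ∈ A, φ (D^[N] f) ≠ 0 := by
    intro N h1
    induction N, h1 using Nat.le_induction with
    | base => intro _; exact hne
    | succ N hN ih =>
      intro hNp
      by_contra hcon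
      push Not at hcon
      obtain ⟨f, hf, hf0⟩ := ih (by omega)
      have hvan : ∀ j, N + 1 ≤ j → ∀ g ∈ A, φ (D^[j] g) = 0 := by
        intro j hj g hg
        obtain ⟨i, rfl⟩ := Nat.exists_eq_add_of_le hj
        rw [Function.iterate_add_apply]
        exact hcon _ (iter_mem A hDA i hg)
      let g := D^[N - 1] f
      have hg : g ∈ A := iter_mem A hDA _ hf
      have hDg : ∀ j, D^[j] g = D^[j + (N - 1)] f := fun j => by
        rw [Function.iterate_add_apply]
      obtain ⟨r, hr⟩ := h.leib (N + 1) f g
      have h2 := hcon (f * g) (A.mul_mem hf hg)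
      rw [hr, map_add, map_mul φ e, he, zero_mul, add_zero, map_sum] at h2
      rw [Finset.sum_eq_single (N, 1)] at h2
      · rw [map_mul, map_mul, map_natCast, hDg 1] at h2
        have h3 : 1 + (N - 1) = N := by omega
        change ((N + 1).choose N : K) * (φ (D^[N] f) * φ (D^[1 + (N - 1)] f)) = 0 at h2
        rw [h3, Nat.choose_succ_self_right] at h2
        have h4 := hcast (N + 1) (by omega) (by omega)
        exact mul_ne_zero h4 (mul_ne_zero hf0 hf0) h2
      · rintro ⟨i, j⟩ hij hne'
        rw [Finset.HasAntidiagonal.mem_antidiagonal] at hij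
        rw [map_mul, map_mul]
        change _ * (φ (D^[i] f) * φ (D^[j] g)) = 0
        by_cases hi : N + 1 ≤ i
        · rw [hvan i hi f hf, zero_mul, mul_zero]
        · have hj : 2 ≤ j := by
            by_contra hj
            apply hne'
            have hj' : j = 1 := by
              simp only at hij
              omega
            have hi' : i = N := by
              simp only at hij
              omega
            rw [hi', hj']
          rw [hDg j, hvan (j + (N - 1)) (by omega) f hf, mul_zero, mul_zero]
      · intro hcon'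
        exfalso
        apply hcon'
        rw [Finset.HasAntidiagonal.mem_antidiagonal]
  exact key (p - 1) (by have := hp.two_le; omega) le_rfl

/-- Iterates on the products with a slice. -/
lemma Tw.slice_mul (h : Tw e D) {v w : R} (hw : D w = v) (hv : D v = 0) (n : ℕ) (g : R) :
    D^[n + 1] (w * g) = w * D^[n + 1] g + ((n + 1 : ℕ) : R) * (v * D^[n] g) +
      e * (((n + 1 : ℕ) : R) * (v * D^[n + 1] g)) := by
  induction n with
  | zero =>
    rw [zero_add, Function.iterate_one, h.mul, hw, Nat.cast_one]
    change _ = w * D g + 1 * (v * g) + _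
    ring
  | succ n ih =>
    rw [Function.iterate_succ_apply', ih, h.add, h.add, h.mul, hw, h.lin (h.natCast _),
      h.lin hv, h.lin h.par, h.lin (h.natCast _), h.lin hv,
      ← Function.iterate_succ_apply' D (n + 1) g, ← Function.iterate_succ_apply' D n g]
    push_cast
    ring

lemma Tw.slice_pow (h : Tw e D) {v w : R} (hw : D w = v) (hv : D v = 0) (j : ℕ) :
    D^[j] (w ^ j) = (j.factorial : R) * v ^ j ∧ D^[j + 1] (w ^ j) = 0 := by
  induction j with
  | zero => simp [h.one]
  | succ j ih =>
    have h1 : D^[j + 1] (w ^ (j + 1)) = ((j + 1).factorial : R) * v ^ (j + 1) := by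
      rw [pow_succ', h.slice_mul hw hv, ih.1, ih.2, Nat.factorial_succ]
      push_cast
      ring
    refine ⟨h1, ?_⟩
    rw [Function.iterate_succ_apply', h1, h.lin (h.natCast _), h.powc hv, mul_zero]

include hDA in
/-- A derivation which vanishes on the constants and on a slice is zero. -/
lemma Tw.uniq (h : Tw e D) (p : ℕ) (hp : p.Prime) (hpK : (p : K) = 0)
    (hDp : ∀ x ∈ A, D^[p] x = 0) {v w : R} (hwA : w ∈ A) (hw : D w = v) (hv : D v = 0)
    (hφv : φ v ≠ 0) {d : R → K} (hd : Dv φ d) (hd0 : ∀ x ∈ A, D x = 0 → d x = 0) (hdw : d w = 0)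
    (x : R) (hx : x ∈ A) : d x = 0 := by
  have hcast : ∀ j, j < p → (j.factorial : K) ≠ 0 := by
    intro j hjp h0
    have _ : CharP K p := by
      refine (CharP.charP_iff_prime_eq_zero hp).2 hpK
    rw [CharP.cast_eq_zero_iff K p, hp.dvd_factorial] at h0
    omega
  have hvA : v ∈ A := by rw [← hw]; exact hDA w hwA
  have key : ∀ j, j ≤ p → ∀ z ∈ A, D^[j] z = 0 → d z = 0 := by
    intro j
    induction j with
    | zero => intro _ z _ hz; rw [show z = 0 from hz, hd.zero]
    | succ j ih =>
      intro hj z hz hz0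
      have hc : D^[j] z ∈ A := iter_mem A hDA j hz
      have hDc : D (D^[j] z) = 0 := by rw [← Function.iterate_succ_apply' D j z]; exact hz0
      have hu : D ((j.factorial : R) * v ^ j) = 0 := by
        rw [h.lin (h.natCast _), h.powc hv, mul_zero]
      have huA : (j.factorial : R) * v ^ j ∈ A := A.mul_mem (natCast_mem A _) (A.pow_mem hvA j)
      have h1 := ih (by omega) ((j.factorial : R) * v ^ j * z - D^[j] z * w ^ j)
        (A.sub_mem (A.mul_mem huA hz) (A.mul_mem hc (A.pow_mem hwA j))) (by
          rw [h.iter_sub, h.lin_iter hu, h.lin_iter hDc, (h.slice_pow hw hv j).1]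
          ring)
      rw [hd.sub, hd.mul _ z, hd.mul _ (w ^ j), hd0 _ huA hu, hd0 _ hc hDc, hd.pow hdw, mul_zero,
        mul_zero, mul_zero, add_zero, add_zero, sub_zero] at h1
      rw [map_mul, map_natCast, map_pow] at h1
      exact (mul_eq_zero.1 h1).resolve_left (mul_ne_zero (hcast j (by omega))
        (pow_ne_zero _ hφv))
  exact key p le_rfl x hx (hDp x hx)

end slice

end Q17.Res
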