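import Pool.Agent.Q17.Res.Ser

/-! Series of subgroups of a group of unitriangular matrices over the prime field. -/

set_option autoImplicit false
set_option linter.unusedSectionVars false

namespace Q17.Res

/-- Unitriangular matrices. -/
def UT {R : Type*} [Zero R] [One R] {N : ℕ} (g : Matrix (Fin N) (Fin N) R) : Prop :=
  ∀ i j, j ≤ i → g i j = if i = j then 1 else 0

lemma ser_inv {p : ℕ} {G : Type*} [Group G] {n : ℕ} {H : ℕ → Subgroup G} {a : ℕ → G}
    (h : Ser p n H a) : Ser p n H (fun i => (a i)⁻¹) where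
  bot := h.bot
  top := h.top
  gen := fun i hi => by
    rw [Subgroup.zpowers_inv]
    exact h.gen i hi
  notMem := fun i hi h' => h.notMem i hi ((H i).inv_mem_iff.1 h')
  pow := fun i hi => by
    rw [inv_pow]
    exact (H i).inv_mem (h.pow i hi)
  norm := fun i hi => Subgroup.inv_mem _ (h.norm i hi)

section step

variable {p : ℕ} [Fact p.Prime] {Γ : Type*} [Group Γ] {T T' : Subgroup Γ} (χ : Γ → ZMod p)
  (h1 : ∀ g ∈ T', ∀ h ∈ T', χ (g * h) = χ g + χ h)
  (h2 : ∀ g, g ∈ T ↔ g ∈ T' ∧ χ g = 0)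

include h1 in
lemma chi_one : χ 1 = 0 := by
  have := h1 1 T'.one_mem 1 T'.one_mem
  rw [mul_one] at this
  exact left_eq_add.1 this

include h1 in
lemma chi_inv {g : Γ} (hg : g ∈ T') : χ g⁻¹ = - χ g := by
  have := h1 g hg g⁻¹ (T'.inv_mem hg)
  rw [mul_inv_cancel, chi_one χ h1] at this
  exact (neg_eq_of_add_eq_zero_right this.symm).symm

include h1 in
lemma chi_pow {g : Γ} (hg : g ∈ T') (n : ℕ) : χ (g ^ n) = n * χ g := by
  induction n with
  | zero => rw [pow_zero, chi_one χ h1, Nat.cast_zero, zero_mul]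
  | succ n ih =>
    rw [pow_succ, h1 _ (T'.pow_mem hg n) _ hg, ih]
    push_cast
    ring

include h1 h2 in
lemma chi_step {b : Γ} (hb : b ∈ T') (hχ : χ b ≠ 0) :
    T' = T ⊔ Subgroup.zpowers b ∧ b ∉ T ∧ b ^ p ∈ T ∧
      b ∈ Subgroup.normalizer (T : Set Γ) := by
  have hTT : T ≤ T' := fun g hg => ((h2 g).1 hg).1
  refine ⟨?_, ?_, ?_, ?_⟩
  · apply le_antisymm
    · intro g hg
      obtain ⟨c, hc⟩ : ∃ c : ℕ, (c : ZMod p) = χ g * (χ b)⁻¹ :=
        ⟨(χ g * (χ b)⁻¹).val, ZMod.natCast_zmod_val _⟩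
      have h3 : g * (b ^ c)⁻¹ ∈ T := by
        rw [h2]
        refine ⟨T'.mul_mem hg (T'.inv_mem (T'.pow_mem hb c)), ?_⟩
        rw [h1 _ hg _ (T'.inv_mem (T'.pow_mem hb c)), chi_inv χ h1 (T'.pow_mem hb c),
          chi_pow χ h1 hb, hc, inv_mul_cancel_right₀ hχ, add_neg_cancel]
      have h4 : g = g * (b ^ c)⁻¹ * b ^ c := by group
      rw [h4]
      refine Subgroup.mul_mem _ ((le_sup_left : T ≤ T ⊔ Subgroup.zpowers b) h3) ?_
      exact (le_sup_right : _ ≤ T ⊔ Subgroup.zpowers b)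
        (Subgroup.pow_mem _ (Subgroup.mem_zpowers b) c)
    · rw [sup_le_iff, Subgroup.zpowers_le]
      exact ⟨hTT, hb⟩
  · intro h
    exact hχ ((h2 b).1 h).2
  · rw [h2]
    refine ⟨T'.pow_mem hb p, ?_⟩
    rw [chi_pow χ h1 hb, CharP.cast_eq_zero, zero_mul]
  · have key : ∀ b ∈ T', ∀ h ∈ T, b * h * b⁻¹ ∈ T := by
      intro b hb h hh
      obtain ⟨h3, h4⟩ := (h2 h).1 hh
      rw [h2]
      refine ⟨T'.mul_mem (T'.mul_mem hb h3) (T'.inv_mem hb), ?_⟩
      rw [h1 _ (T'.mul_mem hb h3) _ (T'.inv_mem hb), h1 _ hb _ h3, h4, chi_inv χ h1 hb]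
      ring
    rw [Subgroup.mem_normalizer_iff]
    intro h
    refine ⟨key b hb h, fun hh => ?_⟩
    have h3 := key b⁻¹ (T'.inv_mem hb) _ hh
    have h4 : b⁻¹ * (b * h * b⁻¹) * b⁻¹⁻¹ = h := by group
    rwa [h4] at h3

end step

section uni

variable {p : ℕ} [Fact p.Prime] {N : ℕ}
  (G : Subgroup (Matrix (Fin N) (Fin N) (ZMod p))ˣ)
  (hG : ∀ g ∈ G, UT (g : Matrix (Fin N) (Fin N) (ZMod p)))

/-- The order of the positions: the positions far from the diagonal come first. -/
def od {N : ℕ} (q : Fin N × Fin N) : ℕ := (N - (q.2 - q.1 : ℕ)) * N + q.1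

lemma od_lt {q q' : Fin N × Fin N} (h : (q'.2 - q'.1 : ℕ) < (q.2 - q.1 : ℕ)) :
    od q < od q' := by
  unfold od
  have h1 := q.1.2
  have h2 := q.2.2
  have h3 : N - (q.2 - q.1 : ℕ) + 1 ≤ N - (q'.2 - q'.1 : ℕ) := by omega
  have h4 := Nat.mul_le_mul_right N h3
  rw [add_mul, one_mul] at h4
  omega

lemma od_inj {q q' : Fin N × Fin N} (hq : q.1 < q.2) (hq' : q'.1 < q'.2) (h : od q = od q') :
    q = q' := by
  have h1 : (q.2 - q.1 : ℕ) = (q'.2 - q'.1 : ℕ) := by
    rcases lt_trichotomy (q.2 - q.1 : ℕ) (q'.2 - q'.1 : ℕ) with h1 | h1 | h1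
    · have := od_lt h1; omega
    · exact h1
    · have := od_lt h1; omega
  unfold od at h
  rw [h1] at h
  have h2 : (q.1 : ℕ) = q'.1 := by omega
  have h3 : (q.2 : ℕ) = q'.2 := by
    have := Fin.lt_def.1 hq
    have := Fin.lt_def.1 hq'
    omega
  exact Prod.ext (Fin.ext h2) (Fin.ext h3)

lemma od_bound {q : Fin N × Fin N} (hq : q.1 < q.2) : od q < N * N := by
  unfold od
  have h1 := Fin.lt_def.1 hq
  have h2 := q.1.2
  have h3 : N - (q.2 - q.1 : ℕ) + 1 ≤ N := by
    have := q.2.2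
    omega
  have h4 := Nat.mul_le_mul_right N h3
  rw [add_mul, one_mul] at h4
  omega

/-- Products of unitriangular matrices which vanish beyond a position. -/
lemma mul_entry {R : Type*} [CommRing R] {g h : Matrix (Fin N) (Fin N) R} (hg : UT g) (hh : UT h)
    {t : ℕ} (hgt : ∀ i j, i < j → t < od (i, j) → g i j = 0)
    {i j : Fin N} (hij : i < j) (ht : t ≤ od (i, j)) :
    (g * h) i j = g i j + h i j := by
  rw [Matrix.mul_apply, ← Finset.sum_subset (Finset.subset_univ {i, j})]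
  · rw [Finset.sum_pair hij.ne, hg i i le_rfl, if_pos rfl, one_mul, hh j j le_rfl, if_pos rfl,
      mul_one, add_comm]
  · intro l _ hl
    rw [Finset.mem_insert, Finset.mem_singleton, not_or] at hl
    rcases lt_trichotomy l i with h1 | h1 | h1
    · rw [hg i l h1.le, if_neg fun h => hl.1 h.symm, zero_mul]
    · exact absurd h1 hl.1
    · rcases lt_trichotomy l j with h2 | h2 | h2
      · rw [hgt i l h1, zero_mul]
        refine lt_of_le_of_lt ht (od_lt ?_)
        have := Fin.lt_def.1 h1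
        have := Fin.lt_def.1 h2
        simp only
        omega
      · exact absurd h2 hl.2
      · rw [hh l j h2.le, if_neg h2.ne', mul_zero]

/-- The matrix of an element. -/
def mx {R : Type*} [CommRing R] {G : Subgroup (Matrix (Fin N) (Fin N) R)ˣ} (g : G) :
    Matrix (Fin N) (Fin N) R := ((g : (Matrix (Fin N) (Fin N) R)ˣ) : Matrix (Fin N) (Fin N) R)

lemma mx_mul {R : Type*} [CommRing R] {G : Subgroup (Matrix (Fin N) (Fin N) R)ˣ} (g h : G) :
    mx (g * h) = mx g * mx h := rfl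

lemma mx_one {R : Type*} [CommRing R] {G : Subgroup (Matrix (Fin N) (Fin N) R)ˣ} :
    mx (1 : G) = 1 := rfl

lemma ut_mx {g : G} (hG : ∀ g ∈ G, UT (g : Matrix (Fin N) (Fin N) (ZMod p))) : UT (mx g) :=
  hG g g.2

/-- The subgroup of the matrices which vanish at the positions `≥ t`. -/
def HH (G : Subgroup (Matrix (Fin N) (Fin N) (ZMod p))ˣ)
    (hG : ∀ g ∈ G, UT (g : Matrix (Fin N) (Fin N) (ZMod p))) (t : ℕ) : Subgroup G where
  carrier := {g | ∀ i j, i < j → t ≤ od (i, j) → mx g i j = 0}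
  mul_mem' := by
    intro g h hg hh i j hij ht
    rw [mx_mul, mul_entry (t := t) (ut_mx G hG) (ut_mx G hG)
      (fun i j hij ht => hg i j hij ht.le) hij ht, hg i j hij ht, hh i j hij ht, add_zero]
  one_mem' := by
    intro i j hij _
    rw [mx_one, Matrix.one_apply_ne hij.ne]
  inv_mem' := by
    intro g hg
    have key : ∀ n : ℕ, ∀ i j, i < j → t ≤ od (i, j) → mx (g ^ n) i j = 0 := by
      intro n
      induction n with
      | zero => intro i j hij _; rw [pow_zero, mx_one, Matrix.one_apply_ne hij.ne]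
      | succ n ih =>
        intro i j hij ht
        rw [pow_succ, mx_mul, mul_entry (t := t) (ut_mx G hG) (ut_mx G hG)
          (fun i j hij ht => ih i j hij ht.le) hij ht, ih i j hij ht, hg i j hij ht, add_zero]
    have h1 : 0 < orderOf g := orderOf_pos g
    have h2 : g⁻¹ = g ^ (orderOf g - 1) := by
      rw [inv_eq_iff_mul_eq_one, ← pow_succ']
      have : orderOf g - 1 + 1 = orderOf g := by omega
      rw [this, pow_orderOf_eq_one]
    change ∀ i j, i < j → t ≤ od (i, j) → mx g⁻¹ i j = 0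
    rw [h2]
    exact key _

lemma mem_HH {t : ℕ} {g : G} : g ∈ HH G hG t ↔ ∀ i j, i < j → t ≤ od (i, j) → mx g i j = 0 :=
  Iff.rfl

lemma HH_zero : HH G hG 0 = ⊥ := by
  rw [eq_bot_iff]
  intro g hg
  rw [Subgroup.mem_bot]
  apply Subtype.ext
  apply Units.ext
  ext i j
  change mx g i j = (1 : Matrix (Fin N) (Fin N) (ZMod p)) i j
  rcases lt_or_ge i j with h | h
  · rw [(mem_HH G hG).1 hg i j h (Nat.zero_le _)]
    exact (Matrix.one_apply_ne h.ne).symm
  · rw [ut_mx G hG i j h]
    exact (Matrix.one_apply).symm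

lemma HH_top : HH G hG (N * N) = ⊤ := by
  rw [eq_top_iff]
  intro g _ i j hij ht
  have := od_bound (q := (i, j)) hij
  omega

lemma HH_le (t : ℕ) : HH G hG t ≤ HH G hG (t + 1) :=
  fun _ hg i j hij ht => hg i j hij (by omega)

/-- The data of a series of subgroups. -/
def Dat (G : Subgroup (Matrix (Fin N) (Fin N) (ZMod p))ˣ)
    (hG : ∀ g ∈ G, UT (g : Matrix (Fin N) (Fin N) (ZMod p))) (t : ℕ) : Prop :=
  ∃ (n : ℕ) (τ : ℕ → ℕ) (a : ℕ → G) (H : ℕ → Subgroup G),
    (∀ i < n, τ i < t) ∧ (∀ i j, i < j → j < n → τ i < τ j) ∧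
    (∀ i < n, ∃ q : Fin N × Fin N, q.1 < q.2 ∧ od q = τ i ∧ a i ∈ HH G hG (τ i + 1) ∧
      mx (a i) q.1 q.2 = 1) ∧
    H 0 = ⊥ ∧ H n = HH G hG t ∧
    (∀ i < n, H (i + 1) = H i ⊔ Subgroup.zpowers (a i) ∧ a i ∉ H i ∧ a i ^ p ∈ H i ∧
      a i ∈ Subgroup.normalizer (H i : Set G))

theorem dat (t : ℕ) : Dat G hG t := by
  classical
  induction t with
  | zero =>
    exact ⟨0, fun _ => 0, fun _ => 1, fun _ => ⊥, by
      intro i hi; omega, by intro i j _ hj; omega, by intro i hi; omega, rfl,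
      (HH_zero G hG).symm, by intro i hi; omega⟩
  | succ t ih =>
    obtain ⟨n, τ, a, H, h1, h2, h3, h4, h5, h6⟩ := ih
    by_cases hT : HH G hG (t + 1) ≤ HH G hG t
    · have heq : HH G hG (t + 1) = HH G hG t := le_antisymm hT (HH_le G hG t)
      exact ⟨n, τ, a, H, fun i hi => (h1 i hi).trans (Nat.lt_succ_self t), h2, h3, h4,
        h5.trans heq.symm, h6⟩
    · obtain ⟨g, hg, hg'⟩ := Set.not_subset.1 hT
      have hg'' : ¬ ∀ i j, i < j → t ≤ od (i, j) → mx g i j = 0 := hg'
      push Not at hg''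
      obtain ⟨i, j, hij, ht, hne⟩ := hg''
      have hod : od (i, j) = t := by
        by_contra h
        exact hne (hg i j hij (by omega))
      let χ : G → ZMod p := fun g => mx g i j
      have hχ1 : ∀ g ∈ HH G hG (t + 1), ∀ h ∈ HH G hG (t + 1), χ (g * h) = χ g + χ h := by
        intro g hg h _
        change mx (g * h) i j = mx g i j + mx h i j
        rw [mx_mul, mul_entry (t := t) (ut_mx G hG) (ut_mx G hG)
          (fun i j hij ht => hg i j hij ht) hij ht]
      have hχ2 : ∀ g, g ∈ HH G hG t ↔ g ∈ HH G hG (t + 1) ∧ χ g = 0 := by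
        intro g
        constructor
        · intro h
          exact ⟨HH_le G hG t h, h i j hij ht⟩
        · rintro ⟨h7, h8⟩ i' j' hij' ht'
          rcases Nat.lt_or_ge t (od (i', j')) with h9 | h9
          · exact h7 i' j' hij' h9
          · have h10 : (i', j') = (i, j) := od_inj hij' hij (by omega)
            rw [Prod.mk.injEq] at h10
            rw [h10.1, h10.2]
            exact h8
      obtain ⟨c, hc⟩ : ∃ c : ℕ, (c : ZMod p) = (χ g)⁻¹ := ⟨((χ g)⁻¹).val, ZMod.natCast_zmod_val _⟩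
      let b := g ^ c
      have hb : b ∈ HH G hG (t + 1) := Subgroup.pow_mem _ hg c
      have hχb : χ b = 1 := by
        rw [chi_pow χ hχ1 hg, hc, inv_mul_cancel₀ hne]
      obtain ⟨k1, k2, k3, k4⟩ := chi_step χ hχ1 hχ2 hb (by rw [hχb]; exact one_ne_zero)
      refine ⟨n + 1, fun i => if i < n then τ i else t, fun i => if i < n then a i else b,
        fun i => if i < n + 1 then H i else HH G hG (t + 1), ?_, ?_, ?_, ?_, ?_, ?_⟩
      · intro i hi
        dsimp only
        split_ifs with h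
        · have := h1 i h; omega
        · exact Nat.lt_succ_self t
      · intro i j hij hj
        dsimp only
        rw [if_pos (by omega : i < n)]
        split_ifs with h
        · exact h2 i j hij h
        · exact h1 i (by omega)
      · intro i' hi'
        dsimp only
        split_ifs with h
        · exact h3 i' h
        · exact ⟨(i, j), hij, hod, hb, hχb⟩
      · dsimp only
        rw [if_pos (by omega), h4]
      · dsimp only
        rw [if_neg (by omega)]
      · intro i' hi'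
        dsimp only
        by_cases h : i' < n
        · rw [if_pos (by omega : i' + 1 < n + 1), if_pos (by omega : i' < n + 1), if_pos h]
          exact h6 i' h
        · have h' : i' = n := by omega
          subst h'
          rw [if_neg (by omega : ¬ i' + 1 < i' + 1), if_pos (by omega : i' < i' + 1), if_neg h, h5]
          exact ⟨k1, k2, k3, k4⟩

include hG in
/-- Every group of unitriangular matrices over the prime field has a series of subgroups whose
generators have different pivots. -/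
theorem exists_ser : ∃ (n : ℕ) (a : ℕ → G) (q : Fin n → Fin N × Fin N) (H : ℕ → Subgroup G),
    Ser p n H a ∧ (∀ i, (q i).1 < (q i).2) ∧
    (∀ i i' : Fin n, i ≤ i' → ∀ j, (q i').1 < j → j < (q i').2 → mx (a i) (q i').1 j = 0) ∧
    (∀ i i' : Fin n, i < i' → mx (a i) (q i').1 (q i').2 = 0) ∧
    (∀ i : Fin n, mx (a i) (q i).1 (q i).2 = 1) ∧
    (∀ i : Fin n, ∀ s j : Fin N, s < j → (j - s : ℕ) < ((q i).2 - (q i).1 : ℕ) →
      mx (a i) s j = 0) := by
  obtain ⟨n, τ, a, H, h1, h2, h3, h4, h5, h6⟩ := dat G hG (N * N)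
  choose! q hq1 hq2 hq3 hq4 using fun i : Fin n => h3 i i.2
  refine ⟨n, a, q, H, ⟨h4, h5.trans (HH_top G hG), fun i hi => (h6 i hi).1,
    fun i hi => (h6 i hi).2.1, fun i hi => (h6 i hi).2.2.1, fun i hi => (h6 i hi).2.2.2⟩, hq1,
    ?_, ?_, hq4, ?_⟩
  · intro i i' hii j hj1 hj2
    refine hq3 i _ _ hj1 ?_
    have h7 : τ i ≤ τ i' := by
      rcases eq_or_lt_of_le hii with h | h
      · rw [h]
      · exact (h2 i i' h i'.2).le
    have h8 : od (q i') < od ((q i').1, j) := by
      apply od_lt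
      have := Fin.lt_def.1 hj1
      have := Fin.lt_def.1 hj2
      simp only
      omega
    rw [hq2] at h8
    omega
  · intro i i' hii
    refine hq3 i _ _ (hq1 i') ?_
    have h7 := h2 i i' hii i'.2
    have h8 : od ((q i').1, (q i').2) = τ i' := hq2 i'
    omega
  · intro i s j hsj hlt
    refine hq3 i _ _ hsj ?_
    have h8 : od (q i) < od (s, j) := od_lt hlt
    rw [hq2] at h8
    omega

end uni

end Q17.Res
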