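import Pool.Agent.Q17.Res.Uni2

/-! The action of a group of unitriangular matrices on an affine space. -/

set_option autoImplicit false
set_option linter.unusedSectionVars false

open MvPolynomial Pool.Agent.H920R2 Pool.Agent.H519R3.RS Pool.Agent.H519R3.RE

universe u v

namespace Q17.Res

/-- The positions above the diagonal. -/
abbrev Pos (N : ℕ) : Type := {q : Fin N × Fin N // q.1 < q.2}

section act

variable {k : Type u} [Field k] {p : ℕ} [CharP k p] {r m N : ℕ}

/-- The polynomial ring. -/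
abbrev BU (k : Type u) [Field k] (r m N : ℕ) : Type u := MvPolynomial (Fin r ⊕ (Fin m × Pos N)) k

/-- The generic unitriangular matrices. -/
noncomputable def Ym (k : Type u) [Field k] (r m N : ℕ) (t : Fin m) :
    Matrix (Fin N) (Fin N) (BU k r m N) :=
  Matrix.of fun i j => if h : i < j then X (Sum.inr (t, ⟨(i, j), h⟩)) else if i = j then 1 else 0

/-- The matrices with the entries `g i j * f ^ (j - i)`. -/
noncomputable def Lam (p : ℕ) [CharP k p] (f : Fin m → MvPolynomial (Fin r) k)
    (g : Matrix (Fin N) (Fin N) (ZMod p)) (t : Fin m) : Matrix (Fin N) (Fin N) (BU k r m N) :=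
  Matrix.of fun i j => C (ZMod.castHom (dvd_refl p) k (g i j)) *
    rename Sum.inl (f t) ^ (j - i : ℕ)

/-- The action of a matrix. -/
noncomputable def actU (p : ℕ) [CharP k p] (f : Fin m → MvPolynomial (Fin r) k)
    (g : Matrix (Fin N) (Fin N) (ZMod p)) : BU k r m N →ₐ[k] BU k r m N :=
  aeval (Sum.elim (fun i => X (Sum.inl i)) fun x =>
    (Lam p f g x.1 * Ym k r m N x.1) x.2.1.1 x.2.1.2)

variable (f : Fin m → MvPolynomial (Fin r) k) {g h : Matrix (Fin N) (Fin N) (ZMod p)}

lemma actU_inl (g : Matrix (Fin N) (Fin N) (ZMod p)) (i : Fin r) :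
    actU p f g (X (Sum.inl i)) = X (Sum.inl i) := by
  unfold actU; rw [aeval_X]; rfl

lemma actU_inr (g : Matrix (Fin N) (Fin N) (ZMod p)) (t : Fin m) (q : Pos N) :
    actU p f g (X (Sum.inr (t, q))) = (Lam p f g t * Ym k r m N t) q.1.1 q.1.2 := by
  unfold actU; rw [aeval_X]; rfl

lemma actU_ren (g : Matrix (Fin N) (Fin N) (ZMod p)) (P : MvPolynomial (Fin r) k) :
    actU p f g (rename Sum.inl P) = rename Sum.inl P := by
  induction P using MvPolynomial.induction_on with
  | C a => rw [rename_C, ← MvPolynomial.algebraMap_eq, AlgHom.commutes]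
  | add p q hp hq => rw [map_add, map_add, hp, hq]
  | mul_X p i hp => rw [map_mul, map_mul, hp, rename_X, actU_inl]

lemma actU_Lam (g h : Matrix (Fin N) (Fin N) (ZMod p)) (t : Fin m) (i j : Fin N) :
    actU p f g (Lam p f h t i j) = Lam p f h t i j := by
  unfold Lam
  rw [Matrix.of_apply, map_mul, map_pow, actU_ren, ← MvPolynomial.algebraMap_eq, AlgHom.commutes]

lemma ut_Ym (t : Fin m) : UT (Ym k r m N t) := by
  intro i j hij
  unfold Ym
  rw [Matrix.of_apply, dif_neg (not_lt.2 hij)]

lemma ut_Lam (hg : UT g) (t : Fin m) : UT (Lam (k := k) p f g t) := by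
  intro i j hij
  unfold Lam
  rw [Matrix.of_apply, hg i j hij]
  split_ifs with h
  · subst h
    rw [Nat.sub_self, pow_zero, mul_one, map_one, C_1]
  · rw [map_zero, C_0, zero_mul]

lemma ut_mul {R : Type*} [CommRing R] {A B : Matrix (Fin N) (Fin N) R} (hA : UT A) (hB : UT B) :
    UT (A * B) := by
  intro i j hij
  rw [Matrix.mul_apply]
  split_ifs with h
  · subst h
    rw [Finset.sum_eq_single i]
    · rw [hA i i le_rfl, hB i i le_rfl, if_pos rfl, mul_one]
    · intro l _ hl
      rcases lt_or_gt_of_ne hl with h1 | h1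
      · rw [hA i l h1.le, if_neg hl.symm, zero_mul]
      · rw [hB l i h1.le, if_neg hl, mul_zero]
    · intro h
      exact absurd (Finset.mem_univ i) h
  · refine Finset.sum_eq_zero fun l _ => ?_
    rcases lt_or_ge l i with h1 | h1
    · rw [hA i l h1.le, if_neg h1.ne', zero_mul]
    · rw [hB l j (hij.trans h1), if_neg, mul_zero]
      intro h2
      subst h2
      exact h (le_antisymm h1 hij)

lemma Lam_mul (hg : UT g) (hh : UT h) (t : Fin m) :
    Lam (k := k) p f g t * Lam p f h t = Lam p f (g * h) t := by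
  ext1 i j
  rw [Matrix.mul_apply]
  unfold Lam
  simp only [Matrix.of_apply]
  rw [Matrix.mul_apply, map_sum, map_sum, Finset.sum_mul]
  refine Finset.sum_congr rfl fun l _ => ?_
  rw [map_mul, C_mul]
  rcases lt_or_ge l i with h1 | h1
  · rw [hg i l h1.le, if_neg h1.ne', map_zero, C_0]
    ring
  · rcases lt_or_ge j l with h2 | h2
    · rw [hh l j h2.le, if_neg h2.ne', map_zero, C_0]
      ring
    · have h3 : (j - i : ℕ) = (l - i : ℕ) + (j - l : ℕ) := by
        have := Fin.le_def.1 h1
        have := Fin.le_def.1 h2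
        omega
      rw [h3, pow_add]
      ring

lemma Lam_one (t : Fin m) :
    Lam (k := k) p f (1 : Matrix (Fin N) (Fin N) (ZMod p)) t = 1 := by
  ext1 i j
  unfold Lam
  rw [Matrix.of_apply, Matrix.one_apply, Matrix.one_apply]
  split_ifs with h
  · subst h
    rw [Nat.sub_self, pow_zero, mul_one, map_one, C_1]
  · rw [map_zero, C_0, zero_mul]

lemma Ym_lt (t : Fin m) {i j : Fin N} (h : i < j) :
    Ym k r m N t i j = X (Sum.inr (t, ⟨(i, j), h⟩)) := by
  unfold Ym
  rw [Matrix.of_apply, dif_pos h]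

lemma actU_Ym (hg : UT g) (t : Fin m) (i j : Fin N) :
    actU p f g (Ym k r m N t i j) = (Lam p f g t * Ym k r m N t) i j := by
  rcases lt_or_ge i j with h1 | h1
  · rw [Ym_lt t h1, actU_inr]
  · rw [ut_mul (ut_Lam f hg t) (ut_Ym t) i j h1, ut_Ym t i j h1]
    split_ifs
    · rw [map_one]
    · rw [map_zero]

lemma actU_comp (hg : UT g) (hh : UT h) (x : BU k r m N) :
    actU p f g (actU p f h x) = actU p f (h * g) x := by
  have h1 : (actU p f g).comp (actU p f h) = (actU p f (h * g) : BU k r m N →ₐ[k] _) := by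
    apply MvPolynomial.algHom_ext
    rintro (i | ⟨t, q⟩)
    · rw [AlgHom.comp_apply, actU_inl, actU_inl, actU_inl]
    · rw [AlgHom.comp_apply, actU_inr, actU_inr, ← Lam_mul f hh hg, Matrix.mul_assoc,
        Matrix.mul_apply, Matrix.mul_apply, map_sum]
      refine Finset.sum_congr rfl fun l _ => ?_
      rw [map_mul, actU_Lam, actU_Ym f hg]
  exact congrArg (fun σ : BU k r m N →ₐ[k] BU k r m N => σ x) h1

lemma actU_one (x : BU k r m N) :
    actU p f (1 : Matrix (Fin N) (Fin N) (ZMod p)) x = x := by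
  have h1 : actU p f (1 : Matrix (Fin N) (Fin N) (ZMod p)) = AlgHom.id k (BU k r m N) := by
    apply MvPolynomial.algHom_ext
    rintro (i | ⟨t, q⟩)
    · rw [actU_inl]; rfl
    · rw [actU_inr, Lam_one, Matrix.one_mul, Ym_lt t q.2]; rfl
  exact congrArg (fun σ : BU k r m N →ₐ[k] BU k r m N => σ x) h1

variable [Fact p.Prime] (G : Subgroup (Matrix (Fin N) (Fin N) (ZMod p))ˣ)
  (hG : ∀ g ∈ G, UT (g : Matrix (Fin N) (Fin N) (ZMod p)))

/-- The action of the group on the polynomial ring. -/
noncomputable def rhoU (f : Fin m → MvPolynomial (Fin r) k)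
    (G : Subgroup (Matrix (Fin N) (Fin N) (ZMod p))ˣ)
    (hG : ∀ g ∈ G, UT (g : Matrix (Fin N) (Fin N) (ZMod p))) :
    G →* (BU k r m N ≃ₐ[k] BU k r m N) where
  toFun := fun g => AlgEquiv.ofAlgHom (actU p f (mx g⁻¹)) (actU p f (mx g))
    (AlgHom.ext fun x => by
      rw [AlgHom.comp_apply, actU_comp f (ut_mx G hG) (ut_mx G hG), ← mx_mul, mul_inv_cancel,
        mx_one, actU_one]
      rfl)
    (AlgHom.ext fun x => by
      rw [AlgHom.comp_apply, actU_comp f (ut_mx G hG) (ut_mx G hG), ← mx_mul, inv_mul_cancel,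
        mx_one, actU_one]
      rfl)
  map_one' := AlgEquiv.ext fun x => by
    change actU p f (mx (1 : G)⁻¹) x = x
    rw [inv_one, mx_one, actU_one]
  map_mul' := fun g h => AlgEquiv.ext fun x => by
    change actU p f (mx (g * h)⁻¹) x = actU p f (mx g⁻¹) (actU p f (mx h⁻¹) x)
    rw [actU_comp f (ut_mx G hG) (ut_mx G hG), ← mx_mul, mul_inv_rev]

lemma rhoU_apply (g : G) (x : BU k r m N) : rhoU f G hG g x = actU p f (mx g⁻¹) x := rfl

/-- The entries of the differences. -/
lemma diff_entry (hg : UT g) (t : Fin m) {i j : Fin N} (hij : i < j) :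
    actU p f g (Ym k r m N t i j) - Ym k r m N t i j =
      ∑ l ∈ Finset.univ.filter (fun l => i < l ∧ l ≤ j), Lam p f g t i l * Ym k r m N t l j := by
  rw [actU_Ym f hg, Matrix.mul_apply, ← Finset.sum_filter_add_sum_filter_not Finset.univ
    (fun l => i < l ∧ l ≤ j)]
  have h1 : ∑ l ∈ Finset.univ.filter (fun l => ¬ (i < l ∧ l ≤ j)),
      Lam p f g t i l * Ym k r m N t l j = Ym k r m N t i j := by
    rw [Finset.sum_eq_single i]
    · rw [ut_Lam f hg t i i le_rfl, if_pos rfl, one_mul]
    · intro l hl hli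
      rw [Finset.mem_filter, not_and_or, not_lt, not_le] at hl
      rcases hl.2 with h2 | h2
      · rw [ut_Lam f hg t i l h2, if_neg hli.symm, zero_mul]
      · rw [ut_Ym t l j h2.le, if_neg h2.ne', mul_zero]
    · intro h
      exfalso
      apply h
      rw [Finset.mem_filter]
      exact ⟨Finset.mem_univ i, fun h => lt_irrefl i h.1⟩
  rw [h1, add_sub_cancel_right]

end act

end Q17.Res
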