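import Pool.Agent.Q17.Res.Uni3

/-! The quotient of an affine space by a group of unitriangular matrices. -/

set_option autoImplicit false
set_option linter.unusedSectionVars false

open MvPolynomial Pool.Agent.H920R2 Pool.Agent.H519R3.RS Pool.Agent.H519R3.RE

universe u v

namespace Q17.Res

section ver

variable {k : Type u} [Field k] {p : ℕ} [Fact p.Prime] [CharP k p] {r m N : ℕ}
  (w : Fin r → ℕ) (L : ℕ) (f : Fin m → MvPolynomial (Fin r) k)
  (hf : ∀ t, IsWeightedHomogeneous w (f t) L)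

include hf in
lemma ren_mem (t : Fin m) (j : ℕ) :
    (rename Sum.inl (f t) : BU k r m N) ^ j ∈ EI (xi k r (Fin m × Pos N)) w (j * L) := by
  refine pow_mem_EI _ w ?_ j
  have h1 := map_mem_EI _ w
    (rename (R := k) (Sum.inl : Fin r → Fin r ⊕ (Fin m × Pos N))).toRingHom (hom_mem_EI w (hf t))
  have h2 : (fun i => (rename (R := k) (Sum.inl : Fin r → Fin r ⊕ (Fin m × Pos N))).toRingHom
      (X i)) = xi k r (Fin m × Pos N) := by
    ext1 i
    exact rename_X _ _
  rw [h2] at h1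
  exact h1

include hf in
lemma Lam_mem (g : Matrix (Fin N) (Fin N) (ZMod p)) (t : Fin m) (i j : Fin N) :
    Lam p f g t i j ∈ EI (xi k r (Fin m × Pos N)) w ((j - i : ℕ) * L) := by
  unfold Lam
  rw [Matrix.of_apply]
  exact Ideal.mul_mem_left _ _ (ren_mem w L f hf t _)

include hf in
lemma actU_diff {g : Matrix (Fin N) (Fin N) (ZMod p)} (hg : UT g) (h : ℕ)
    (hgh : ∀ s j : Fin N, s < j → (j - s : ℕ) < h → g s j = 0) (d : ℕ) (b : BU k r m N)
    (hb : b ∈ EI (xi k r (Fin m × Pos N)) w d) :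
    actU p f g b - b ∈ EI (xi k r (Fin m × Pos N)) w (d + h * L) := by
  refine diff_mem w _ _ (actU_inl f g) ?_ d b hb
  rintro ⟨t, q, hq⟩
  rw [← Ym_lt t hq, diff_entry f hg t hq]
  refine Ideal.sum_mem _ fun l hl => Ideal.mul_mem_right _ _ ?_
  rw [Finset.mem_filter] at hl
  by_cases h1 : (l - q.1 : ℕ) < h
  · unfold Lam
    rw [Matrix.of_apply, hgh _ _ hl.2.1 h1, map_zero, C_0, zero_mul]
    exact Ideal.zero_mem _
  · exact EI_anti _ w (Nat.mul_le_mul_right L (not_lt.1 h1)) (Lam_mem w L f hf g t q.1 l)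

lemma EI_le_prime (P : Ideal (BU k r m N)) (hP : P.IsPrime)
    (h : ∀ i, 0 < w i → X (Sum.inl i) ∈ P) : EI (xi k r (Fin m × Pos N)) w 1 ≤ P := by
  unfold EI
  rw [Ideal.span_le]
  rintro _ ⟨α, hα, rfl⟩
  obtain ⟨i, -, hi⟩ : ∃ i ∈ Finset.univ, α i * w i ≠ 0 := by
    by_contra hcon
    push Not at hcon
    rw [Finset.sum_eq_zero hcon] at hα
    omega
  have h1 : 0 < w i := Nat.pos_of_ne_zero (right_ne_zero_of_mul hi)
  have h2 : α i ≠ 0 := left_ne_zero_of_mul hi
  change ∏ i, xi k r (Fin m × Pos N) i ^ α i ∈ P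
  refine (hP.prod_mem_iff).2 ⟨i, Finset.mem_univ i, ?_⟩
  exact Ideal.pow_mem_of_mem P (h i h1) _ (Nat.pos_of_ne_zero h2)

variable (hf0 : ∀ (K : Type u) [Field K] [Algebra k K] (z : Fin r → K),
  (∀ t, aeval z (f t) = 0) → ∀ i, 0 < w i → z i = 0)

include hf0 in
lemma mem_prime (P : Ideal (BU k r m N)) (hP : P.IsPrime)
    (h : ∀ t, rename Sum.inl (f t) ∈ P) (i : Fin r) (hi : 0 < w i) : X (Sum.inl i) ∈ P := by
  have h1 := hf0 P.ResidueField (fun i => algebraMap (BU k r m N) P.ResidueField (X (Sum.inl i)))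
    (by
      intro t
      have h2 : aeval (fun i => algebraMap (BU k r m N) P.ResidueField (X (Sum.inl i))) (f t) =
          algebraMap (BU k r m N) P.ResidueField (rename Sum.inl (f t)) := by
        have h3 : (aeval (fun i => algebraMap (BU k r m N) P.ResidueField (X (Sum.inl i))) :
            MvPolynomial (Fin r) k →ₐ[k] P.ResidueField) =
            (IsScalarTower.toAlgHom k (BU k r m N) P.ResidueField).comp (rename Sum.inl) := by
          apply MvPolynomial.algHom_ext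
          intro i
          rw [aeval_X, AlgHom.comp_apply, rename_X]
          rfl
        rw [h3]
        rfl
      rw [h2, Ideal.algebraMap_residueField_eq_zero]
      exact h t) i hi
  rwa [Ideal.algebraMap_residueField_eq_zero] at h1

include hf0 in
lemma rad_x (s : Fin r) (hs : 0 < w s) (Λ : ℕ) : (X s : MvPolynomial (Fin r) k) ∈
    (Ideal.span (Set.range fun t => f t ^ Λ)).radical := by
  rw [Ideal.radical_eq_sInf, Ideal.mem_sInf]
  rintro P ⟨hle, hP⟩
  have h0 : ∀ t, f t ∈ P := fun t =>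
    hP.mem_of_pow_mem Λ (hle (Ideal.subset_span ⟨t, rfl⟩))
  have h1 := hf0 P.ResidueField
    (fun i => algebraMap (MvPolynomial (Fin r) k) P.ResidueField (X i)) (by
      intro t
      have h2 : aeval (fun i => algebraMap (MvPolynomial (Fin r) k) P.ResidueField (X i)) (f t) =
          algebraMap (MvPolynomial (Fin r) k) P.ResidueField (f t) := by
        have h3 : (aeval (fun i => algebraMap (MvPolynomial (Fin r) k) P.ResidueField (X i)) :
            MvPolynomial (Fin r) k →ₐ[k] P.ResidueField) =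
            (IsScalarTower.toAlgHom k (MvPolynomial (Fin r) k) P.ResidueField) := by
          apply MvPolynomial.algHom_ext
          intro i
          rw [aeval_X]
          rfl
        rw [h3]
        rfl
      rw [h2, Ideal.algebraMap_residueField_eq_zero]
      exact h0 t) s hs
  rwa [Ideal.algebraMap_residueField_eq_zero] at h1

variable (G : Subgroup (Matrix (Fin N) (Fin N) (ZMod p))ˣ)
  (hG : ∀ g ∈ G, UT (g : Matrix (Fin N) (Fin N) (ZMod p)))

include hf0 in
lemma fixU (g : G) (hg : g ≠ 1) (P : Ideal (BU k r m N)) (hP : P.IsPrime)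
    (h : ∀ c, rhoU f G hG g c - c ∈ P) : EI (xi k r (Fin m × Pos N)) w 1 ≤ P := by
  classical
  refine EI_le_prime w P hP (mem_prime w f hf0 P hP ?_)
  have hne : ∃ n : ℕ, ∃ i j : Fin N, i < j ∧ (j - i : ℕ) = n ∧ mx g⁻¹ i j ≠ 0 := by
    by_contra hcon
    push Not at hcon
    apply hg
    rw [← inv_eq_one]
    apply Subtype.ext
    apply Units.ext
    ext i j
    change mx g⁻¹ i j = (1 : Matrix (Fin N) (Fin N) (ZMod p)) i j
    rcases lt_or_ge i j with h | h
    · rw [hcon _ i j h rfl]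
      exact (Matrix.one_apply_ne h.ne).symm
    · rw [ut_mx G hG i j h]
      exact (Matrix.one_apply).symm
  obtain ⟨i, j, hij, hn, hc⟩ := Nat.find_spec hne
  have hmin : ∀ l : Fin N, i < l → l < j → mx g⁻¹ i l = 0 := by
    intro l h1 h2
    by_contra h3
    refine Nat.find_min hne (m := (l - i : ℕ)) ?_ ⟨i, l, h1, rfl, h3⟩
    have := Fin.lt_def.1 h1
    have := Fin.lt_def.1 h2
    omega
  intro t
  have h1 := h (Ym k r m N t i j)
  rw [rhoU_apply, diff_entry f (ut_mx G hG) t hij, Finset.sum_eq_single j] at h1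
  · rw [ut_Ym t j j le_rfl, if_pos rfl, mul_one] at h1
    unfold Lam at h1
    rw [Matrix.of_apply] at h1
    rcases hP.mem_or_mem h1 with h2 | h2
    · exfalso
      apply hP.ne_top
      refine Ideal.eq_top_of_isUnit_mem _ h2 ?_
      refine IsUnit.map C (IsUnit.mk0 _ ?_)
      rw [Ne, map_eq_zero]
      exact hc
    · exact hP.mem_of_pow_mem _ h2
  · intro l hl hlj
    rw [Finset.mem_filter] at hl
    unfold Lam
    rw [Matrix.of_apply, hmin l hl.2.1 (lt_of_le_of_ne hl.2.2 hlj), map_zero, C_0, zero_mul,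
      zero_mul]
  · intro h2
    exfalso
    apply h2
    rw [Finset.mem_filter]
    exact ⟨Finset.mem_univ j, hij, le_rfl⟩

/-- The determinant. -/
lemma det_entries {n : ℕ} (a : ℕ → G) (q : Fin n → Fin N × Fin N)
    (hq1 : ∀ i, (q i).1 < (q i).2)
    (hq2 : ∀ i i' : Fin n, i ≤ i' → ∀ j, (q i').1 < j → j < (q i').2 →
      mx (a i) (q i').1 j = 0)
    (hq3 : ∀ i i' : Fin n, i < i' → mx (a i) (q i').1 (q i').2 = 0)
    (hq4 : ∀ i : Fin n, mx (a i) (q i).1 (q i).2 = 1) (t : Fin m) :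
    (Matrix.of fun i j : Fin n => rhoU f G hG (a i)⁻¹ (Ym k r m N t (q j).1 (q j).2) -
      Ym k r m N t (q j).1 (q j).2).det =
      (rename Sum.inl (f t)) ^ ∑ j, ((q j).2 - (q j).1 : ℕ) := by
  classical
  have key : ∀ i j : Fin n, i ≤ j → rhoU f G hG (a i)⁻¹ (Ym k r m N t (q j).1 (q j).2) -
      Ym k r m N t (q j).1 (q j).2 = Lam p f (mx (a i)) t (q j).1 (q j).2 := by
    intro i j hij
    rw [rhoU_apply, inv_inv, diff_entry f (ut_mx G hG) t (hq1 j), Finset.sum_eq_single (q j).2]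
    · rw [ut_Ym t _ _ le_rfl, if_pos rfl, mul_one]
    · intro l hl hlj
      rw [Finset.mem_filter] at hl
      unfold Lam
      rw [Matrix.of_apply, hq2 i j hij l hl.2.1 (lt_of_le_of_ne hl.2.2 hlj), map_zero, C_0,
        zero_mul, zero_mul]
    · intro h2
      exfalso
      apply h2
      rw [Finset.mem_filter]
      exact ⟨Finset.mem_univ _, hq1 j, le_rfl⟩
  rw [Matrix.det_of_isLowerTriangular, ← Finset.prod_pow_eq_pow_sum]
  · refine Finset.prod_congr rfl fun i _ => ?_
    rw [Matrix.of_apply, key i i le_rfl]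
    unfold Lam
    rw [Matrix.of_apply, hq4, map_one, C_1, one_mul]
  · intro i j hij
    rw [OrderDual.toDual_lt_toDual] at hij
    rw [Matrix.of_apply, key i j hij.le]
    unfold Lam
    rw [Matrix.of_apply, hq3 i j hij, map_zero, C_0, zero_mul]

include hf hf0 in
lemma leadU {n : ℕ} (a : ℕ → G) (q : Fin n → Fin N × Fin N)
    (hq1 : ∀ i, (q i).1 < (q i).2)
    (hq2 : ∀ i i' : Fin n, i ≤ i' → ∀ j, (q i').1 < j → j < (q i').2 →
      mx (a i) (q i').1 j = 0)
    (hq3 : ∀ i i' : Fin n, i < i' → mx (a i) (q i').1 (q i').2 = 0)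
    (hq4 : ∀ i : Fin n, mx (a i) (q i).1 (q i).2 = 1) (mw : Fin n → ℕ)
    (hmw : ∀ i, mw i = ((q i).2 - (q i).1 : ℕ) * L)
    (d : ℕ) (hd : 1 ≤ d) (b : BU k r m N) (hb : b ∈ EI (xi k r (Fin m × Pos N)) w d) :
    ∃ M : ℕ, b ^ M ∈ leadM (fun (i : Fin n) c => rhoU f G hG (a i)⁻¹ c - c)
      (EI (xi k r (Fin m × Pos N)) w) mw (M * d) := by
  classical
  let Λ := ∑ j, ((q j).2 - (q j).1 : ℕ)
  obtain ⟨M0, hM0⟩ := large_comb w (fun t => f t ^ Λ) (Λ * L) (fun t => by
    have h1 := (hf t).pow Λ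
    rwa [smul_eq_mul] at h1) (fun s hs => rad_x w f hf0 s hs Λ)
  refine ⟨M0, ?_⟩
  have h1 : b ^ M0 ∈ EI (xi k r (Fin m × Pos N)) w (M0 * d) := pow_mem_EI _ w hb M0
  have h2 : M0 ≤ M0 * d := Nat.le_mul_of_pos_right _ hd
  refine (show EI (xi k r (Fin m × Pos N)) w (M0 * d) ≤ _ from ?_) h1
  have hren : ∀ y ∈ EI (X : Fin r → MvPolynomial (Fin r) k) w (M0 * d),
      rename Sum.inl y ∈ leadM (fun (i : Fin n) c => rhoU f G hG (a i)⁻¹ c - c)
        (EI (xi k r (Fin m × Pos N)) w) mw (M0 * d) := by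
    intro y hy
    have h3 := hM0 _ h2 y hy
    clear hy
    induction h3 using Submodule.span_induction with
    | mem y hy =>
      obtain ⟨t, g, hg, rfl⟩ := hy
      refine Ideal.mem_sup_right (Ideal.subset_span ⟨fun _ => 0, fun j => Ym k r m N t (q j).1
        (q j).2, fun j => ?_, rename Sum.inl g, ?_, ?_⟩)
      · rw [EI_zero]; trivial
      · have h4 : ∑ j, (0 + mw j) = Λ * L := by
          rw [Finset.sum_mul]
          refine Finset.sum_congr rfl fun j _ => ?_
          rw [zero_add, hmw]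
        rw [h4]
        have h5 := map_mem_EI _ w
          (rename (R := k) (Sum.inl : Fin r → Fin r ⊕ (Fin m × Pos N))).toRingHom hg
        have h6 : (fun i => (rename (R := k) (Sum.inl : Fin r → Fin r ⊕ (Fin m × Pos N))).toRingHom
            (X i)) = xi k r (Fin m × Pos N) := by
          ext1 i
          exact rename_X _ _
        rw [h6] at h5
        exact h5
      · rw [map_mul, map_pow]
        congr 1
        exact (det_entries f G hG a q hq1 hq2 hq3 hq4 t).symm
    | zero => rw [map_zero]; exact Ideal.zero_mem _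
    | add y z _ _ hy' hz' => rw [map_add]; exact Ideal.add_mem _ hy' hz'
    | smul c y _ hy' => rw [smul_eq_mul, map_mul]; exact Ideal.mul_mem_left _ _ hy'
  rw [show EI (xi k r (Fin m × Pos N)) w (M0 * d) = Ideal.span {y | ∃ α : Fin r → ℕ,
    M0 * d ≤ ∑ i, α i * w i ∧ y = ∏ i, xi k r (Fin m × Pos N) i ^ α i} from rfl, Ideal.span_le]
  rintro _ ⟨α, hα, rfl⟩
  have h3 := hren _ (mono_mem _ w α hα)
  have h4 : rename Sum.inl (∏ i, (X i : MvPolynomial (Fin r) k) ^ α i) =
      ∏ i, xi k r (Fin m × Pos N) i ^ α i := by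
    rw [map_prod]
    exact Finset.prod_congr rfl fun i _ => by rw [map_pow, rename_X]; rfl
  rw [h4] at h3
  exact h3

include hf hf0 in
/-- The quotient by the group. -/
theorem goodU (hw : ∃ i, 0 < w i) (hL : 0 < L) :
    Good k (isFilt_restr (isFilt_EI (xi k r (Fin m × Pos N)) w) (gi (rhoU f G hG) ⊤)) ∧
      restr (EI (xi k r (Fin m × Pos N)) w) (gi (rhoU f G hG) ⊤) 1 ≠ ⊥ := by
  classical
  obtain ⟨n, a, q, H, hser, hq1, hq2, hq3, hq4, hq5⟩ := exists_ser G hG
  let mm : ℕ → ℕ := fun i => if h : i < n then ((q ⟨i, h⟩).2 - (q ⟨i, h⟩).1 : ℕ) * L else 1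
  have hmm : ∀ i : Fin n, mm i = ((q i).2 - (q i).1 : ℕ) * L := fun i => by
    change (if h : (i : ℕ) < n then _ else _) = _
    rw [dif_pos i.2]
  refine g_good (p := p) (rhoU f G hG) (isFilt_EI (xi k r (Fin m × Pos N)) w) Fact.out
    (CharP.cast_eq_zero k p) (ser_inv hser) mm ?_ ?_ ?_ ?_ (good_xi w) (one_ne_bot_xi w hw)
  · intro i hi
    have h1 := hmm ⟨i, hi⟩
    change mm i = _ at h1
    rw [h1]
    have h2 := Fin.lt_def.1 (hq1 ⟨i, hi⟩)
    exact Nat.mul_pos (by omega) hL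
  · intro i hi d c hc
    have h1 := hmm ⟨i, hi⟩
    change mm i = _ at h1
    rw [h1, rhoU_apply, inv_inv]
    exact actU_diff w L f hf (ut_mx G hG) _ (hq5 ⟨i, hi⟩) d c hc
  · intro g hg P hP h
    exact fixU w f hf0 G hG g hg P hP h
  · intro d hd b hb
    exact leadU w L f hf hf0 G hG a q hq1 hq2 hq3 hq4 _ hmm d hd b hb

end ver

end Q17.Res
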